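import Pool.Agent.Lib.P325t.Defs

/-!
# Weighted type graphs

Definitions only.
-/

open Finset

namespace Pool.Agent.P325t

open Pool.Agent.P325f1f.Dich

/-- A set `F` of edges of the type graph is sparse if every set `F' ⊆ F` has at least `|F'|` ends;
that is, every connected component of `F` contains at most one cycle. -/
def TypeGraph.Sparse {P Q κ : Type} (T : TypeGraph P Q κ) (F : Finset κ) : Prop :=
  ∀ F' ⊆ F, F'.card ≤ T.verts F'

/-- The largest weight of a sparse set of edges. -/
noncomputable def TypeGraph.maxWeight {P Q κ : Type} [Fintype κ] (T : TypeGraph P Q κ)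
    (w : κ → ℕ) : ℕ := by
  classical
  exact (univ.filter (fun F : Finset κ => T.Sparse F)).sup (fun F => ∑ k ∈ F, w k)

/-- The type graph with `w k` copies of the edge `k`. -/
def TypeGraph.copies {P Q κ : Type} (T : TypeGraph P Q κ) (w : κ → ℕ) :
    TypeGraph P Q ((k : κ) × Fin (w k)) where
  src p := T.src p.1
  dst p := T.dst p.1

/-- The game `I` is typed over `T` with frequencies proportional to `w`: its left vertices, right
vertices and edges have types in `P`, `Q` and `κ`, the ends of an edge of type `k` have the types
`src k` and `dst k`, edges of the same type carry the same permutation, and the proportion of edges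
of type `k` is `w k / ∑ w`. -/
def TypedWith {P Q κ U W Ω ι : Type} [Fintype κ] [Fintype ι] (T : TypeGraph P Q κ) (w : κ → ℕ)
    (I : Game U W Ω ι) : Prop := by
  classical
  exact ∃ (a : U → P) (b : W → Q) (c : ι → κ) (σ : κ → Equiv.Perm Ω),
    (∀ e, a (I.src e) = T.src (c e) ∧ b (I.dst e) = T.dst (c e) ∧ I.perm e = σ (c e)) ∧
      ∀ k, (univ.filter (fun e => c e = k)).card * ∑ l, w l = w k * Fintype.card ι

end Pool.Agent.P325t
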