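import Pool.Agent.Lib.P325t.Defs

/-!
# A heavy pseudoforest in a type graph

Let `θ ≤ 1` and `θ * |F| ≤ |V(F)|` for all sets `F` of edges.  Then for all weights `w ≥ 0` there is a
set `F` of edges with `θ * w(κ) ≤ w(F)` and an injective map `f` which sends every `k ∈ F` to one of
its two ends (so every component of `F` has at most one cycle).

Proof.  Call `B` good if `|A| ≤ |V(A)|` for all `A ⊆ B`. If `B ⊆ S` is good and cannot be enlarged by an
element of `S \ B`, then every `e ∈ S \ B` has its ends in `V(A)` for some `A ⊆ B` with `|V(A)| = |A|`; the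
union `A` of all these tight sets is tight, so `θ (|A| + |S \ B|) ≤ |V(A)| = |A|` and `θ |S| ≤ |B|`. The greedy
good set for decreasing weights satisfies this for all upper level sets `S` of the weight; sum over the
levels. The owners come from the theorem of Hall.
-/

open Finset

namespace Pool.Agent.P325t

section

variable {P Q κ : Type}

open scoped Classical in
/-- The ends of an edge. -/
noncomputable def TypeGraph.ends (T : TypeGraph P Q κ) (k : κ) : Finset (P ⊕ Q) :=
  {Sum.inl (T.src k), Sum.inr (T.dst k)}

open scoped Classical in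
/-- The ends of a set of edges. -/
noncomputable def TypeGraph.vset (T : TypeGraph P Q κ) (A : Finset κ) : Finset (P ⊕ Q) :=
  A.biUnion T.ends

theorem card_vset (T : TypeGraph P Q κ) (A : Finset κ) : (T.vset A).card = T.verts A := by
  classical
  have h : T.vset A = (A.image T.src).disjSum (A.image T.dst) := by
    ext v
    unfold TypeGraph.vset TypeGraph.ends
    rcases v with p | q
    · simp only [Finset.mem_biUnion, Finset.mem_insert, Finset.mem_singleton,
        Finset.inl_mem_disjSum, Finset.mem_image, Sum.inl.injEq, reduceCtorEq, or_false]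
      constructor
      · rintro ⟨k, hk, rfl⟩
        exact ⟨k, hk, rfl⟩
      · rintro ⟨k, hk, rfl⟩
        exact ⟨k, hk, rfl⟩
    · simp only [Finset.mem_biUnion, Finset.mem_insert, Finset.mem_singleton,
        Finset.inr_mem_disjSum, Finset.mem_image, Sum.inr.injEq, reduceCtorEq, false_or]
      constructor
      · rintro ⟨k, hk, rfl⟩
        exact ⟨k, hk, rfl⟩
      · rintro ⟨k, hk, rfl⟩
        exact ⟨k, hk, rfl⟩
  rw [h, Finset.card_disjSum]
  unfold TypeGraph.verts
  congr!

theorem vset_mono (T : TypeGraph P Q κ) {A B : Finset κ} (h : A ⊆ B) : T.vset A ⊆ T.vset B := by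
  classical
  unfold TypeGraph.vset
  exact Finset.biUnion_subset_biUnion_of_subset_left _ h

/-- The condition of Hall. -/
def GoodSet (T : TypeGraph P Q κ) (B : Finset κ) : Prop :=
  ∀ A ⊆ B, A.card ≤ (T.vset A).card

theorem GoodSet.mono {T : TypeGraph P Q κ} {A B : Finset κ} (hB : GoodSet T B) (h : A ⊆ B) :
    GoodSet T A := fun _ hC => hB _ (hC.trans h)

open scoped Classical in
/-- The union of two tight sets is tight. -/
theorem tight_union {T : TypeGraph P Q κ} {B A A' : Finset κ} (hB : GoodSet T B)
    (hA : A ⊆ B) (hA' : A' ⊆ B) (h : (T.vset A).card = A.card) (h' : (T.vset A').card = A'.card) :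
    (T.vset (A ∪ A')).card = (A ∪ A').card := by
  have h1 : T.vset (A ∪ A') = T.vset A ∪ T.vset A' := by
    unfold TypeGraph.vset
    exact Finset.union_biUnion
  have h2 : (T.vset (A ∩ A')).card ≤ (T.vset A ∩ T.vset A').card :=
    Finset.card_le_card (Finset.subset_inter (vset_mono T Finset.inter_subset_left)
      (vset_mono T Finset.inter_subset_right))
  have h3 : (A ∩ A').card ≤ (T.vset (A ∩ A')).card := hB _ (Finset.inter_subset_left.trans hA)
  have h4 : (A ∪ A').card ≤ (T.vset (A ∪ A')).card := hB _ (Finset.union_subset hA hA')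
  have h5 := Finset.card_union_add_card_inter (T.vset A) (T.vset A')
  have h6 := Finset.card_union_add_card_inter A A'
  rw [← h1] at h5
  omega

open scoped Classical in
/-- A good set which cannot be enlarged within `S` has at least `θ |S|` elements. -/
theorem card_maximal {T : TypeGraph P Q κ} {θ : ℝ} (hθ1 : θ ≤ 1)
    (h : ∀ F : Finset κ, θ * (F.card : ℝ) ≤ (T.verts F : ℝ)) {B S : Finset κ} (hB : GoodSet T B)
    (hBS : B ⊆ S) (hmax : ∀ e ∈ S, e ∉ B → ¬ GoodSet T (insert e B)) :
    θ * (S.card : ℝ) ≤ (B.card : ℝ) := by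
  -- tight sets
  have htight : ∀ e ∈ S, e ∉ B → ∃ A ⊆ B, (T.vset A).card = A.card ∧ T.ends e ⊆ T.vset A := by
    intro e he heB
    have h1 := hmax e he heB
    unfold GoodSet at h1
    push Not at h1
    obtain ⟨A, hA, hlt⟩ := h1
    have heA : e ∈ A := by
      by_contra hne
      have h2 : A ⊆ B := by
        intro x hx
        rcases Finset.mem_insert.1 (hA hx) with rfl | h3
        · exact absurd hx hne
        · exact h3
      exact absurd (hB A h2) (not_le.2 hlt)
    have h2 : A.erase e ⊆ B := by
      intro x hx
      rw [Finset.mem_erase] at hx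
      rcases Finset.mem_insert.1 (hA hx.2) with h3 | h3
      · exact absurd h3 hx.1
      · exact h3
    have h3 := hB _ h2
    have h4 := Finset.card_erase_of_mem heA
    have h5 : 0 < A.card := Finset.card_pos.2 ⟨e, heA⟩
    have h6 : T.vset (A.erase e) ⊆ T.vset A := vset_mono T (Finset.erase_subset _ _)
    have h7 := Finset.card_le_card h6
    refine ⟨A.erase e, h2, by omega, ?_⟩
    have h8 : T.vset (A.erase e) = T.vset A := Finset.eq_of_subset_of_card_le h6 (by omega)
    rw [h8]
    unfold TypeGraph.vset
    exact Finset.subset_biUnion_of_mem T.ends heA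
  obtain ⟨A, hA, hAmax⟩ := Finset.exists_max_image
    (B.powerset.filter (fun A => (T.vset A).card = A.card)) (fun A => A.card)
    ⟨∅, by
      rw [Finset.mem_filter, Finset.mem_powerset]
      exact ⟨Finset.empty_subset _, by simp [TypeGraph.vset]⟩⟩
  rw [Finset.mem_filter, Finset.mem_powerset] at hA
  have hsub : ∀ A' ⊆ B, (T.vset A').card = A'.card → A' ⊆ A := by
    intro A' h1 h2
    have h3 := tight_union hB hA.1 h1 hA.2 h2
    have h4 := hAmax (A ∪ A') (by
      rw [Finset.mem_filter, Finset.mem_powerset]
      exact ⟨Finset.union_subset hA.1 h1, h3⟩)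
    have h5 : A = A ∪ A' := Finset.eq_of_subset_of_card_le Finset.subset_union_left h4
    rw [h5]
    exact Finset.subset_union_right
  have hV : T.vset (A ∪ (S \ B)) ⊆ T.vset A := by
    intro v hv
    unfold TypeGraph.vset at hv
    rw [Finset.mem_biUnion] at hv
    obtain ⟨k, hk, hv⟩ := hv
    rcases Finset.mem_union.1 hk with h1 | h1
    · unfold TypeGraph.vset
      exact Finset.mem_biUnion.2 ⟨k, h1, hv⟩
    · rw [Finset.mem_sdiff] at h1
      obtain ⟨A', h2, h3, h4⟩ := htight k h1.1 h1.2
      exact vset_mono T (hsub A' h2 h3) (h4 hv)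
  have h1 := h (A ∪ (S \ B))
  rw [← card_vset] at h1
  have h2 : ((T.vset (A ∪ (S \ B))).card : ℝ) ≤ (A.card : ℝ) := by
    rw [← hA.2]
    exact_mod_cast Finset.card_le_card hV
  have hdisj : Disjoint A (S \ B) :=
    Finset.disjoint_of_subset_left hA.1 Finset.disjoint_sdiff
  rw [Finset.card_union_of_disjoint hdisj] at h1
  push_cast at h1
  have h3 : ((S \ B).card : ℝ) = (S.card : ℝ) - (B.card : ℝ) := by
    rw [Finset.card_sdiff_of_subset hBS, Nat.cast_sub (Finset.card_le_card hBS)]
  have h4 : (A.card : ℝ) ≤ (B.card : ℝ) := by exact_mod_cast Finset.card_le_card hA.1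
  rw [h3] at h1
  nlinarith

/-- Summation over the levels. -/
theorem level_sum [Fintype κ] (c : κ → ℝ) : ∀ (n : ℕ) (w : κ → ℝ), (∀ k, 0 ≤ w k) →
    (univ.filter (fun k => 0 < w k)).card = n →
    (∀ t : ℝ, 0 < t → 0 ≤ ∑ k ∈ univ.filter (fun k => t ≤ w k), c k) →
    0 ≤ ∑ k, c k * w k := by
  classical
  intro n
  induction n using Nat.strong_induction_on with
  | _ n ih =>
    intro w hw hn hc
    by_cases hne : (univ.filter (fun k => 0 < w k)).Nonempty
    · obtain ⟨k0, hk0, hmin⟩ := Finset.exists_min_image _ w hne
      rw [Finset.mem_filter] at hk0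
      have hm : 0 < w k0 := hk0.2
      set w' : κ → ℝ := fun k => if 0 < w k then w k - w k0 else 0 with hw'
      have hge : ∀ k, 0 < w k → w k0 ≤ w k := fun k hk =>
        hmin k (Finset.mem_filter.2 ⟨Finset.mem_univ _, hk⟩)
      have h1 : ∀ k, 0 ≤ w' k := by
        intro k
        simp only [hw']
        split_ifs with h
        · linarith [hge k h]
        · exact le_rfl
      have h2 : (univ.filter (fun k => 0 < w' k)).card < n := by
        rw [← hn]
        refine Finset.card_lt_card ⟨?_, ?_⟩
        · intro k hk
          rw [Finset.mem_filter] at hk ⊢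
          refine ⟨Finset.mem_univ _, ?_⟩
          by_contra h
          have h3 := hk.2
          simp only [hw', if_neg h] at h3
          exact lt_irrefl _ h3
        · intro h
          have h3 := h (Finset.mem_filter.2 ⟨Finset.mem_univ _, hm⟩)
          rw [Finset.mem_filter] at h3
          have h4 := h3.2
          simp only [hw', if_pos hm, sub_self] at h4
          exact lt_irrefl _ h4
      have h3 : ∀ t : ℝ, 0 < t → 0 ≤ ∑ k ∈ univ.filter (fun k => t ≤ w' k), c k := by
        intro t ht
        have h4 : univ.filter (fun k => t ≤ w' k) = univ.filter (fun k => t + w k0 ≤ w k) := by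
          refine Finset.filter_congr fun k _ => ?_
          simp only [hw']
          split_ifs with h
          · constructor <;> intro h5 <;> linarith
          · constructor
            · intro h5
              linarith
            · intro h5
              exact absurd (by linarith) h
        rw [h4]
        exact hc _ (by linarith)
      have h4 := ih _ h2 w' h1 rfl h3
      have h5 : ∑ k, c k * w k = ∑ k, c k * w' k +
          w k0 * ∑ k ∈ univ.filter (fun k => w k0 ≤ w k), c k := by
        rw [Finset.mul_sum, Finset.sum_filter, ← Finset.sum_add_distrib]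
        refine Finset.sum_congr rfl fun k _ => ?_
        simp only [hw']
        by_cases h : 0 < w k
        · rw [if_pos h, if_pos (hge k h)]
          ring
        · have h6 : w k = 0 := le_antisymm (not_lt.1 h) (hw k)
          rw [if_neg h, if_neg (by rw [h6]; linarith), h6]
          ring
      rw [h5]
      have h6 := hc _ hm
      have h7 := mul_nonneg hm.le h6
      linarith
    · rw [Finset.not_nonempty_iff_eq_empty] at hne
      refine (Finset.sum_eq_zero fun k _ => ?_).ge
      have h6 : w k = 0 := by
        by_contra h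
        have h7 : k ∈ univ.filter (fun k => 0 < w k) :=
          Finset.mem_filter.2 ⟨Finset.mem_univ _, lt_of_le_of_ne (hw k) (Ne.symm h)⟩
        rw [hne] at h7
        exact absurd h7 (Finset.notMem_empty _)
      rw [h6, mul_zero]

open scoped Classical in
/-- The greedy good set. -/
theorem exists_greedy (T : TypeGraph P Q κ) (w : κ → ℝ) (S : Finset κ) :
    ∃ B ⊆ S, GoodSet T B ∧
      ∀ e ∈ S, e ∉ B → ¬ GoodSet T (insert e (B.filter (fun k => w e ≤ w k))) := by
  refine Finset.induction_on_min_value w S ?_ ?_
  · refine ⟨∅, Finset.Subset.refl _, ?_, fun e he => absurd he (Finset.notMem_empty _)⟩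
    intro A hA
    rw [Finset.subset_empty.1 hA]
    simp
  · rintro a s ha hmin ⟨B, hBs, hB, hmax⟩
    by_cases hg : GoodSet T (insert a B)
    · refine ⟨insert a B, Finset.insert_subset_insert _ hBs, hg, ?_⟩
      intro e he heB hbad
      have h1 : e ∈ s := by
        rcases Finset.mem_insert.1 he with rfl | h1
        · exact absurd (Finset.mem_insert_self _ _) heB
        · exact h1
      refine hmax e h1 (fun h2 => heB (Finset.mem_insert_of_mem h2)) (hbad.mono ?_)
      exact Finset.insert_subset_insert _
        (Finset.filter_subset_filter _ (Finset.subset_insert _ _))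
    · refine ⟨B, hBs.trans (Finset.subset_insert _ _), hB, ?_⟩
      intro e he heB hbad
      rcases Finset.mem_insert.1 he with rfl | h1
      · refine hg (hbad.mono (Finset.insert_subset_insert _ ?_))
        intro k hk
        rw [Finset.mem_filter]
        exact ⟨hk, hmin k (hBs hk)⟩
      · exact hmax e h1 heB hbad

end

theorem exists_pseudo {P Q κ : Type} [Fintype κ] (T : TypeGraph P Q κ) (θ : ℝ) (hθ1 : θ ≤ 1)
    (h : ∀ F : Finset κ, θ * (F.card : ℝ) ≤ (T.verts F : ℝ)) (w : κ → ℝ) (hw : ∀ k, 0 ≤ w k) :
    ∃ (F : Finset κ) (f : κ → P ⊕ Q),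
      (∀ k ∈ F, f k = Sum.inl (T.src k) ∨ f k = Sum.inr (T.dst k)) ∧
      Set.InjOn f (F : Set κ) ∧ θ * ∑ k, w k ≤ ∑ k ∈ F, w k := by
  classical
  obtain ⟨B, -, hB, hmax⟩ := exists_greedy T w (univ : Finset κ)
  have hHall : ∀ s : Finset {k // k ∈ B}, s.card ≤ (s.biUnion (fun k => T.ends k.1)).card := by
    intro s
    have h1 := hB (s.image Subtype.val) (by
      intro x hx
      rw [Finset.mem_image] at hx
      obtain ⟨y, -, rfl⟩ := hx
      exact y.2)
    rw [Finset.card_image_of_injective _ Subtype.val_injective] at h1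
    unfold TypeGraph.vset at h1
    rw [Finset.image_biUnion] at h1
    exact h1
  obtain ⟨g, hginj, hg⟩ := (Finset.all_card_le_biUnion_card_iff_exists_injective
    (fun k : {k // k ∈ B} => T.ends k.1)).1 hHall
  refine ⟨B, fun k => if hk : k ∈ B then g ⟨k, hk⟩ else Sum.inl (T.src k), ?_, ?_, ?_⟩
  · intro k hk
    have h1 := hg ⟨k, hk⟩
    unfold TypeGraph.ends at h1
    rw [Finset.mem_insert, Finset.mem_singleton] at h1
    simp only [dif_pos hk]
    exact h1
  · intro k hk k' hk' hkk
    have hk1 : k ∈ B := hk
    have hk1' : k' ∈ B := hk'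
    simp only [dif_pos hk1, dif_pos hk1'] at hkk
    have h1 := hginj hkk
    exact congrArg Subtype.val h1
  · have h1 : 0 ≤ ∑ k, ((if k ∈ B then (1 : ℝ) else 0) - θ) * w k := by
      refine level_sum (fun k => (if k ∈ B then (1 : ℝ) else 0) - θ) _ w hw rfl ?_
      intro t _
      have h2 : θ * ((univ.filter (fun k => t ≤ w k)).card : ℝ) ≤
          ((B.filter (fun k => t ≤ w k)).card : ℝ) := by
        refine card_maximal hθ1 h (hB.mono (Finset.filter_subset _ _))
          (Finset.filter_subset_filter _ (Finset.subset_univ _)) ?_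
        intro e he heB hbad
        rw [Finset.mem_filter] at he
        have heB' : e ∉ B := fun h3 => heB (Finset.mem_filter.2 ⟨h3, he.2⟩)
        refine hmax e (Finset.mem_univ _) heB' (hbad.mono (Finset.insert_subset_insert _ ?_))
        intro k hk
        rw [Finset.mem_filter] at hk ⊢
        exact ⟨hk.1, he.2.trans hk.2⟩
      rw [Finset.sum_sub_distrib, Finset.sum_const, nsmul_eq_mul, Finset.sum_boole,
        Finset.filter_filter]
      have h3 : (univ.filter (fun k => t ≤ w k ∧ k ∈ B)).card =
          (B.filter (fun k => t ≤ w k)).card := by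
        congr 1
        ext k
        simp only [Finset.mem_filter, Finset.mem_univ, true_and]
        tauto
      rw [h3]
      linarith
    have h2 : ∑ k, ((if k ∈ B then (1 : ℝ) else 0) - θ) * w k =
        ∑ k ∈ B, w k - θ * ∑ k, w k := by
      simp only [sub_mul, Finset.sum_sub_distrib, ite_mul, one_mul, zero_mul,
        Finset.sum_ite_mem, Finset.univ_inter, Finset.mul_sum]
    linarith

end Pool.Agent.P325t
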