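import Pool.Agent.Lib.P325t.WDefs
import Pool.Agent.Lib.P325t.Pseudo

/-!
# The weighted rank bound with a dual certificate

`m` is feasible if `0 ≤ m k ≤ 1` and `m(F) ≤ |V(F)|` for all sets `F` of edges.  If the largest weight of
a sparse set is less than the total weight then there are a nonempty set `C` of edges and `l > 0` such
that `∑ w k m k + l (|V(C)| - m(C)) ≤ maxWeight w` for all feasible `m`.

Proof.  Let `B` be the greedy sparse set for the weight `w`, `F_t = {k : t ≤ w k}` and `B_t = B ∩ F_t`. There is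
a tight set `A_t ⊆ B_t` (`|V(A_t)| = |A_t|`) which contains the ends of the edges in `F_t \ B_t` in `V(A_t)`. With
`C_t = A_t ∪ (F_t \ B_t)` we have `|V(C_t)| = |A_t|` and
`m(F_t) + (|V(C_t)| - m(C_t)) = m(B_t \ A_t) + |A_t| ≤ |B_t|`. Summation over `t ≥ 1` gives `∑ w k m k` on the left
and `w(B)` on the right. As `w(B) ≤ maxWeight w < ∑ w k` there is `t` with `B_t ≠ F_t`; take `C = C_t`, `l = 1`.
-/

open Finset

namespace Pool.Agent.P325t

section

variable {P Q κ : Type}

theorem Sparse.good {T : TypeGraph P Q κ} {F : Finset κ} (h : T.Sparse F) : GoodSet T F := by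
  intro A hA
  rw [card_vset]
  exact h A hA

theorem GoodSet.sparse {T : TypeGraph P Q κ} {F : Finset κ} (h : GoodSet T F) : T.Sparse F := by
  intro A hA
  rw [← card_vset]
  exact h A hA

open scoped Classical in
/-- The tight set of a maximal good set. -/
theorem exists_tight {T : TypeGraph P Q κ} {B S : Finset κ} (hB : GoodSet T B)
    (hmax : ∀ e ∈ S, e ∉ B → ¬ GoodSet T (insert e B)) :
    ∃ A ⊆ B, (T.vset A).card = A.card ∧ T.vset (A ∪ (S \ B)) ⊆ T.vset A := by
  have htight : ∀ e ∈ S, e ∉ B → ∃ A ⊆ B, (T.vset A).card = A.card ∧ T.ends e ⊆ T.vset A := by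
    intro e he heB
    have h1 := hmax e he heB
    unfold GoodSet at h1
    push Not at h1
    obtain ⟨A, hA, hlt⟩ := h1
    have heA : e ∈ A := by
      by_contra hne
      have h2 : A ⊆ B := by
        intro x hx
        rcases Finset.mem_insert.1 (hA hx) with rfl | h3
        · exact absurd hx hne
        · exact h3
      exact absurd (hB A h2) (not_le.2 hlt)
    have h2 : A.erase e ⊆ B := by
      intro x hx
      rw [Finset.mem_erase] at hx
      rcases Finset.mem_insert.1 (hA hx.2) with h3 | h3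
      · exact absurd h3 hx.1
      · exact h3
    have h3 := hB _ h2
    have h4 := Finset.card_erase_of_mem heA
    have h5 : 0 < A.card := Finset.card_pos.2 ⟨e, heA⟩
    have h6 : T.vset (A.erase e) ⊆ T.vset A := vset_mono T (Finset.erase_subset _ _)
    have h7 := Finset.card_le_card h6
    refine ⟨A.erase e, h2, by omega, ?_⟩
    have h8 : T.vset (A.erase e) = T.vset A := Finset.eq_of_subset_of_card_le h6 (by omega)
    rw [h8]
    unfold TypeGraph.vset
    exact Finset.subset_biUnion_of_mem T.ends heA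
  obtain ⟨A, hA, hAmax⟩ := Finset.exists_max_image
    (B.powerset.filter (fun A => (T.vset A).card = A.card)) (fun A => A.card)
    ⟨∅, by
      rw [Finset.mem_filter, Finset.mem_powerset]
      exact ⟨Finset.empty_subset _, by simp [TypeGraph.vset]⟩⟩
  rw [Finset.mem_filter, Finset.mem_powerset] at hA
  have hsub : ∀ A' ⊆ B, (T.vset A').card = A'.card → A' ⊆ A := by
    intro A' h1 h2
    have h3 := tight_union hB hA.1 h1 hA.2 h2
    have h4 := hAmax (A ∪ A') (by
      rw [Finset.mem_filter, Finset.mem_powerset]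
      exact ⟨Finset.union_subset hA.1 h1, h3⟩)
    have h5 : A = A ∪ A' := Finset.eq_of_subset_of_card_le Finset.subset_union_left h4
    rw [h5]
    exact Finset.subset_union_right
  refine ⟨A, hA.1, hA.2, ?_⟩
  intro v hv
  unfold TypeGraph.vset at hv
  rw [Finset.mem_biUnion] at hv
  obtain ⟨k, hk, hv⟩ := hv
  rcases Finset.mem_union.1 hk with h1 | h1
  · unfold TypeGraph.vset
    exact Finset.mem_biUnion.2 ⟨k, h1, hv⟩
  · rw [Finset.mem_sdiff] at h1
    obtain ⟨A', h2, h3, h4⟩ := htight k h1.1 h1.2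
    exact vset_mono T (hsub A' h2 h3) (h4 hv)

/-- Sum over the levels of an integral weight. -/
theorem sum_levels [Fintype κ] (w : κ → ℕ) (N : ℕ) (hN : ∀ k, w k ≤ N) (m : κ → ℝ)
    (S : Finset κ) :
    ∑ k ∈ S, (w k : ℝ) * m k = ∑ t ∈ Icc 1 N, ∑ k ∈ S.filter (fun k => t ≤ w k), m k := by
  classical
  have h1 : ∀ k, (w k : ℝ) * m k = ∑ t ∈ Icc 1 N, if t ≤ w k then m k else 0 := by
    intro k
    rw [← Finset.sum_filter, Finset.sum_const, nsmul_eq_mul]
    congr 2
    have h2 : (Icc 1 N).filter (fun t => t ≤ w k) = Icc 1 (w k) := by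
      ext t
      have := hN k
      simp only [Finset.mem_filter, Finset.mem_Icc]
      omega
    rw [h2, Nat.card_Icc, Nat.add_sub_cancel]
  rw [Finset.sum_congr rfl fun k _ => h1 k, Finset.sum_comm]
  refine Finset.sum_congr rfl fun t _ => ?_
  rw [Finset.sum_filter]

theorem sum_le_maxWeight [Fintype κ] (T : TypeGraph P Q κ) (w : κ → ℕ) {F : Finset κ}
    (hF : T.Sparse F) : ∑ k ∈ F, w k ≤ T.maxWeight w := by
  classical
  unfold TypeGraph.maxWeight
  exact Finset.le_sup (f := fun F : Finset κ => ∑ k ∈ F, w k)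
    (Finset.mem_filter.2 ⟨Finset.mem_univ _, hF⟩)

end

theorem dual_certificate {P Q κ : Type} [Fintype κ] (T : TypeGraph P Q κ) (w : κ → ℕ)
    (h : T.maxWeight w < ∑ k, w k) :
    ∃ (C : Finset κ) (l : ℝ), C.Nonempty ∧ 0 < l ∧
      ∀ m : κ → ℝ, (∀ k, 0 ≤ m k) → (∀ k, m k ≤ 1) →
        (∀ F : Finset κ, ∑ k ∈ F, m k ≤ (T.verts F : ℝ)) →
        ∑ k, (w k : ℝ) * m k + l * ((T.verts C : ℝ) - ∑ k ∈ C, m k) ≤ (T.maxWeight w : ℝ) := by
  classical
  obtain ⟨B, -, hB, hmax⟩ := exists_greedy T (fun k => (w k : ℝ)) (univ : Finset κ)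
  have hBw := sum_le_maxWeight T w hB.sparse
  set N : ℕ := univ.sup w with hN
  have hwN : ∀ k, w k ≤ N := fun k => Finset.le_sup (Finset.mem_univ k)
  set Ft : ℕ → Finset κ := fun t => univ.filter (fun k => t ≤ w k) with hFt
  set Bt : ℕ → Finset κ := fun t => B.filter (fun k => t ≤ w k) with hBt
  have hBF : ∀ t, Bt t ⊆ Ft t := fun t => Finset.filter_subset_filter _ (Finset.subset_univ _)
  have hstruct : ∀ t, ∃ A ⊆ Bt t, (T.vset A).card = A.card ∧
      T.vset (A ∪ (Ft t \ Bt t)) ⊆ T.vset A := by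
    intro t
    refine exists_tight (hB.mono (Finset.filter_subset _ _)) ?_
    intro e he heB hbad
    rw [hFt, Finset.mem_filter] at he
    have heB' : e ∉ B := fun h3 => heB (Finset.mem_filter.2 ⟨h3, he.2⟩)
    refine hmax e (Finset.mem_univ _) heB' (hbad.mono (Finset.insert_subset_insert _ ?_))
    intro k hk
    rw [Finset.mem_filter] at hk ⊢
    refine ⟨hk.1, ?_⟩
    have h1 : (w e : ℝ) ≤ (w k : ℝ) := hk.2
    have h2 : w e ≤ w k := by exact_mod_cast h1
    exact he.2.trans h2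
  choose A hA1 hA2 hA3 using hstruct
  set C : ℕ → Finset κ := fun t => A t ∪ (Ft t \ Bt t) with hC
  -- the inequality of one level
  have hlevel : ∀ t, ∀ m : κ → ℝ, (∀ k, 0 ≤ m k) → (∀ k, m k ≤ 1) →
      ∑ k ∈ Ft t, m k + ((T.verts (C t) : ℝ) - ∑ k ∈ C t, m k) ≤ ((Bt t).card : ℝ) := by
    intro t m hm0 hm1
    have h1 : (T.verts (C t) : ℝ) ≤ ((A t).card : ℝ) := by
      rw [← card_vset, ← hA2 t]
      exact_mod_cast Finset.card_le_card (hA3 t)
    have hCF : C t ⊆ Ft t := Finset.union_subset ((hA1 t).trans (hBF t)) Finset.sdiff_subset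
    have h2 : ∑ k ∈ Ft t, m k = ∑ k ∈ Ft t \ C t, m k + ∑ k ∈ C t, m k :=
      (Finset.sum_sdiff hCF).symm
    have h3 : Ft t \ C t ⊆ Bt t \ A t := by
      intro k hk
      rw [Finset.mem_sdiff] at hk ⊢
      rw [hC, Finset.mem_union, Finset.mem_sdiff] at hk
      push Not at hk
      exact ⟨hk.2.2 hk.1, hk.2.1⟩
    have h4 : ∑ k ∈ Ft t \ C t, m k ≤ ((Bt t \ A t).card : ℝ) := by
      calc ∑ k ∈ Ft t \ C t, m k ≤ ∑ k ∈ Bt t \ A t, m k :=
            Finset.sum_le_sum_of_subset_of_nonneg h3 fun k _ _ => hm0 k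
        _ ≤ ∑ _k ∈ Bt t \ A t, (1 : ℝ) := Finset.sum_le_sum fun k _ => hm1 k
        _ = ((Bt t \ A t).card : ℝ) := by rw [Finset.sum_const, nsmul_eq_mul, mul_one]
    have h5 : ((Bt t \ A t).card : ℝ) = ((Bt t).card : ℝ) - ((A t).card : ℝ) := by
      rw [Finset.card_sdiff_of_subset (hA1 t), Nat.cast_sub (Finset.card_le_card (hA1 t))]
    rw [h2]
    linarith
  -- a level which is not contained in `B`
  have hBsum : (∑ k ∈ B, w k : ℕ) = ∑ t ∈ Icc 1 N, (Bt t).card := by
    have h1 := sum_levels w N hwN (fun _ => 1) B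
    simp only [mul_one, Finset.sum_const, nsmul_eq_mul] at h1
    have h2 : ((∑ k ∈ B, w k : ℕ) : ℝ) = ((∑ t ∈ Icc 1 N, (Bt t).card : ℕ) : ℝ) := by
      push_cast
      exact h1
    exact_mod_cast h2
  have hFsum : (∑ k, w k : ℕ) = ∑ t ∈ Icc 1 N, (Ft t).card := by
    have h1 := sum_levels w N hwN (fun _ => 1) univ
    simp only [mul_one, Finset.sum_const, nsmul_eq_mul] at h1
    have h2 : ((∑ k, w k : ℕ) : ℝ) = ((∑ t ∈ Icc 1 N, (Ft t).card : ℕ) : ℝ) := by
      push_cast
      exact h1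
    exact_mod_cast h2
  obtain ⟨t, ht, hlt⟩ : ∃ t ∈ Icc 1 N, (Bt t).card < (Ft t).card := by
    by_contra hcon
    push Not at hcon
    have := Finset.sum_le_sum hcon
    omega
  refine ⟨C t, 1, ?_, one_pos, ?_⟩
  · have h1 : (Ft t \ Bt t).Nonempty := by
      rw [Finset.nonempty_iff_ne_empty]
      intro h2
      rw [Finset.sdiff_eq_empty_iff_subset] at h2
      exact absurd (Finset.card_le_card h2) (not_le.2 hlt)
    exact h1.mono Finset.subset_union_right
  · intro m hm0 hm1 hm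
    rw [one_mul, sum_levels w N hwN m univ]
    have h1 : ∀ s, ∑ k ∈ Ft s, m k ≤ ((Bt s).card : ℝ) := by
      intro s
      have h2 := hlevel s m hm0 hm1
      have h3 := hm (C s)
      linarith
    have h2 : ∑ s ∈ Icc 1 N, ∑ k ∈ Ft s, m k + ((T.verts (C t) : ℝ) - ∑ k ∈ C t, m k) ≤
        ∑ s ∈ Icc 1 N, ((Bt s).card : ℝ) := by
      rw [← Finset.add_sum_erase _ _ ht, ← Finset.add_sum_erase (Icc 1 N) (fun s => ((Bt s).card : ℝ)) ht]
      have h3 := hlevel t m hm0 hm1
      have h4 : ∑ s ∈ (Icc 1 N).erase t, ∑ k ∈ Ft s, m k ≤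
          ∑ s ∈ (Icc 1 N).erase t, ((Bt s).card : ℝ) := Finset.sum_le_sum fun s _ => h1 s
      linarith
    refine h2.trans ?_
    have h5 : (∑ s ∈ Icc 1 N, ((Bt s).card : ℝ)) = ((∑ k ∈ B, w k : ℕ) : ℝ) := by
      rw [hBsum]
      push_cast
      rfl
    rw [h5]
    exact_mod_cast hBw

/-- A sparse set has an injective choice of ends (Hall). -/
theorem Sparse.exists_owner {P Q κ : Type} [Fintype κ] {T : TypeGraph P Q κ} {F : Finset κ}
    (h : T.Sparse F) : ∃ f : κ → P ⊕ Q,
      (∀ k ∈ F, f k = Sum.inl (T.src k) ∨ f k = Sum.inr (T.dst k)) ∧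
      Set.InjOn f (F : Set κ) := by
  classical
  have hB : GoodSet T F := Sparse.good h
  have hHall : ∀ s : Finset {k // k ∈ F}, s.card ≤ (s.biUnion (fun k => T.ends k.1)).card := by
    intro s
    have h1 := hB (s.image Subtype.val) (by
      intro x hx
      rw [Finset.mem_image] at hx
      obtain ⟨y, -, rfl⟩ := hx
      exact y.2)
    rw [Finset.card_image_of_injective _ Subtype.val_injective] at h1
    unfold TypeGraph.vset at h1
    rw [Finset.image_biUnion] at h1
    exact h1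
  obtain ⟨g, hginj, hg⟩ := (Finset.all_card_le_biUnion_card_iff_exists_injective
    (fun k : {k // k ∈ F} => T.ends k.1)).1 hHall
  refine ⟨fun k => if hk : k ∈ F then g ⟨k, hk⟩ else Sum.inl (T.src k), ?_, ?_⟩
  · intro k hk
    have h1 := hg ⟨k, hk⟩
    unfold TypeGraph.ends at h1
    rw [Finset.mem_insert, Finset.mem_singleton] at h1
    simp only [dif_pos hk]
    exact h1
  · intro k hk k' hk' hkk
    have hk1 : k ∈ F := hk
    have hk1' : k' ∈ F := hk'
    simp only [dif_pos hk1, dif_pos hk1'] at hkk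
    have h1 := hginj hkk
    exact congrArg Subtype.val h1

/-- The maximum is attained. -/
theorem exists_sparse {P Q κ : Type} [Fintype κ] (T : TypeGraph P Q κ) (w : κ → ℕ) :
    ∃ F : Finset κ, T.Sparse F ∧ ∑ k ∈ F, w k = T.maxWeight w := by
  classical
  have hne : (univ.filter (fun F : Finset κ => T.Sparse F)).Nonempty := by
    refine ⟨∅, Finset.mem_filter.2 ⟨Finset.mem_univ _, ?_⟩⟩
    intro F hF
    rw [Finset.subset_empty.1 hF]
    simp
  obtain ⟨F, hF, hF2⟩ := Finset.exists_mem_eq_sup _ hne (fun F : Finset κ => ∑ k ∈ F, w k)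
  refine ⟨F, (Finset.mem_filter.1 hF).2, ?_⟩
  unfold TypeGraph.maxWeight
  rw [← hF2]

end Pool.Agent.P325t
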