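import Pool.Agent.Lib.P325t.Defs

/-!
# Gauge of a pseudoforest of permutations (helper90)

If every edge `k ∈ F` owns one of its ends, injectively, then the vertices can be relabelled so that in
every component all edges carry the identity or one fixed permutation.

Proof.  Functional graph: a vertex `v` owned by the edge `k` points to the other end of `k`.  Choose one
vertex `r` on every cycle.  Every vertex reaches, after finitely many steps, a chosen vertex or a
vertex that is not owned; this end vertex is `comp v`, and `g v` is the product of the permutations along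
the way, so the edge owning `v` becomes the identity unless `v` is chosen; for a chosen `r` the edge
owning it becomes `τ r`.  (Or induction on `|F|`, or any other proof.)
-/

open Finset

namespace Pool.Agent.P325t

/-- The inductive form: vertices that are not owned lie in distinct components whose fixed
permutation is the identity. -/
theorem gauge_aux {V κ Ω : Type} (s t : κ → V) (hst : ∀ k, s k ≠ t k) (σ : κ → Equiv.Perm Ω)
    (f : κ → V) (F : Finset κ) : (∀ k ∈ F, f k = s k ∨ f k = t k) → Set.InjOn f (F : Set κ) →
    ∃ (comp : V → V) (g : V → Equiv.Perm Ω) (τ : V → Equiv.Perm Ω),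
      (∀ k ∈ F, comp (s k) = comp (t k) ∧
        ((g (t k))⁻¹ * σ k * g (s k) = 1 ∨ (g (t k))⁻¹ * σ k * g (s k) = τ (comp (s k)))) ∧
      (∀ v w, (∀ k ∈ F, f k ≠ v) → (∀ k ∈ F, f k ≠ w) → comp v = comp w → v = w) ∧
      (∀ v, (∀ k ∈ F, f k ≠ v) → τ (comp v) = 1) := by
  classical
  induction F using Finset.induction_on with
  | empty =>
    intro _ _
    exact ⟨id, fun _ => 1, fun _ => 1, by simp, by simp, by simp⟩
  | insert k0 F hk0 ih =>
    intro hf hinj
    have hinj' : Set.InjOn f (F : Set κ) :=
      hinj.mono (by simp [Set.subset_insert])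
    obtain ⟨comp, g, τ, h1, h2, h3⟩ := ih (fun k hk => hf k (mem_insert_of_mem hk)) hinj'
    -- the vertex owned by the new edge
    have hv : ∀ k ∈ F, f k ≠ f k0 := by
      intro k hk h
      have := hinj (mem_coe.2 (mem_insert_of_mem hk)) (mem_coe.2 (mem_insert_self k0 F)) h
      exact hk0 (this ▸ hk)
    have hnew : ∀ v, (∀ k ∈ insert k0 F, f k ≠ v) → (∀ k ∈ F, f k ≠ v) ∧ f k0 ≠ v :=
      fun v h => ⟨fun k hk => h k (mem_insert_of_mem hk), h k0 (mem_insert_self _ _)⟩
    -- a vertex which is still free does not lie in the component of the new owned vertex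
    have hsep : ∀ v, (∀ k ∈ insert k0 F, f k ≠ v) → comp v ≠ comp (f k0) := by
      intro v h hc
      exact (hnew v h).2 (h2 v (f k0) (hnew v h).1 hv hc).symm
    have hval : ∀ k ∈ F, comp (s k) = comp (f k0) → (g (t k))⁻¹ * σ k * g (s k) = 1 := by
      intro k hk hc
      rcases (h1 k hk).2 with h | h
      · exact h
      · rw [h, hc, h3 _ hv]
    by_cases hc : comp (s k0) = comp (t k0)
    · -- the new edge closes a cycle
      have hc0 : comp (f k0) = comp (s k0) := by
        rcases hf k0 (mem_insert_self _ _) with h | h <;> rw [h]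
        exact hc.symm
      refine ⟨comp, g, Function.update τ (comp (s k0)) ((g (t k0))⁻¹ * σ k0 * g (s k0)), ?_, ?_, ?_⟩
      · intro k hk
        rcases mem_insert.1 hk with rfl | hk
        · exact ⟨hc, Or.inr (by rw [Function.update_self])⟩
        · refine ⟨(h1 k hk).1, ?_⟩
          by_cases hck : comp (s k) = comp (f k0)
          · exact Or.inl (hval k hk hck)
          · rw [Function.update_of_ne (by rw [← hc0]; exact hck)]
            exact (h1 k hk).2
      · intro v w hv' hw' hvw
        exact h2 v w (hnew v hv').1 (hnew w hw').1 hvw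
      · intro v hv'
        rw [Function.update_of_ne (by rw [← hc0]; exact hsep v hv')]
        exact h3 v (hnew v hv').1
    · -- the new edge joins two components
      -- correction of the labels
      obtain ⟨h, hh⟩ : ∃ h : Equiv.Perm Ω,
          (f k0 = s k0 → (g (t k0))⁻¹ * σ k0 * (g (s k0) * h) = 1) ∧
          (f k0 = t k0 → (g (t k0) * h)⁻¹ * σ k0 * g (s k0) = 1) := by
        rcases hf k0 (mem_insert_self _ _) with h | h
        · refine ⟨(g (s k0))⁻¹ * (σ k0)⁻¹ * g (t k0), fun _ => by group, fun h' => ?_⟩
          exact absurd (h.symm.trans h') (hst k0)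
        · refine ⟨(g (t k0))⁻¹ * σ k0 * g (s k0), fun h' => ?_, fun _ => by group⟩
          exact absurd (h'.symm.trans h) (hst k0)
      -- the other end
      obtain ⟨u, hu⟩ : ∃ u, (f k0 = s k0 → u = t k0) ∧ (f k0 = t k0 → u = s k0) := by
        rcases hf k0 (mem_insert_self _ _) with h | h
        · exact ⟨t k0, fun _ => rfl, fun h' => absurd (h.symm.trans h') (hst k0)⟩
        · exact ⟨s k0, fun h' => absurd (h'.symm.trans h) (hst k0), fun _ => rfl⟩
      have huv : comp u ≠ comp (f k0) := by
        rcases hf k0 (mem_insert_self _ _) with h' | h'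
        · rw [hu.1 h', h']; exact fun h'' => hc h''.symm
        · rw [hu.2 h', h']; exact hc
      refine ⟨fun w => if comp w = comp (f k0) then comp u else comp w,
        fun w => if comp w = comp (f k0) then g w * h else g w, τ, ?_, ?_, ?_⟩
      · intro k hk
        rcases mem_insert.1 hk with rfl | hk
        · rcases hf k (mem_insert_self _ _) with h' | h'
          · have e1 : comp (t k) ≠ comp (s k) := fun h'' => hc h''.symm
            have e2 := hu.1 h'
            subst e2
            simp only [h', if_true, if_neg e1, true_and]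
            exact Or.inl (hh.1 h')
          · have e2 := hu.2 h'
            subst e2
            simp only [h', if_true, if_neg hc, true_and]
            exact Or.inl (hh.2 h')
        · have e := (h1 k hk).1
          by_cases hck : comp (s k) = comp (f k0)
          · have hck' : comp (t k) = comp (f k0) := e ▸ hck
            simp only [if_pos hck, if_pos hck', true_and]
            left
            have := hval k hk hck
            calc (g (t k) * h)⁻¹ * σ k * (g (s k) * h)
                = h⁻¹ * ((g (t k))⁻¹ * σ k * g (s k)) * h := by group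
              _ = 1 := by rw [this]; group
          · have hck' : comp (t k) ≠ comp (f k0) := fun h' => hck (e.trans h')
            simp only [if_neg hck, if_neg hck']
            exact h1 k hk
      · intro v w hv' hw' hvw
        simp only [if_neg (hsep v hv'), if_neg (hsep w hw')] at hvw
        exact h2 v w (hnew v hv').1 (hnew w hw').1 hvw
      · intro v hv'
        simp only [if_neg (hsep v hv')]
        exact h3 v (hnew v hv').1

theorem exists_gauge {P Q κ Ω : Type} (T : TypeGraph P Q κ) (F : Finset κ)
    (f : κ → P ⊕ Q) (hf : ∀ k ∈ F, f k = Sum.inl (T.src k) ∨ f k = Sum.inr (T.dst k))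
    (hinj : Set.InjOn f (F : Set κ)) (σ : κ → Equiv.Perm Ω) :
    ∃ (comp : P ⊕ Q → P ⊕ Q) (g : P ⊕ Q → Equiv.Perm Ω) (τ : P ⊕ Q → Equiv.Perm Ω),
      ∀ k ∈ F, comp (Sum.inl (T.src k)) = comp (Sum.inr (T.dst k)) ∧
        ((g (Sum.inr (T.dst k)))⁻¹ * σ k * g (Sum.inl (T.src k)) = 1 ∨
          (g (Sum.inr (T.dst k)))⁻¹ * σ k * g (Sum.inl (T.src k)) =
            τ (comp (Sum.inl (T.src k)))) := by
  obtain ⟨comp, g, τ, h, -, -⟩ := gauge_aux (V := P ⊕ Q) (fun k => Sum.inl (T.src k))
    (fun k => Sum.inr (T.dst k)) (fun k => by simp) σ f F hf hinj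
  exact ⟨comp, g, τ, h⟩

end Pool.Agent.P325t
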