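import Pool.Agent.Lib.P325t.Pseudo
import Pool.Agent.Lib.P325t.Gauge
import Pool.Agent.Lib.P325f1f.Amen.Easy

/-!
# The easy side: semidefinite value close to one forces the value up to the threshold
-/

open Finset
open scoped BigOperators

namespace Pool.Agent.P325t

open Pool.Agent.P325f1f.Dich Pool.Agent.P325f1f.Amen

/-- The generators `1`, `z` of the infinite cyclic group. -/
def gens : Fin 2 → Multiplicative ℤ := ![1, Multiplicative.ofAdd 1]

theorem folner_gens : Folner gens := by
  classical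
  intro η hη
  obtain ⟨N, hN⟩ := exists_nat_gt (1 / η)
  have hN0 : (0 : ℝ) < N := lt_trans (by positivity) hN
  have hN1 : 0 < N := by exact_mod_cast hN0
  set F : Finset (Multiplicative ℤ) := (Finset.range N).image
    (fun n : ℕ => Multiplicative.ofAdd (n : ℤ)) with hF
  have hinj : Function.Injective (fun n : ℕ => Multiplicative.ofAdd (n : ℤ)) := by
    intro a b hab
    have h1 : (a : ℤ) = b := Multiplicative.ofAdd.injective hab
    exact_mod_cast h1
  have hcard : F.card = N := by
    rw [hF, Finset.card_image_of_injective _ hinj, Finset.card_range]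
  refine ⟨F, ⟨Multiplicative.ofAdd 0, ?_⟩, ?_⟩
  · rw [hF, Finset.mem_image]
    exact ⟨0, Finset.mem_range.2 hN1, by simp⟩
  · intro k
    rw [hcard]
    have hsub : ((Finset.range (N - 1)).image (fun n : ℕ => Multiplicative.ofAdd (n : ℤ))) ⊆
        F.filter (fun g => gens k * g ∈ F) := by
      intro g hg
      rw [Finset.mem_image] at hg
      obtain ⟨n, hn, rfl⟩ := hg
      rw [Finset.mem_range] at hn
      rw [Finset.mem_filter]
      refine ⟨?_, ?_⟩
      · rw [hF, Finset.mem_image]
        exact ⟨n, Finset.mem_range.2 (by omega), rfl⟩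
      · rw [hF, Finset.mem_image]
        fin_cases k
        · exact ⟨n, Finset.mem_range.2 (by omega), by simp [gens]⟩
        · refine ⟨n + 1, Finset.mem_range.2 (by omega), ?_⟩
          show Multiplicative.ofAdd (((n + 1 : ℕ) : ℤ)) =
            Multiplicative.ofAdd (1 : ℤ) * Multiplicative.ofAdd (n : ℤ)
          rw [← ofAdd_add]
          congr 1
          push_cast
          ring
    have h1 := Finset.card_le_card hsub
    rw [Finset.card_image_of_injective _ hinj, Finset.card_range] at h1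
    have h2 : ((N - 1 : ℕ) : ℝ) ≤ ((F.filter (fun g => gens k * g ∈ F)).card : ℝ) := by
      exact_mod_cast h1
    have h3 : ((N - 1 : ℕ) : ℝ) = (N : ℝ) - 1 := by
      push_cast [Nat.cast_sub hN1]
      ring
    have h4 : 1 < η * N := by
      rw [div_lt_iff₀ hη] at hN
      linarith
    have h5 : (1 - η) * (N : ℝ) ≤ ((F.filter (fun g => gens k * g ∈ F)).card : ℝ) := by
      refine le_trans ?_ h2
      rw [h3]
      linarith
    convert h5

/-- Games with the constraints `1`, `τ`. -/
theorem two_perms (a : ℝ) (ha : 0 < a) :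
    ∃ ε : ℝ, 0 < ε ∧ ∀ (Ω : Type) [Fintype Ω] [Nonempty Ω] (U W ι : Type)
      [Fintype ι] [Nonempty ι] (I : Game U W Ω ι) (τ : Equiv.Perm Ω),
      (∀ e, I.perm e = 1 ∨ I.perm e = τ) →
      ∀ (D : ℕ) (x : U → Ω → Fin D → ℝ) (y : W → Ω → Fin D → ℝ), (∀ u, IsSys (x u)) →
        (∀ w, IsSys (y w)) →
        1 - ε ≤ (𝔼 e, ∑ ω, ∑ i, x (I.src e) ω i * y (I.dst e) (I.perm e ω) i) →
        ∃ (p : U → Ω) (q : W → Ω), 1 - a ≤ I.satFrac p q := by
  obtain ⟨ε, hε, h⟩ := easy gens folner_gens (a / 2) (by positivity)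
  refine ⟨ε, hε, ?_⟩
  intro Ω _ _ U W ι _ _ I τ hI D x y hx hy hobj
  let _ : MulAction (Multiplicative ℤ) Ω :=
    MulAction.compHom Ω (zpowersHom (Equiv.Perm Ω) τ)
  have h1 : ∀ e, ∃ k, I.perm e = MulAction.toPerm (gens k) := by
    intro e
    rcases hI e with he | he
    · refine ⟨0, ?_⟩
      rw [he]
      ext ω
      show ω = (1 : Multiplicative ℤ) • ω
      rw [one_smul]
    · refine ⟨1, ?_⟩
      rw [he]
      ext ω
      show τ ω = (zpowersHom (Equiv.Perm Ω) τ (Multiplicative.ofAdd 1)) ω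
      rw [zpowersHom_apply]
      simp
  have h2 := h Ω U W ι I h1 D x y hx hy hobj
  have hne : Nonempty ((U → Ω) × (W → Ω)) :=
    ⟨(fun _ => Classical.arbitrary Ω, fun _ => Classical.arbitrary Ω)⟩
  have h3 : 1 - a < I.value := by linarith
  obtain ⟨p, hp⟩ := exists_lt_of_lt_ciSup h3
  exact ⟨p.1, p.2, hp.le⟩

/-- The contribution of an edge to the semidefinite objective. -/
noncomputable def contrib {U W Ω ι : Type} [Fintype Ω] {D : ℕ} (I : Game U W Ω ι)
    (x : U → Ω → Fin D → ℝ) (y : W → Ω → Fin D → ℝ) (e : ι) : ℝ :=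
  ∑ ω, ∑ i, x (I.src e) ω i * y (I.dst e) (I.perm e ω) i

theorem contrib_le {U W Ω ι : Type} [Fintype Ω] {D : ℕ} (I : Game U W Ω ι)
    (x : U → Ω → Fin D → ℝ) (y : W → Ω → Fin D → ℝ) (hx : ∀ u, IsSys (x u))
    (hy : ∀ w, IsSys (y w)) (e : ι) : contrib I x y e ≤ 1 := by
  have h1 : ∀ ω, ∑ i, x (I.src e) ω i * y (I.dst e) (I.perm e ω) i ≤
      (nsq (x (I.src e) ω) + nsq (y (I.dst e) (I.perm e ω))) / 2 := by
    intro ω
    rw [nsq, nsq, ← Finset.sum_add_distrib, Finset.sum_div]
    refine Finset.sum_le_sum (fun i _ => ?_)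
    nlinarith [sq_nonneg (x (I.src e) ω i - y (I.dst e) (I.perm e ω) i)]
  unfold contrib
  refine (Finset.sum_le_sum (fun ω _ => h1 ω)).trans ?_
  rw [← Finset.sum_div, Finset.sum_add_distrib, (hx _).2,
    Equiv.sum_comp (I.perm e) (fun ω => nsq (y (I.dst e) ω)), (hy _).2]
  norm_num

/-- Relabelling of a system. -/
theorem isSys_comp {Ω : Type} [Fintype Ω] {D : ℕ} {a : Ω → Fin D → ℝ} (ha : IsSys a)
    (g : Equiv.Perm Ω) : IsSys (fun ω => a (g ω)) := by
  refine ⟨fun ω ω' hne => ha.1 _ _ (fun h => hne (g.injective h)), ?_⟩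
  rw [Equiv.sum_comp g (fun ω => nsq (a ω))]
  exact ha.2

theorem threshold_le {P Q κ : Type} [Fintype κ] (T : TypeGraph P Q κ) (F : Finset κ)
    (hF : F.Nonempty) : T.threshold ≤ (T.verts F : ℝ) / F.card := by
  refine ciInf_le ?_ (⟨F, hF⟩ : {F : Finset κ // F.Nonempty})
  refine ⟨0, ?_⟩
  rintro _ ⟨F, rfl⟩
  positivity

/-- The easy side. -/
theorem easy_typed (a : ℝ) (ha : 0 < a) : ∃ ε : ℝ, 0 < ε ∧
    ∀ (P Q κ : Type) [Fintype κ] (T : TypeGraph P Q κ)
      (U W Ω ι : Type) [Fintype Ω] [Nonempty Ω] [Fintype ι] [Nonempty ι] (I : Game U W Ω ι),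
      Typed T I → ∀ (D : ℕ) (x : U → Ω → Fin D → ℝ) (y : W → Ω → Fin D → ℝ),
        (∀ u, IsSys (x u)) → (∀ w, IsSys (y w)) →
        1 - ε ≤ (𝔼 e, ∑ ω, ∑ i, x (I.src e) ω i * y (I.dst e) (I.perm e ω) i) →
        min 1 T.threshold - a ≤ I.value := by
  classical
  obtain ⟨ε1, hε1, htwo⟩ := two_perms (a / 2) (by positivity)
  refine ⟨ε1 * (a / 2), by positivity, ?_⟩
  intro P Q κ _ T U W Ω ι _ _ _ _ I hI D x y hx hy hobj
  obtain ⟨ta, tb, tc, σ, hty⟩ := hI
  have hι : (0 : ℝ) < Fintype.card ι := by exact_mod_cast Fintype.card_pos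
  set θ : ℝ := min 1 T.threshold with hθ
  have hθ1 : θ ≤ 1 := min_le_left _ _
  have hT : ∀ F : Finset κ, θ * (F.card : ℝ) ≤ (T.verts F : ℝ) := by
    intro F
    rcases F.eq_empty_or_nonempty with rfl | hF
    · simp
    · have h1 := threshold_le T F hF
      have h2 : (0 : ℝ) < F.card := by exact_mod_cast hF.card_pos
      rw [le_div_iff₀ h2] at h1
      exact (mul_le_mul_of_nonneg_right (min_le_right _ _) h2.le).trans h1
  -- the weights of the types
  set w : κ → ℝ := fun k => ((univ.filter (fun e => tc e = k)).card : ℝ) with hw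
  have hwsum : ∑ k, w k = Fintype.card ι := by
    have h1 := Finset.card_eq_sum_card_fiberwise (f := tc) (s := univ) (t := univ)
      (fun e _ => mem_univ _)
    rw [Finset.card_univ] at h1
    rw [h1]
    push_cast
    rfl
  obtain ⟨F, f, hf, hinj, hwF⟩ := exists_pseudo T θ hθ1 hT w (fun k => by positivity)
  obtain ⟨comp, g, τ, hg⟩ := exists_gauge T F f hf hinj σ
  rw [hwsum] at hwF
  -- the edges with type in `F`
  set E : Finset ι := univ.filter (fun e => tc e ∈ F) with hE
  have hEcard : ∑ k ∈ F, w k = E.card := by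
    have h1 := Finset.card_eq_sum_card_fiberwise (f := tc) (s := E) (t := F)
      (fun e he => (Finset.mem_filter.1 he).2)
    rw [h1]
    push_cast
    refine Finset.sum_congr rfl (fun k hk => ?_)
    rw [hw]
    beta_reduce
    congr 2
    ext e
    simp only [Finset.mem_filter, mem_univ, true_and, hE]
    exact ⟨fun h => ⟨by rw [h]; exact hk, h⟩, fun h => h.2⟩
  rw [hEcard] at hwF
  -- the components
  set co : ι → P ⊕ Q := fun e => comp (Sum.inl (T.src (tc e))) with hco
  have hcoU : ∀ e, comp (Sum.inl (ta (I.src e))) = co e := fun e => by rw [(hty e).1]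
  have hcoW : ∀ e ∈ E, comp (Sum.inr (tb (I.dst e))) = co e := fun e he => by
    rw [(hty e).2.1]
    exact (hg (tc e) (Finset.mem_filter.1 he).2).1.symm
  set C : Finset (P ⊕ Q) := univ.image co with hC
  set Ec : P ⊕ Q → Finset ι := fun v => E.filter (fun e => co e = v) with hEc
  have hsumE : ∀ φ : ι → ℝ, ∑ v ∈ C, ∑ e ∈ Ec v, φ e = ∑ e ∈ E, φ e := fun φ =>
    Finset.sum_fiberwise_of_maps_to (fun e _ => Finset.mem_image_of_mem co (mem_univ e)) φ
  -- the gauged game on a component
  have hcomp : ∀ v : P ⊕ Q, ∃ (p : U → Ω) (q : W → Ω),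
      (1 - a / 2) * ((Ec v).card : ℝ) - (∑ e ∈ Ec v, (1 - contrib I x y e)) / ε1 ≤
        (((Ec v).filter (fun e => I.perm e (g (Sum.inl (ta (I.src e))) (p (I.src e))) =
          g (Sum.inr (tb (I.dst e))) (q (I.dst e)))).card : ℝ) := by
    intro v
    have hdef : 0 ≤ ∑ e ∈ Ec v, (1 - contrib I x y e) :=
      Finset.sum_nonneg (fun e _ => by linarith [contrib_le I x y hx hy e])
    by_cases hbad : ε1 * ((Ec v).card : ℝ) < ∑ e ∈ Ec v, (1 - contrib I x y e)
    · refine ⟨fun _ => Classical.arbitrary Ω, fun _ => Classical.arbitrary Ω, ?_⟩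
      have h1 : ((Ec v).card : ℝ) ≤ (∑ e ∈ Ec v, (1 - contrib I x y e)) / ε1 := by
        rw [le_div_iff₀ hε1]
        linarith
      have h2 : (0 : ℝ) ≤ a / 2 * ((Ec v).card : ℝ) := by positivity
      have h3 : (0 : ℝ) ≤ (((Ec v).filter (fun e => I.perm e (g (Sum.inl (ta (I.src e)))
          (Classical.arbitrary Ω)) = g (Sum.inr (tb (I.dst e))) (Classical.arbitrary Ω))).card : ℝ) :=
        Nat.cast_nonneg _
      linarith
    · push Not at hbad
      rcases (Ec v).eq_empty_or_nonempty with he | hne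
      · refine ⟨fun _ => Classical.arbitrary Ω, fun _ => Classical.arbitrary Ω, ?_⟩
        rw [he]
        simp
      have hneE : Nonempty (Ec v) := by
        obtain ⟨e, he⟩ := hne
        exact ⟨⟨e, he⟩⟩
      have hcE : (0 : ℝ) < (Ec v).card := by exact_mod_cast hne.card_pos
      set J : Game U W Ω (Ec v) :=
        { src := fun e => I.src e.1
          dst := fun e => I.dst e.1
          perm := fun e => (g (Sum.inr (tb (I.dst e.1))))⁻¹ * I.perm e.1 *
            g (Sum.inl (ta (I.src e.1))) } with hJ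
      have hJperm : ∀ e, J.perm e = 1 ∨ J.perm e = τ v := by
        intro e
        have heE : e.1 ∈ E := (Finset.mem_filter.1 e.2).1
        have hev : co e.1 = v := (Finset.mem_filter.1 e.2).2
        have h1 := (hg (tc e.1) (Finset.mem_filter.1 heE).2).2
        have h2 : J.perm e = (g (Sum.inr (T.dst (tc e.1))))⁻¹ * σ (tc e.1) *
            g (Sum.inl (T.src (tc e.1))) := by
          show (g (Sum.inr (tb (I.dst e.1))))⁻¹ * I.perm e.1 * g (Sum.inl (ta (I.src e.1))) = _
          rw [(hty e.1).1, (hty e.1).2.1, (hty e.1).2.2]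
        rw [h2]
        rcases h1 with h1 | h1
        · exact Or.inl h1
        · right
          rw [h1]
          exact congrArg τ hev
      obtain ⟨p, q, hpq⟩ := htwo Ω U W (Ec v) J (τ v) hJperm D
        (fun u ω => x u (g (Sum.inl (ta u)) ω)) (fun w ω => y w (g (Sum.inr (tb w)) ω))
        (fun u => isSys_comp (hx u) _) (fun w => isSys_comp (hy w) _) (by
          have h1 : ∀ e : Ec v, (∑ ω, ∑ i, x (J.src e) (g (Sum.inl (ta (J.src e))) ω) i *
              y (J.dst e) (g (Sum.inr (tb (J.dst e))) (J.perm e ω)) i) =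
              contrib I x y e.1 := by
            intro e
            rw [contrib, ← Equiv.sum_comp (g (Sum.inl (ta (I.src e.1))))
              (fun ω => ∑ i, x (I.src e.1) ω i * y (I.dst e.1) (I.perm e.1 ω) i)]
            refine Finset.sum_congr rfl (fun ω _ => Finset.sum_congr rfl (fun i _ => ?_))
            show x (I.src e.1) (g (Sum.inl (ta (I.src e.1))) ω) i *
              y (I.dst e.1) (g (Sum.inr (tb (I.dst e.1)))
                (((g (Sum.inr (tb (I.dst e.1))))⁻¹ * I.perm e.1 *
            g (Sum.inl (ta (I.src e.1)))) ω)) i = _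
            simp [Equiv.Perm.mul_apply]
          rw [Finset.expect_congr rfl (fun e _ => h1 e), Fintype.expect_eq_sum_div_card,
            Fintype.card_coe, le_div_iff₀ hcE, Finset.sum_coe_sort (Ec v) (contrib I x y)]
          rw [Finset.sum_sub_distrib, Finset.sum_const, nsmul_eq_mul, mul_one] at hbad
          linarith)
      refine ⟨p, q, ?_⟩
      rw [Game.satFrac, Fintype.card_coe, le_div_iff₀ hcE] at hpq
      have h2 : ((univ.filter (fun e : Ec v => J.perm e (p (J.src e)) = q (J.dst e))).card : ℝ) =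
          (((Ec v).filter (fun e => I.perm e (g (Sum.inl (ta (I.src e))) (p (I.src e))) =
          g (Sum.inr (tb (I.dst e))) (q (I.dst e)))).card : ℝ) := by
        congr 1
        refine Finset.card_bij (fun e _ => e.1) ?_ ?_ ?_
        · intro e he
          rw [Finset.mem_filter]
          refine ⟨e.2, ?_⟩
          have h3 := (Finset.mem_filter.1 he).2
          rw [← h3]
          show _ = g (Sum.inr (tb (I.dst e.1))) (((g (Sum.inr (tb (I.dst e.1))))⁻¹ *
            I.perm e.1 * g (Sum.inl (ta (I.src e.1)))) (p (I.src e.1)))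
          simp [Equiv.Perm.mul_apply]
        · intro e _ e' _ h
          exact Subtype.ext h
        · intro e he
          rw [Finset.mem_filter] at he
          refine ⟨⟨e, he.1⟩, ?_, rfl⟩
          rw [Finset.mem_filter]
          refine ⟨mem_univ _, ?_⟩
          show ((g (Sum.inr (tb (I.dst e))))⁻¹ * I.perm e * g (Sum.inl (ta (I.src e))))
            (p (I.src e)) = q (I.dst e)
          rw [Equiv.Perm.mul_apply, Equiv.Perm.mul_apply, he.2]
          simp
      rw [← h2]
      have h3 : 0 ≤ (∑ e ∈ Ec v, (1 - contrib I x y e)) / ε1 := by positivity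
      have h4 : ((univ.filter (fun e : Ec v => J.perm e (p (J.src e)) = q (J.dst e))).card : ℝ) =
          ((univ.filter (fun e : Ec v => J.perm e (p (J.src e)) = q (J.dst e))).card : ℝ) := rfl
      refine le_trans ?_ (hpq.trans (le_of_eq ?_))
      · linarith
      · congr!
  choose p q hpq using hcomp
  -- the labeling
  set X : U → Ω := fun u => g (Sum.inl (ta u)) (p (comp (Sum.inl (ta u))) u) with hX
  set Y : W → Ω := fun w => g (Sum.inr (tb w)) (q (comp (Sum.inr (tb w))) w) with hY
  refine le_trans ?_ (le_value I X Y)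
  rw [Game.satFrac, le_div_iff₀ hι]
  have hcount : ∑ v ∈ C, (((Ec v).filter (fun e => I.perm e (g (Sum.inl (ta (I.src e)))
      (p v (I.src e))) = g (Sum.inr (tb (I.dst e))) (q v (I.dst e)))).card : ℝ) ≤
      ((univ.filter (fun e => I.perm e (X (I.src e)) = Y (I.dst e))).card : ℝ) := by
    rw [← Nat.cast_sum]
    have h1 : ∑ v ∈ C, ((Ec v).filter (fun e => I.perm e (g (Sum.inl (ta (I.src e)))
      (p v (I.src e))) = g (Sum.inr (tb (I.dst e))) (q v (I.dst e)))).card =
      (C.biUnion (fun v => (Ec v).filter (fun e => I.perm e (g (Sum.inl (ta (I.src e)))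
      (p v (I.src e))) = g (Sum.inr (tb (I.dst e))) (q v (I.dst e))))).card := by
      rw [Finset.card_biUnion]
      intro v _ v' _ hvv'
      refine Finset.disjoint_left.2 ?_
      intro e he he'
      have h2 := (Finset.mem_filter.1 (Finset.mem_filter.1 he).1).2
      have h3 := (Finset.mem_filter.1 (Finset.mem_filter.1 he').1).2
      exact hvv' (h2.symm.trans h3)
    rw [h1]
    refine Nat.cast_le.2 (Finset.card_le_card ?_)
    intro e he
    rw [Finset.mem_biUnion] at he
    obtain ⟨v, _, he⟩ := he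
    rw [Finset.mem_filter] at he
    obtain ⟨he1, he2⟩ := he
    rw [hEc] at he1
    have he3 := Finset.mem_filter.1 he1
    rw [Finset.mem_filter]
    refine ⟨mem_univ _, ?_⟩
    show I.perm e (g (Sum.inl (ta (I.src e))) (p (comp (Sum.inl (ta (I.src e)))) (I.src e))) =
      g (Sum.inr (tb (I.dst e))) (q (comp (Sum.inr (tb (I.dst e)))) (I.dst e))
    rw [hcoU e, hcoW e he3.1, he3.2]
    exact he2
  have hmain := Finset.sum_le_sum (fun v (_ : v ∈ C) => hpq v)
  have hsum1 : ∑ v ∈ C, ((1 - a / 2) * ((Ec v).card : ℝ) -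
      (∑ e ∈ Ec v, (1 - contrib I x y e)) / ε1) =
      (1 - a / 2) * E.card - (∑ e ∈ E, (1 - contrib I x y e)) / ε1 := by
    rw [Finset.sum_sub_distrib, ← Finset.mul_sum, ← Finset.sum_div, hsumE]
    have h1 := hsumE (fun _ => 1)
    simp only [Finset.sum_const, nsmul_eq_mul, mul_one] at h1
    rw [h1]
  rw [hsum1] at hmain
  have hdefE : ∑ e ∈ E, (1 - contrib I x y e) ≤ ε1 * (a / 2) * Fintype.card ι := by
    have h1 : ∑ e ∈ E, (1 - contrib I x y e) ≤ ∑ e, (1 - contrib I x y e) :=
      Finset.sum_le_sum_of_subset_of_nonneg (Finset.subset_univ _)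
        (fun e _ _ => by linarith [contrib_le I x y hx hy e])
    have h2 : (𝔼 e, ∑ ω, ∑ i, x (I.src e) ω i * y (I.dst e) (I.perm e ω) i) =
        (∑ e, contrib I x y e) / Fintype.card ι := by
      rw [Fintype.expect_eq_sum_div_card]
      rfl
    rw [h2, le_div_iff₀ hι] at hobj
    have h3 : ∑ e, (1 - contrib I x y e) = Fintype.card ι - ∑ e, contrib I x y e := by
      rw [Finset.sum_sub_distrib, Finset.sum_const, Finset.card_univ, nsmul_eq_mul, mul_one]
    rw [h3] at h1
    linarith
  have h5 : (∑ e ∈ E, (1 - contrib I x y e)) / ε1 ≤ a / 2 * Fintype.card ι := by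
    rw [div_le_iff₀ hε1]
    linarith
  have h6 : (E.card : ℝ) ≤ Fintype.card ι := by exact_mod_cast Finset.card_le_univ E
  have h7 : (θ - a) * Fintype.card ι ≤ (1 - a / 2) * E.card -
      (∑ e ∈ E, (1 - contrib I x y e)) / ε1 := by
    have h8 : a / 2 * (E.card : ℝ) ≤ a / 2 * Fintype.card ι :=
      mul_le_mul_of_nonneg_left h6 (by positivity)
    linarith
  exact h7.trans (hmain.trans (hcount.trans (le_of_eq (by congr!))))

end Pool.Agent.P325t
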