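import Pool.Agent.Lib.P325t.Easy

/-!
# The easy side with an explicit rate

`easy_core`: the rounding of `Amen.Easy` with explicit parameters. `lin_Z`: for games whose
constraints are the identity or one fixed permutation (of any finite set), the value is at least
`1 - κ - (10 ^ 6 * (1 + log (1 / κ)) ^ 2 / κ) * (1 - objective)`. `easy_rate`: for games typed over a
type graph `T`, a basic semidefinite objective `≥ 1 - ε` implies
`value ≥ min 1 (threshold T) - 2000 * √ε * (1 + log (1 / ε))`.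
-/

open Finset
open scoped BigOperators

namespace Pool.Agent.P325t

open Pool.Agent.P325f1f.Dich Pool.Agent.P325f1f.Amen

/-- The rounding of vector solutions along a Følner set, with all parameters. -/
theorem easy_core {Γ : Type} [Group Γ] {d : ℕ} (s : Fin d → Γ) (F : Finset Γ) (hF : F.Nonempty)
    (η : ℝ) (hη : 0 ≤ η) (hFs : ∀ (_ : DecidableEq Γ), ∀ k,
      ((F.filter (fun f => f * s k ∉ F)).card : ℝ) ≤ η * F.card ∧
      ((F.filter (fun f => f * (s k)⁻¹ ∉ F)).card : ℝ) ≤ η * F.card)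
    (k : ℕ) (α δ : ℝ) (hα : 0 < α) (hδ : 0 < δ)
    (hhalf : (1 + δ) * (F.card * (9 / 10) ^ k) ≤ 1 / 2)
    (Ω : Type) [Fintype Ω] [Nonempty Ω] [MulAction Γ Ω] (U W ι : Type)
      [Fintype ι] [Nonempty ι] (I : Game U W Ω ι)
      (hI : ∀ e, ∃ k, I.perm e = MulAction.toPerm (s k))
      (D : ℕ) (a : U → Ω → Fin D → ℝ) (b : W → Ω → Fin D → ℝ) (ha : ∀ u, IsSys (a u))
      (hb : ∀ w, IsSys (b w)) :
        1 - (𝔼 e, (4 * bd η α k δ (2 - 2 * ∑ ω, ∑ i, a (I.src e) ω i *
          b (I.dst e) (I.perm e ω) i) + 4 * ((1 + δ) * (F.card * (9 / 10) ^ k)))) ≤ I.value := by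
  classical
  have hΩ : (0 : ℝ) < Fintype.card Ω := by exact_mod_cast Fintype.card_pos
  obtain ⟨o⟩ := ‹Nonempty Ω›
  have hneΩ : Nonempty Ω := ⟨o⟩
  obtain ⟨e0⟩ := ‹Nonempty ι›
  have hneι : Nonempty ι := ⟨e0⟩
  -- the precision
  obtain ⟨m', hm'⟩ := exists_nat_gt ((Fintype.card Ω : ℝ) / δ)
  set m := m' + 1 with hm
  have hm0 : 0 < m := Nat.succ_pos _
  have hmr : (0 : ℝ) < m := by exact_mod_cast hm0
  have hmδ : (Fintype.card Ω : ℝ) / m ≤ δ := by
    rw [div_lt_iff₀ hδ] at hm'
    rw [div_le_iff₀ hmr, hm]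
    push_cast
    nlinarith
  -- the names of the classes
  set V : Type := Bool × ι × Ω with hV
  set vec : V → Fin D → ℝ := fun v => if v.1 then nrm (a (I.src v.2.1) v.2.2) else
    nrm (b (I.dst v.2.1) v.2.2) with hvec
  have har : ∀ e ω, ∃ v', vec v' = nrm (a (I.src e) ω) := fun e ω => ⟨(true, e, ω), rfl⟩
  have hbr : ∀ e ω, ∃ v', vec v' = nrm (b (I.dst e) ω) := fun e ω => ⟨(false, e, ω), rfl⟩
  have hneV : Nonempty V := ⟨(true, e0, o)⟩
  have hVc : (0 : ℝ) < Fintype.card V := by exact_mod_cast Fintype.card_pos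
  have hneF : Nonempty (Fin F.card) := ⟨⟨0, hF.card_pos⟩⟩
  have hneM : Nonempty (Fin m) := ⟨⟨0, hm0⟩⟩
  set Z : ℝ := 1 / (Fintype.card Ω * Fintype.card V) with hZ
  have hZ0 : 0 < Z := by positivity
  set φ : ℝ := F.card * (9 / 10) ^ k with hφ
  have hφ0 : 0 ≤ φ := by positivity
  set p : ℝ := Z * (1 - (1 + δ) * φ) with hp
  have hp0 : 0 < p := mul_pos hZ0 (by linarith)
  -- the loss of an edge
  set T : ι → ℝ := fun e => ∑ ω, ∑ i, (a (I.src e) ω i - b (I.dst e) (I.perm e ω) i) ^ 2 with hT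
  have hT0' : ∀ e, 0 ≤ T e := fun e =>
    Finset.sum_nonneg (fun _ _ => Finset.sum_nonneg (fun _ _ => sq_nonneg _))
  set L : ι → ℝ := fun e => 4 * bd η α k δ (T e) + 4 * ((1 + δ) * φ) with hL
  have hbd0 : ∀ e, 0 ≤ bd η α k δ (T e) := by
    intro e
    have := hT0' e
    rw [bd]
    positivity
  have hL0 : ∀ e, 0 ≤ L e := by
    intro e
    have := hbd0 e
    simp only [hL]
    positivity
  -- the labelings
  set P : U → Seed Ω V D F.card k m → Option Ω := fun u => choice F vec k m (a u) with hP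
  set Q : W → Seed Ω V D F.card k m → Option Ω := fun w => choice F vec k m (b w) with hQ
  have hedge : ∀ n e, (𝔼 ρ : Fin n → Seed Ω V D F.card k m,
      if I.perm e (lab (P (I.src e)) o n ρ) = lab (Q (I.dst e)) o n ρ then (0 : ℝ) else 1) ≤
      L e + (1 - p) ^ n := by
    intro n e
    obtain ⟨j, hj⟩ := hI e
    refine rounds (P (I.src e)) (Q (I.dst e)) (I.perm e) o o p (L e) hp0.le (hL0 e) ?_ ?_ n
    · have h1 := success F vec k m hF hm0 (ha (I.src e)) (har e)
      refine le_trans ?_ h1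
      rw [hp]
      refine mul_le_mul_of_nonneg_left ?_ hZ0.le
      have : (1 + (Fintype.card Ω : ℝ) / m) * φ ≤ (1 + δ) * φ :=
        mul_le_mul_of_nonneg_right (by linarith) hφ0
      linarith
    · have h1 := bad_le F vec k m hF hm0 (ha (I.src e)) (hb (I.dst e)) (har e) (hbr e) (s j)
        η hη (fun dΓ => hFs dΓ j) α hα δ hmδ (T e) (by
          rw [hT]
          simp only [hj]
          rfl)
      have h2 : (I.perm e : Ω → Ω) = fun ω => s j • ω := by
        rw [hj]
        rfl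
      rw [h2]
      refine h1.trans ?_
      rw [hp, hL]
      have h3 := hbd0 e
      have h4 : 0 ≤ (1 + δ) * φ := by positivity
      have h5 : Z * (2 * bd η α k δ (T e) + 2 * ((1 + δ) * φ)) ≤
          (4 * bd η α k δ (T e) + 4 * ((1 + δ) * φ)) * (Z * (1 - (1 + δ) * φ)) := by
        have h6 : (4 * bd η α k δ (T e) + 4 * ((1 + δ) * φ)) *
            (Z * (1 - (1 + δ) * φ)) - Z * (2 * bd η α k δ (T e) + 2 * ((1 + δ) * φ)) =
            Z * ((2 * bd η α k δ (T e) + 2 * ((1 + δ) * φ)) *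
              (2 * (1 - (1 + δ) * φ) - 1)) := by ring
        have h7 : 0 ≤ Z * ((2 * bd η α k δ (T e) + 2 * ((1 + δ) * φ)) *
              (2 * (1 - (1 + δ) * φ) - 1)) := by
          refine mul_nonneg hZ0.le (mul_nonneg (by linarith) (by linarith))
        linarith
      exact h5
  -- conclusion
  have hfin : ∀ n : ℕ, 1 - I.value ≤ (𝔼 e, L e) + (1 - p) ^ n := by
    intro n
    have h1 : ∀ ρ : Fin n → Seed Ω V D F.card k m, 1 - I.value ≤
        𝔼 e, if I.perm e (lab (P (I.src e)) o n ρ) = lab (Q (I.dst e)) o n ρ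
          then (0 : ℝ) else 1 := by
      intro ρ
      have h2 := le_value I (fun u => lab (P u) o n ρ) (fun w => lab (Q w) o n ρ)
      rw [satFrac_eq] at h2
      have h3 : ∀ e, (if I.perm e (lab (P (I.src e)) o n ρ) = lab (Q (I.dst e)) o n ρ
          then (0 : ℝ) else 1) = 1 - (if I.perm e (lab (P (I.src e)) o n ρ) =
            lab (Q (I.dst e)) o n ρ then (1 : ℝ) else 0) := by
        intro e
        split_ifs <;> norm_num
      rw [Finset.expect_congr rfl (fun e _ => h3 e), Finset.expect_sub_distrib,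
        Fintype.expect_const]
      linarith
    have h2 : 1 - I.value ≤ 𝔼 ρ : Fin n → Seed Ω V D F.card k m, 𝔼 e,
        if I.perm e (lab (P (I.src e)) o n ρ) = lab (Q (I.dst e)) o n ρ
          then (0 : ℝ) else 1 :=
      Finset.le_expect Finset.univ_nonempty (fun ρ _ => h1 ρ)
    rw [Finset.expect_comm] at h2
    refine h2.trans ((Finset.expect_le_expect (fun e _ => hedge n e)).trans ?_)
    rw [Finset.expect_add_distrib, Fintype.expect_const]
  have hp1 : p ≤ 1 := by
    have h1 := success F vec k m hF hm0 (ha (I.src e0)) (har e0)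
    have h2 : (𝔼 ρ, if choice F vec k m (a (I.src e0)) ρ = none then (0 : ℝ) else 1) ≤ 1 :=
      Finset.expect_le Finset.univ_nonempty (fun θ _ => by split_ifs <;> norm_num)
    have h3 : p ≤ Z * (1 - (1 + (Fintype.card Ω : ℝ) / m) * φ) := by
      rw [hp]
      refine mul_le_mul_of_nonneg_left ?_ hZ0.le
      have : (1 + (Fintype.card Ω : ℝ) / m) * φ ≤ (1 + δ) * φ :=
        mul_le_mul_of_nonneg_right (by linarith) hφ0
      linarith
    exact h3.trans (h1.trans h2)
  have hlim : 1 - I.value ≤ 𝔼 e, L e := by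
    refine le_of_forall_pos_le_add (fun x hx => ?_)
    obtain ⟨n, hn⟩ := exists_pow_lt_of_lt_one hx (show 1 - p < 1 by linarith)
    linarith [hfin n]
  have hTe : ∀ e, T e = 2 - 2 * ∑ ω, ∑ i, a (I.src e) ω i * b (I.dst e) (I.perm e ω) i := by
    intro e
    have h2 : ∀ ω, ∑ i, (a (I.src e) ω i - b (I.dst e) (I.perm e ω) i) ^ 2 =
        nsq (a (I.src e) ω) + nsq (b (I.dst e) (I.perm e ω)) -
          2 * ∑ i, a (I.src e) ω i * b (I.dst e) (I.perm e ω) i := fun ω => nsq_sub _ _
    simp only [hT]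
    rw [Finset.sum_congr rfl (fun ω _ => h2 ω), Finset.sum_sub_distrib, Finset.sum_add_distrib,
      (ha (I.src e)).2, Equiv.sum_comp (I.perm e) (fun ω => nsq (b (I.dst e) ω)),
      (hb (I.dst e)).2, ← Finset.mul_sum]
    ring
  have hfinal : (𝔼 e, (4 * bd η α k δ (2 - 2 * ∑ ω, ∑ i, a (I.src e) ω i *
          b (I.dst e) (I.perm e ω) i) + 4 * ((1 + δ) * (F.card * (9 / 10) ^ k)))) = 𝔼 e, L e := by
    refine Finset.expect_congr rfl (fun e _ => ?_)
    simp only [hL]
    rw [hTe e]
  rw [hfinal]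
  linarith

/-- The interval `{0, …, N - 1}` of the infinite cyclic group. -/
def interval (N : ℕ) : Finset (Multiplicative ℤ) := by
  classical
  exact (Finset.range N).image (fun n : ℕ => Multiplicative.ofAdd (n : ℤ))

theorem mem_interval (N : ℕ) (g : Multiplicative ℤ) :
    g ∈ interval N ↔ 0 ≤ Multiplicative.toAdd g ∧ Multiplicative.toAdd g < N := by
  classical
  unfold interval
  rw [Finset.mem_image]
  constructor
  · rintro ⟨n, hn, rfl⟩
    rw [Finset.mem_range] at hn
    rw [toAdd_ofAdd]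
    omega
  · rintro ⟨h0, h1⟩
    refine ⟨(Multiplicative.toAdd g).toNat, ?_, ?_⟩
    · rw [Finset.mem_range]
      omega
    · rw [Int.toNat_of_nonneg h0, ofAdd_toAdd]

theorem card_interval (N : ℕ) : (interval N).card = N := by
  classical
  have hinj : Function.Injective (fun n : ℕ => Multiplicative.ofAdd (n : ℤ)) := by
    intro a b hab
    have h1 : (a : ℤ) = b := Multiplicative.ofAdd.injective hab
    exact_mod_cast h1
  unfold interval
  rw [Finset.card_image_of_injective _ hinj, Finset.card_range]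

theorem interval_folner (N : ℕ) (η : ℝ) (hη : 1 ≤ η * N) : ∀ (_ : DecidableEq (Multiplicative ℤ)),
    ∀ k, (((interval N).filter (fun f => f * gens k ∉ interval N)).card : ℝ) ≤
        η * (interval N).card ∧
      (((interval N).filter (fun f => f * (gens k)⁻¹ ∉ interval N)).card : ℝ) ≤
        η * (interval N).card := by
  intro dΓ k
  rw [card_interval]
  have h1 : ((interval N).filter (fun f => f * gens k ∉ interval N)).card ≤ 1 := by
    rw [Finset.card_le_one]
    intro f hf g hg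
    rw [Finset.mem_filter, mem_interval, mem_interval] at hf hg
    rw [toAdd_mul] at hf hg
    fin_cases k
    · exfalso
      have : Multiplicative.toAdd (gens 0) = 0 := rfl
      simp only [Fin.zero_eta, this, add_zero] at hf
      exact hf.2 hf.1
    · have h2 : Multiplicative.toAdd (gens 1) = 1 := rfl
      simp only [Fin.mk_one, h2] at hf hg
      apply Multiplicative.toAdd.injective
      omega
  have h2 : ((interval N).filter (fun f => f * (gens k)⁻¹ ∉ interval N)).card ≤ 1 := by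
    rw [Finset.card_le_one]
    intro f hf g hg
    rw [Finset.mem_filter, mem_interval, mem_interval] at hf hg
    rw [toAdd_mul, toAdd_inv] at hf hg
    fin_cases k
    · exfalso
      have : Multiplicative.toAdd (gens 0) = 0 := rfl
      simp only [Fin.zero_eta, this, neg_zero, add_zero] at hf
      exact hf.2 hf.1
    · have h2 : Multiplicative.toAdd (gens 1) = 1 := rfl
      simp only [Fin.mk_one, h2] at hf hg
      apply Multiplicative.toAdd.injective
      omega
  constructor
  · refine le_trans ?_ hη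
    exact_mod_cast h1
  · refine le_trans ?_ hη
    exact_mod_cast h2

theorem exp_neg_ten : Real.exp (-10) ≤ 1 / 10100 := by
  rw [Real.exp_neg, ← one_div]
  refine one_div_le_one_div_of_le (by norm_num) ?_
  have h1 : (2.7 : ℝ) < Real.exp 1 := lt_trans (by norm_num) Real.exp_one_gt_d9
  have h2 : Real.exp 10 = Real.exp 1 ^ 10 := by
    rw [← Real.exp_nat_mul]
    norm_num
  rw [h2]
  have h3 : (2.7 : ℝ) ^ 10 ≤ Real.exp 1 ^ 10 := pow_le_pow_left₀ (by norm_num) h1.le 10
  refine le_trans ?_ h3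
  norm_num

/-- The parameters, with explicit bounds. -/
theorem params_lin (κ : ℝ) (hκ : 0 < κ) (hκ1 : κ ≤ 1) : ∃ (N k : ℕ) (α δ : ℝ), 0 < N ∧
    0 < α ∧ 0 < δ ∧ 1 ≤ κ / 100 * N ∧ (1 + δ) * (N * (9 / 10) ^ k) ≤ 1 / 2 ∧
    ∀ T, 0 ≤ T → 4 * bd (κ / 100) α k δ T + 4 * ((1 + δ) * (N * (9 / 10) ^ k)) ≤
      κ + (500000 * (1 + Real.log (1 / κ)) ^ 2 / κ) * T := by
  set L : ℝ := 1 + Real.log (1 / κ) with hL
  have hlog : 0 ≤ Real.log (1 / κ) := Real.log_nonneg ((one_le_div hκ).2 hκ1)
  have hL1 : 1 ≤ L := by linarith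
  set N : ℕ := ⌈100 / κ⌉₊ with hN
  have hN1 : 100 / κ ≤ N := Nat.le_ceil _
  have hN2 : (N : ℝ) < 100 / κ + 1 := Nat.ceil_lt_add_one (by positivity)
  have hN3 : (N : ℝ) ≤ 101 / κ := by
    have h1 : 1 ≤ 1 / κ := (one_le_div hκ).2 hκ1
    have h2 : 101 / κ = 100 / κ + 1 / κ := by ring
    linarith
  have hNpos : (0 : ℝ) < N := lt_of_lt_of_le (by positivity) hN1
  set k : ℕ := ⌈100 * L⌉₊ with hk
  have hk1 : 100 * L ≤ k := Nat.le_ceil _
  have hk2 : (k : ℝ) < 100 * L + 1 := Nat.ceil_lt_add_one (by positivity)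
  have hk3 : (k : ℝ) ≤ 101 * L := by linarith
  have hk4 : (100 : ℝ) ≤ k := by linarith
  have hk0 : (0 : ℝ) < k := by linarith
  -- the power
  have hpow : (9 / 10 : ℝ) ^ k ≤ κ ^ 2 / 10100 := by
    have h1 : (9 / 10 : ℝ) ≤ Real.exp (-(1 / 10)) := by
      have := Real.add_one_le_exp (-(1 / 10) : ℝ)
      linarith
    have h2 : (9 / 10 : ℝ) ^ k ≤ Real.exp (-(1 / 10)) ^ k :=
      pow_le_pow_left₀ (by norm_num) h1 k
    have h3 : Real.exp (-(1 / 10)) ^ k = Real.exp (-(k / 10)) := by
      rw [← Real.exp_nat_mul]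
      congr 1
      ring
    have h4 : Real.exp (-(k / 10 : ℝ)) ≤ Real.exp (-10 + 2 * Real.log κ) := by
      apply Real.exp_le_exp.2
      have h5 : Real.log (1 / κ) = - Real.log κ := by rw [one_div, Real.log_inv]
      rw [h5] at hlog hL
      nlinarith
    have h5 : Real.exp (-10 + 2 * Real.log κ) = Real.exp (-10) * κ ^ 2 := by
      rw [Real.exp_add]
      congr 1
      rw [two_mul, Real.exp_add, Real.exp_log hκ]
      ring
    rw [h3] at h2
    rw [h5] at h4
    have h6 : Real.exp (-10) * κ ^ 2 ≤ 1 / 10100 * κ ^ 2 :=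
      mul_le_mul_of_nonneg_right exp_neg_ten (by positivity)
    linarith
  set φ : ℝ := N * (9 / 10) ^ k with hφ
  have hφ0 : 0 ≤ φ := by positivity
  have hφ1 : φ ≤ κ / 100 := by
    have h1 : φ ≤ (101 / κ) * (κ ^ 2 / 10100) :=
      mul_le_mul hN3 hpow (by positivity) (by positivity)
    have h2 : (101 / κ) * (κ ^ 2 / 10100) = κ / 100 := by
      field_simp
      norm_num
    linarith
  set α : ℝ := κ / (10 * k) with hα
  have hα0 : 0 < α := by positivity
  have hα1 : α ≤ 1 := by
    rw [hα, div_le_one (by positivity)]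
    nlinarith
  have hkα : k * α = κ / 10 := by
    rw [hα]
    field_simp
  set δ : ℝ := κ * α / (100 * (k + 1)) with hδ
  have hδ0 : 0 < δ := by positivity
  have hδα : δ * (100 * (k + 1)) = κ * α := by
    rw [hδ]
    field_simp
  have hδ1 : δ ≤ 1 := by
    rw [hδ, div_le_one (by positivity)]
    nlinarith
  refine ⟨N, k, α, δ, by exact_mod_cast hNpos, hα0, hδ0, ?_, ?_, ?_⟩
  · have h1 : κ / 100 * (100 / κ) = 1 := by
      field_simp
    calc (1 : ℝ) = κ / 100 * (100 / κ) := h1.symm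
      _ ≤ κ / 100 * N := mul_le_mul_of_nonneg_left hN1 (by positivity)
  · nlinarith
  · intro T hT
    -- the coefficient of `T`
    have c1 : (1 + 4 * k) / α ≤ 500000 * L ^ 2 / κ := by
      rw [hα, div_div_eq_mul_div, div_le_div_iff_of_pos_right hκ]
      have h1 : (1 + 4 * (k : ℝ)) ≤ 4.01 * k := by linarith
      have h2 : (1 + 4 * (k : ℝ)) * (10 * k) ≤ 4.01 * k * (10 * k) :=
        mul_le_mul_of_nonneg_right h1 (by positivity)
      have h3 : (k : ℝ) ^ 2 ≤ (101 * L) ^ 2 := pow_le_pow_left₀ hk0.le hk3 2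
      nlinarith
    have c2 : δ / α ≤ κ / (100 * (k + 1)) := by
      rw [hδ]
      apply le_of_eq
      field_simp
    have c3 : (k : ℝ) * (δ / α) ≤ κ / 100 := by
      have h1 : (k : ℝ) * (δ / α) ≤ k * (κ / (100 * (k + 1))) :=
        mul_le_mul_of_nonneg_left c2 hk0.le
      have h2 : (k : ℝ) * (κ / (100 * (k + 1))) ≤ κ / 100 := by
        rw [mul_div_assoc', div_le_div_iff₀ (by positivity) (by norm_num)]
        nlinarith
      linarith
    have c4 : (k : ℝ) * δ ≤ κ / 100 := by
      have h1 : (k : ℝ) * δ ≤ k * (δ / α) := by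
        refine mul_le_mul_of_nonneg_left ?_ hk0.le
        rw [le_div_iff₀ hα0]
        nlinarith
      linarith
    have c5 : δ ≤ κ / 100 := by nlinarith
    have e1 : 4 * bd (κ / 100) α k δ T + 4 * ((1 + δ) * φ) =
        4 * (κ / 100 * (1 + δ)) + 16 * α + 4 * δ + 4 * (k * α) * (1 + δ) +
          4 * (k * δ) * (1 + δ) + 4 * (k * (δ / α)) + 4 * ((1 + δ) * φ) +
          ((1 + 4 * k) / α) * T := by
      rw [bd]
      field_simp
      ring
    rw [e1]
    have e2 : ((1 + 4 * k) / α) * T ≤ (500000 * L ^ 2 / κ) * T :=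
      mul_le_mul_of_nonneg_right c1 hT
    have e3 : 16 * α ≤ κ / 60 := by
      have h1 : 100 * α ≤ k * α := mul_le_mul_of_nonneg_right hk4 hα0.le
      linarith
    have e4 : (1 + δ) * φ ≤ (1 + κ / 100) * (κ / 100) :=
      mul_le_mul (by linarith) hφ1 hφ0 (by positivity)
    have e5 : 4 * (k * α) * (1 + δ) ≤ 4 * (κ / 10) * (1 + κ / 100) := by
      rw [hkα]
      exact mul_le_mul_of_nonneg_left (by linarith) (by positivity)
    have hκ100 : 0 ≤ κ / 100 := by positivity
    have e6 : 4 * (k * δ) * (1 + δ) ≤ 4 * (κ / 100) * (1 + κ / 100) := by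
      have f1 : 4 * (k * δ) ≤ 4 * (κ / 100) := by linarith
      have f2 : 1 + δ ≤ 1 + κ / 100 := by linarith
      have f3 : (0 : ℝ) ≤ 1 + δ := by linarith
      have f4 : 0 ≤ 4 * (κ / 100) := by linarith
      exact mul_le_mul f1 f2 f3 f4
    have e7 : 4 * (κ / 100 * (1 + δ)) ≤ 4 * (κ / 100 * (1 + κ / 100)) := by
      have f1 : κ / 100 * (1 + δ) ≤ κ / 100 * (1 + κ / 100) :=
        mul_le_mul_of_nonneg_left (by linarith) hκ100
      linarith
    have hκκ : κ * κ ≤ κ := by
      have := mul_le_mul_of_nonneg_left hκ1 hκ.le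
      linarith
    have g4 : (1 + κ / 100) * (κ / 100) = κ / 100 + κ * κ / 10000 := by ring
    have g5 : 4 * (κ / 10) * (1 + κ / 100) = 4 * κ / 10 + 4 * (κ * κ) / 1000 := by ring
    have g6 : 4 * (κ / 100) * (1 + κ / 100) = 4 * κ / 100 + 4 * (κ * κ) / 10000 := by ring
    have g7 : 4 * (κ / 100 * (1 + κ / 100)) = 4 * κ / 100 + 4 * (κ * κ) / 10000 := by ring
    rw [g4] at e4
    rw [g5] at e5
    rw [g6] at e6
    rw [g7] at e7
    linarith

/-- Games with the constraints `1`, `τ`: the value is at least `1 - κ`, minus an explicit multiple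
of the defect of the vector solution. -/
theorem lin_Z (κ : ℝ) (hκ : 0 < κ) (hκ1 : κ ≤ 1) {Ω : Type} [Fintype Ω] [Nonempty Ω]
    {U W ι : Type} [Fintype ι] [Nonempty ι] (I : Game U W Ω ι) (τ : Equiv.Perm Ω)
    (hI : ∀ e, I.perm e = 1 ∨ I.perm e = τ) (D : ℕ) (x : U → Ω → Fin D → ℝ)
    (y : W → Ω → Fin D → ℝ) (hx : ∀ u, IsSys (x u)) (hy : ∀ w, IsSys (y w)) :
    1 - κ - (1000000 * (1 + Real.log (1 / κ)) ^ 2 / κ) *
      (1 - 𝔼 e, contrib I x y e) ≤ I.value := by
  obtain ⟨N, k, α, δ, hN, hα, hδ, hNη, hhalf, hbd⟩ := params_lin κ hκ hκ1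
  let _ : MulAction (Multiplicative ℤ) Ω :=
    MulAction.compHom Ω (zpowersHom (Equiv.Perm Ω) τ)
  have h1 : ∀ e, ∃ k, I.perm e = MulAction.toPerm (gens k) := by
    intro e
    rcases hI e with he | he
    · refine ⟨0, ?_⟩
      rw [he]
      ext ω
      show ω = (1 : Multiplicative ℤ) • ω
      rw [one_smul]
    · refine ⟨1, ?_⟩
      rw [he]
      ext ω
      show τ ω = (zpowersHom (Equiv.Perm Ω) τ (Multiplicative.ofAdd 1)) ω
      rw [zpowersHom_apply]
      simp
  have hne : (interval N).Nonempty := by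
    rw [← Finset.card_pos, card_interval]
    exact hN
  have hcore := easy_core gens (interval N) hne (κ / 100) (by positivity)
    (interval_folner N (κ / 100) hNη) k α δ hα hδ (by rw [card_interval]; exact hhalf) Ω U W ι I h1
    D x y hx hy
  refine le_trans ?_ hcore
  have h2 : ∀ e, 4 * bd (κ / 100) α k δ (2 - 2 * ∑ ω, ∑ i, x (I.src e) ω i *
      y (I.dst e) (I.perm e ω) i) + 4 * ((1 + δ) * ((interval N).card * (9 / 10) ^ k)) ≤
      κ + (500000 * (1 + Real.log (1 / κ)) ^ 2 / κ) * (2 - 2 * contrib I x y e) := by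
    intro e
    rw [card_interval]
    exact hbd _ (by
      have := contrib_le I x y hx hy e
      rw [contrib] at this
      linarith)
  have h3 := Finset.expect_le_expect (s := univ) (fun e _ => h2 e)
  refine le_trans ?_ (sub_le_sub_left h3 1)
  rw [Finset.expect_add_distrib, Fintype.expect_const, ← Finset.mul_expect,
    Finset.expect_sub_distrib, Fintype.expect_const, ← Finset.mul_expect]
  apply le_of_eq
  ring

/-- The easy side with a free parameter `κ`. -/
theorem easy_lin (κ' : ℝ) (hκ : 0 < κ') (hκ1 : κ' ≤ 1) (ε : ℝ) (P Q κ : Type) [Finite P]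
    [Finite Q] [Fintype κ] (T : TypeGraph P Q κ) (U W Ω ι : Type) [Fintype Ω] [Nonempty Ω]
    [Fintype ι] [Nonempty ι] (I : Game U W Ω ι) (hI : Typed T I) (D : ℕ)
    (x : U → Ω → Fin D → ℝ) (y : W → Ω → Fin D → ℝ) (hx : ∀ u, IsSys (x u))
    (hy : ∀ w, IsSys (y w))
    (hobj : 1 - ε ≤ (𝔼 e, ∑ ω, ∑ i, x (I.src e) ω i * y (I.dst e) (I.perm e ω) i)) :
    min 1 T.threshold - κ' - (1000000 * (1 + Real.log (1 / κ')) ^ 2 / κ') * ε ≤ I.value := by
  classical
  obtain ⟨ta, tb, tc, σ, hty⟩ := hI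
  have hι : (0 : ℝ) < Fintype.card ι := by exact_mod_cast Fintype.card_pos
  set θ : ℝ := min 1 T.threshold with hθ
  set A : ℝ := 1000000 * (1 + Real.log (1 / κ')) ^ 2 / κ' with hA
  have hA0 : 0 ≤ A := by positivity
  have hθ1 : θ ≤ 1 := min_le_left _ _
  have hT : ∀ F : Finset κ, θ * (F.card : ℝ) ≤ (T.verts F : ℝ) := by
    intro F
    rcases F.eq_empty_or_nonempty with rfl | hF
    · simp
    · have h1 := threshold_le T F hF
      have h2 : (0 : ℝ) < F.card := by exact_mod_cast hF.card_pos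
      rw [le_div_iff₀ h2] at h1
      exact (mul_le_mul_of_nonneg_right (min_le_right _ _) h2.le).trans h1
  -- the weights of the types
  set w : κ → ℝ := fun k => ((univ.filter (fun e => tc e = k)).card : ℝ) with hw
  have hwsum : ∑ k, w k = Fintype.card ι := by
    have h1 := Finset.card_eq_sum_card_fiberwise (f := tc) (s := univ) (t := univ)
      (fun e _ => mem_univ _)
    rw [Finset.card_univ] at h1
    rw [h1]
    push_cast
    rfl
  obtain ⟨F, f, hf, hinj, hwF⟩ := exists_pseudo T θ hθ1 hT w (fun k => by positivity)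
  obtain ⟨comp, g, τ, hg⟩ := exists_gauge T F f hf hinj σ
  rw [hwsum] at hwF
  -- the edges with type in `F`
  set E : Finset ι := univ.filter (fun e => tc e ∈ F) with hE
  have hEcard : ∑ k ∈ F, w k = E.card := by
    have h1 := Finset.card_eq_sum_card_fiberwise (f := tc) (s := E) (t := F)
      (fun e he => (Finset.mem_filter.1 he).2)
    rw [h1]
    push_cast
    refine Finset.sum_congr rfl (fun k hk => ?_)
    rw [hw]
    beta_reduce
    congr 2
    ext e
    simp only [Finset.mem_filter, mem_univ, true_and, hE]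
    exact ⟨fun h => ⟨by rw [h]; exact hk, h⟩, fun h => h.2⟩
  rw [hEcard] at hwF
  -- the components
  set co : ι → P ⊕ Q := fun e => comp (Sum.inl (T.src (tc e))) with hco
  have hcoU : ∀ e, comp (Sum.inl (ta (I.src e))) = co e := fun e => by rw [(hty e).1]
  have hcoW : ∀ e ∈ E, comp (Sum.inr (tb (I.dst e))) = co e := fun e he => by
    rw [(hty e).2.1]
    exact (hg (tc e) (Finset.mem_filter.1 he).2).1.symm
  have hfin : Finite (P ⊕ Q) := inferInstance
  have hft : Fintype (P ⊕ Q) := Fintype.ofFinite _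
  set Ec : P ⊕ Q → Finset ι := fun v => E.filter (fun e => co e = v) with hEc
  have hsumE : ∀ φ : ι → ℝ, ∑ v, ∑ e ∈ Ec v, φ e = ∑ e ∈ E, φ e := fun φ =>
    Finset.sum_fiberwise_of_maps_to (fun e _ => mem_univ _) φ
  refine le_of_forall_pos_le_add (fun ξ hξ => ?_)
  -- the gauged game on a component
  have hcomp : ∀ v : P ⊕ Q, ∃ (p : U → Ω) (q : W → Ω),
      (1 - κ' - ξ) * ((Ec v).card : ℝ) - A * (∑ e ∈ Ec v, (1 - contrib I x y e)) ≤
        (((Ec v).filter (fun e => I.perm e (g (Sum.inl (ta (I.src e))) (p (I.src e))) =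
          g (Sum.inr (tb (I.dst e))) (q (I.dst e)))).card : ℝ) := by
    intro v
    rcases (Ec v).eq_empty_or_nonempty with he | hne
    · refine ⟨fun _ => Classical.arbitrary Ω, fun _ => Classical.arbitrary Ω, ?_⟩
      rw [he]
      simp
    have hneE : Nonempty (Ec v) := by
      obtain ⟨e, he⟩ := hne
      exact ⟨⟨e, he⟩⟩
    have hcE : (0 : ℝ) < (Ec v).card := by exact_mod_cast hne.card_pos
    set J : Game U W Ω (Ec v) :=
      { src := fun e => I.src e.1
        dst := fun e => I.dst e.1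
        perm := fun e => (g (Sum.inr (tb (I.dst e.1))))⁻¹ * I.perm e.1 *
          g (Sum.inl (ta (I.src e.1))) } with hJ
    have hJperm : ∀ e, J.perm e = 1 ∨ J.perm e = τ v := by
      intro e
      have heE : e.1 ∈ E := (Finset.mem_filter.1 e.2).1
      have hev : co e.1 = v := (Finset.mem_filter.1 e.2).2
      have h1 := (hg (tc e.1) (Finset.mem_filter.1 heE).2).2
      have h2 : J.perm e = (g (Sum.inr (T.dst (tc e.1))))⁻¹ * σ (tc e.1) *
          g (Sum.inl (T.src (tc e.1))) := by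
        show (g (Sum.inr (tb (I.dst e.1))))⁻¹ * I.perm e.1 * g (Sum.inl (ta (I.src e.1))) = _
        rw [(hty e.1).1, (hty e.1).2.1, (hty e.1).2.2]
      rw [h2]
      rcases h1 with h1 | h1
      · exact Or.inl h1
      · right
        rw [h1]
        exact congrArg τ hev
    have hval := lin_Z κ' hκ hκ1 J (τ v) hJperm D
      (fun u ω => x u (g (Sum.inl (ta u)) ω)) (fun w ω => y w (g (Sum.inr (tb w)) ω))
      (fun u => isSys_comp (hx u) _) (fun w => isSys_comp (hy w) _)
    have hcon : ∀ e : Ec v, contrib J (fun u ω => x u (g (Sum.inl (ta u)) ω))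
        (fun w ω => y w (g (Sum.inr (tb w)) ω)) e = contrib I x y e.1 := by
      intro e
      rw [contrib, contrib, ← Equiv.sum_comp (g (Sum.inl (ta (I.src e.1))))
        (fun ω => ∑ i, x (I.src e.1) ω i * y (I.dst e.1) (I.perm e.1 ω) i)]
      refine Finset.sum_congr rfl (fun ω _ => Finset.sum_congr rfl (fun i _ => ?_))
      show x (I.src e.1) (g (Sum.inl (ta (I.src e.1))) ω) i *
        y (I.dst e.1) (g (Sum.inr (tb (I.dst e.1)))
          (((g (Sum.inr (tb (I.dst e.1))))⁻¹ * I.perm e.1 *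
      g (Sum.inl (ta (I.src e.1)))) ω)) i = _
      simp [Equiv.Perm.mul_apply]
    rw [Finset.expect_congr rfl (fun e _ => hcon e), Fintype.expect_eq_sum_div_card,
      Fintype.card_coe, Finset.sum_coe_sort (Ec v) (contrib I x y)] at hval
    have hne2 : Nonempty ((U → Ω) × (W → Ω)) :=
      ⟨(fun _ => Classical.arbitrary Ω, fun _ => Classical.arbitrary Ω)⟩
    have hlt : 1 - κ' - A * (1 - (∑ e ∈ Ec v, contrib I x y e) / (Ec v).card) - ξ <
        J.value := by linarith
    obtain ⟨pq, hpq⟩ := exists_lt_of_lt_ciSup hlt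
    refine ⟨pq.1, pq.2, ?_⟩
    rw [Game.satFrac, Fintype.card_coe, lt_div_iff₀ hcE] at hpq
    have h2 : ((univ.filter (fun e : Ec v => J.perm e (pq.1 (J.src e)) =
        pq.2 (J.dst e))).card : ℝ) =
        (((Ec v).filter (fun e => I.perm e (g (Sum.inl (ta (I.src e))) (pq.1 (I.src e))) =
        g (Sum.inr (tb (I.dst e))) (pq.2 (I.dst e)))).card : ℝ) := by
      congr 1
      refine Finset.card_bij (fun e _ => e.1) ?_ ?_ ?_
      · intro e he
        rw [Finset.mem_filter]
        refine ⟨e.2, ?_⟩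
        have h3 := (Finset.mem_filter.1 he).2
        rw [← h3]
        show _ = g (Sum.inr (tb (I.dst e.1))) (((g (Sum.inr (tb (I.dst e.1))))⁻¹ *
          I.perm e.1 * g (Sum.inl (ta (I.src e.1)))) (pq.1 (I.src e.1)))
        simp [Equiv.Perm.mul_apply]
      · intro e _ e' _ h
        exact Subtype.ext h
      · intro e he
        rw [Finset.mem_filter] at he
        refine ⟨⟨e, he.1⟩, ?_, rfl⟩
        rw [Finset.mem_filter]
        refine ⟨mem_univ _, ?_⟩
        show ((g (Sum.inr (tb (I.dst e))))⁻¹ * I.perm e * g (Sum.inl (ta (I.src e))))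
          (pq.1 (I.src e)) = pq.2 (I.dst e)
        rw [Equiv.Perm.mul_apply, Equiv.Perm.mul_apply, he.2]
        simp
    rw [← h2]
    have h3 : (1 - κ' - A * (1 - (∑ e ∈ Ec v, contrib I x y e) / (Ec v).card) - ξ) *
        ((Ec v).card : ℝ) = (1 - κ' - ξ) * ((Ec v).card : ℝ) -
          A * (∑ e ∈ Ec v, (1 - contrib I x y e)) := by
      rw [Finset.sum_sub_distrib, Finset.sum_const, nsmul_eq_mul, mul_one]
      field_simp
      ring
    rw [h3] at hpq
    exact hpq.le.trans (le_of_eq (by congr!))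
  choose p q hpq using hcomp
  -- the labeling
  set X : U → Ω := fun u => g (Sum.inl (ta u)) (p (comp (Sum.inl (ta u))) u) with hX
  set Y : W → Ω := fun w => g (Sum.inr (tb w)) (q (comp (Sum.inr (tb w))) w) with hY
  have hXY := le_value I X Y
  suffices hs : θ - κ' - A * ε - ξ ≤ I.satFrac X Y by linarith
  rw [Game.satFrac, le_div_iff₀ hι]
  have hcount : ∑ v, (((Ec v).filter (fun e => I.perm e (g (Sum.inl (ta (I.src e)))
      (p v (I.src e))) = g (Sum.inr (tb (I.dst e))) (q v (I.dst e)))).card : ℝ) ≤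
      ((univ.filter (fun e => I.perm e (X (I.src e)) = Y (I.dst e))).card : ℝ) := by
    rw [← Nat.cast_sum]
    have h1 : ∑ v, ((Ec v).filter (fun e => I.perm e (g (Sum.inl (ta (I.src e)))
      (p v (I.src e))) = g (Sum.inr (tb (I.dst e))) (q v (I.dst e)))).card =
      (univ.biUnion (fun v => (Ec v).filter (fun e => I.perm e (g (Sum.inl (ta (I.src e)))
      (p v (I.src e))) = g (Sum.inr (tb (I.dst e))) (q v (I.dst e))))).card := by
      rw [Finset.card_biUnion]
      intro v _ v' _ hvv'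
      refine Finset.disjoint_left.2 ?_
      intro e he he'
      have h2 := (Finset.mem_filter.1 (Finset.mem_filter.1 he).1).2
      have h3 := (Finset.mem_filter.1 (Finset.mem_filter.1 he').1).2
      exact hvv' (h2.symm.trans h3)
    rw [h1]
    refine Nat.cast_le.2 (Finset.card_le_card ?_)
    intro e he
    rw [Finset.mem_biUnion] at he
    obtain ⟨v, -, he⟩ := he
    rw [Finset.mem_filter] at he
    obtain ⟨he1, he2⟩ := he
    rw [hEc] at he1
    have he3 := Finset.mem_filter.1 he1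
    rw [Finset.mem_filter]
    refine ⟨mem_univ _, ?_⟩
    show I.perm e (g (Sum.inl (ta (I.src e))) (p (comp (Sum.inl (ta (I.src e)))) (I.src e))) =
      g (Sum.inr (tb (I.dst e))) (q (comp (Sum.inr (tb (I.dst e)))) (I.dst e))
    rw [hcoU e, hcoW e he3.1, he3.2]
    exact he2
  have hmain := Finset.sum_le_sum (fun v (_ : v ∈ univ) => hpq v)
  have hsum1 : ∑ v, ((1 - κ' - ξ) * ((Ec v).card : ℝ) -
      A * (∑ e ∈ Ec v, (1 - contrib I x y e))) =
      (1 - κ' - ξ) * E.card - A * (∑ e ∈ E, (1 - contrib I x y e)) := by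
    rw [Finset.sum_sub_distrib, ← Finset.mul_sum, ← Finset.mul_sum, hsumE]
    have h1 := hsumE (fun _ => 1)
    simp only [Finset.sum_const, nsmul_eq_mul, mul_one] at h1
    rw [h1]
  rw [hsum1] at hmain
  have hdefE : ∑ e ∈ E, (1 - contrib I x y e) ≤ ε * Fintype.card ι := by
    have h1 : ∑ e ∈ E, (1 - contrib I x y e) ≤ ∑ e, (1 - contrib I x y e) :=
      Finset.sum_le_sum_of_subset_of_nonneg (Finset.subset_univ _)
        (fun e _ _ => by linarith [contrib_le I x y hx hy e])
    have h2 : (𝔼 e, ∑ ω, ∑ i, x (I.src e) ω i * y (I.dst e) (I.perm e ω) i) =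
        (∑ e, contrib I x y e) / Fintype.card ι := by
      rw [Fintype.expect_eq_sum_div_card]
      rfl
    rw [h2, le_div_iff₀ hι] at hobj
    have h3 : ∑ e, (1 - contrib I x y e) = Fintype.card ι - ∑ e, contrib I x y e := by
      rw [Finset.sum_sub_distrib, Finset.sum_const, Finset.card_univ, nsmul_eq_mul, mul_one]
    rw [h3] at h1
    linarith
  have h5 : A * (∑ e ∈ E, (1 - contrib I x y e)) ≤ A * (ε * Fintype.card ι) :=
    mul_le_mul_of_nonneg_left hdefE hA0
  have h6 : (E.card : ℝ) ≤ Fintype.card ι := by exact_mod_cast Finset.card_le_univ E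
  have h7 : (θ - κ' - A * ε - ξ) * Fintype.card ι ≤ (1 - κ' - ξ) * E.card -
      A * (∑ e ∈ E, (1 - contrib I x y e)) := by
    have h8 : (κ' + ξ) * (E.card : ℝ) ≤ (κ' + ξ) * Fintype.card ι :=
      mul_le_mul_of_nonneg_left h6 (by positivity)
    linarith
  exact h7.trans (hmain.trans (hcount.trans (le_of_eq (by congr!))))

theorem value_nonneg' {U W Ω ι : Type} [Fintype Ω] [Nonempty Ω] [Fintype ι] [Nonempty ι]
    (I : Game U W Ω ι) : 0 ≤ I.value := by
  refine le_trans ?_ (le_value I (fun _ => Classical.arbitrary Ω) (fun _ => Classical.arbitrary Ω))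
  rw [Game.satFrac]
  positivity

/-- **The easy side with an explicit rate.** -/
theorem easy_rate (ε : ℝ) (hε : 0 < ε) (hε1 : ε ≤ 1) (P Q κ : Type) [Finite P]
    [Finite Q] [Fintype κ] (T : TypeGraph P Q κ) (U W Ω ι : Type) [Fintype Ω] [Nonempty Ω]
    [Fintype ι] [Nonempty ι] (I : Game U W Ω ι) (hI : Typed T I) (D : ℕ)
    (x : U → Ω → Fin D → ℝ) (y : W → Ω → Fin D → ℝ) (hx : ∀ u, IsSys (x u))
    (hy : ∀ w, IsSys (y w))
    (hobj : 1 - ε ≤ (𝔼 e, ∑ ω, ∑ i, x (I.src e) ω i * y (I.dst e) (I.perm e ω) i)) :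
    min 1 T.threshold - 2000 * Real.sqrt ε * (1 + Real.log (1 / ε)) ≤ I.value := by
  have hlog : 0 ≤ Real.log (1 / ε) := Real.log_nonneg ((one_le_div hε).2 hε1)
  have hs0 : 0 < Real.sqrt ε := Real.sqrt_pos.2 hε
  have hs1 : Real.sqrt ε * Real.sqrt ε = ε := Real.mul_self_sqrt hε.le
  have hs2 : Real.sqrt ε ≤ 1 := by
    rw [Real.sqrt_le_iff]
    exact ⟨by norm_num, by linarith⟩
  have hs3 : ε ≤ Real.sqrt ε := by
    have := mul_le_mul_of_nonneg_left hs2 hs0.le
    linarith
  set L : ℝ := 1 + Real.log (1 / ε) with hL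
  have hL1 : 1 ≤ L := by linarith
  set κ' : ℝ := 1000 * Real.sqrt ε * L with hκ'
  have hκ0 : 0 < κ' := by positivity
  rcases le_or_gt κ' 1 with h1 | h1
  · have h2 := easy_lin κ' hκ0 h1 ε P Q κ T U W Ω ι I hI D x y hx hy hobj
    have h3 : ε ≤ κ' := by
      have : 1000 * Real.sqrt ε * 1 ≤ κ' :=
        mul_le_mul_of_nonneg_left hL1 (by positivity)
      linarith
    have h4 : Real.log (1 / κ') ≤ Real.log (1 / ε) := by
      refine Real.log_le_log (by positivity) ?_
      exact one_div_le_one_div_of_le hε h3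
    have h5 : 0 ≤ Real.log (1 / κ') := Real.log_nonneg ((one_le_div hκ0).2 h1)
    have h6 : (1 + Real.log (1 / κ')) ^ 2 ≤ L ^ 2 :=
      pow_le_pow_left₀ (by linarith) (by linarith) 2
    have h7 : (1000000 * (1 + Real.log (1 / κ')) ^ 2 / κ') * ε ≤ κ' := by
      rw [div_mul_eq_mul_div, div_le_iff₀ hκ0]
      have h8 : κ' * κ' = 1000000 * L ^ 2 * ε := by
        rw [hκ']
        calc 1000 * Real.sqrt ε * L * (1000 * Real.sqrt ε * L) =
            1000000 * L ^ 2 * (Real.sqrt ε * Real.sqrt ε) := by ring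
          _ = _ := by rw [hs1]
      rw [h8]
      refine mul_le_mul_of_nonneg_right ?_ hε.le
      linarith
    have h8 : 2000 * Real.sqrt ε * L = 2 * κ' := by
      rw [hκ']
      ring
    rw [h8]
    linarith
  · have h2 := value_nonneg' I
    have h3 : min 1 T.threshold ≤ 1 := min_le_left _ _
    have h8 : 2000 * Real.sqrt ε * L = 2 * κ' := by
      rw [hκ']
      ring
    rw [h8]
    linarith

end Pool.Agent.P325t
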