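import Pool.Agent.Lib.P325t.Rank
import Pool.Agent.Lib.P325t.Easy
import Pool.Agent.Lib.P325t.Rate

/-!
# The easy side for weighted type graphs, with an explicit rate
-/

open Finset
open scoped BigOperators

namespace Pool.Agent.P325t

open Pool.Agent.P325f1f.Dich Pool.Agent.P325f1f.Amen

/-- The value of a game is attained. -/
theorem exists_value {U W Ω ι : Type} [Nonempty Ω] [Fintype ι] (I : Game U W Ω ι) :
    ∃ (p : U → Ω) (q : W → Ω), I.satFrac p q = I.value := by
  classical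
  have hne : Nonempty ((U → Ω) × (W → Ω)) :=
    ⟨(fun _ => Classical.arbitrary Ω, fun _ => Classical.arbitrary Ω)⟩
  have hfin : (Set.range (fun p : (U → Ω) × (W → Ω) => I.satFrac p.1 p.2)).Finite := by
    refine Set.Finite.subset (Set.finite_range
      (fun n : Fin (Fintype.card ι + 1) => (n.val : ℝ) / (Fintype.card ι : ℝ))) ?_
    rintro _ ⟨p, rfl⟩
    refine ⟨⟨(univ.filter (fun e => I.perm e (p.1 (I.src e)) = p.2 (I.dst e))).card,
      Nat.lt_succ_of_le (Finset.card_le_univ _)⟩, ?_⟩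
    simp only [Game.satFrac]
  obtain ⟨p, hp⟩ := (Set.range_nonempty _).csSup_mem hfin
  exact ⟨p.1, p.2, hp⟩

/-- The easy side for weighted type graphs: the constants. -/
theorem easyW_aux {P Q κ : Type} [Fintype κ] (T : TypeGraph P Q κ) (w : κ → ℕ)
    (hw : 0 < ∑ k, w k) {U W Ω ι : Type} [Fintype Ω] [Nonempty Ω] [Fintype ι] [Nonempty ι]
    (I : Game U W Ω ι) (hI : TypedWith T w I) (D : ℕ) (x : U → Ω → Fin D → ℝ)
    (y : W → Ω → Fin D → ℝ) (hx : ∀ u, IsSys (x u)) (hy : ∀ w, IsSys (y w))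
    (a B : ℝ) (ha : 0 ≤ a) (hB : 0 ≤ B)
    (hlin : ∀ (ι' : Type) [Fintype ι'] [Nonempty ι'] (J : Game U W Ω ι') (τ : Equiv.Perm Ω),
      (∀ e, J.perm e = 1 ∨ J.perm e = τ) → ∀ (x' : U → Ω → Fin D → ℝ)
        (y' : W → Ω → Fin D → ℝ), (∀ u, IsSys (x' u)) → (∀ w, IsSys (y' w)) →
        1 - a - B * (1 - (𝔼 e, ∑ ω, ∑ i, x' (J.src e) ω i * y' (J.dst e) (J.perm e ω) i)) ≤
          J.value) :
    (T.maxWeight w : ℝ) / ((∑ k, w k : ℕ) : ℝ) - a -
      B * (1 - (𝔼 e, ∑ ω, ∑ i, x (I.src e) ω i * y (I.dst e) (I.perm e ω) i)) ≤ I.value := by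
  classical
  obtain ⟨ta, tb, tc, σ, hty, hfreq⟩ := hI
  have hι : (0 : ℝ) < Fintype.card ι := by exact_mod_cast Fintype.card_pos
  have hn : (0 : ℝ) < ((∑ k, w k : ℕ) : ℝ) := by exact_mod_cast hw
  set n : ℝ := ((∑ k, w k : ℕ) : ℝ) with hndef
  obtain ⟨F, hFs, hFw⟩ := exists_sparse T w
  obtain ⟨f, hf, hinj⟩ := Sparse.exists_owner hFs
  obtain ⟨comp, g, τ, hg⟩ := exists_gauge T F f hf hinj σ
  -- the edges with type in `F`
  set E : Finset ι := univ.filter (fun e => tc e ∈ F) with hE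
  have hEcard : (E.card : ℝ) * n = T.maxWeight w * Fintype.card ι := by
    have h1 : E.card = ∑ k ∈ F, (univ.filter (fun e => tc e = k)).card := by
      rw [Finset.card_eq_sum_card_fiberwise (f := tc) (s := E) (t := F)
        (fun e he => (Finset.mem_filter.1 he).2)]
      refine Finset.sum_congr rfl (fun k hk => ?_)
      congr 1
      ext e
      simp only [Finset.mem_filter, mem_univ, true_and, hE]
      exact ⟨fun h => h.2, fun h => ⟨by rw [h]; exact hk, h⟩⟩
    have h2 : E.card * ∑ l, w l = T.maxWeight w * Fintype.card ι := by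
      rw [h1, Finset.sum_mul, ← hFw, Finset.sum_mul]
      refine Finset.sum_congr rfl (fun k _ => ?_)
      rw [← hfreq k]
    rw [hndef]
    exact_mod_cast h2
  -- the components
  set co : ι → P ⊕ Q := fun e => comp (Sum.inl (T.src (tc e))) with hco
  have hcoU : ∀ e, comp (Sum.inl (ta (I.src e))) = co e := fun e => by rw [(hty e).1]
  have hcoW : ∀ e ∈ E, comp (Sum.inr (tb (I.dst e))) = co e := fun e he => by
    rw [(hty e).2.1]
    exact (hg (tc e) (Finset.mem_filter.1 he).2).1.symm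
  set C : Finset (P ⊕ Q) := univ.image co with hC
  set Ec : P ⊕ Q → Finset ι := fun v => E.filter (fun e => co e = v) with hEc
  have hsumE : ∀ φ : ι → ℝ, ∑ v ∈ C, ∑ e ∈ Ec v, φ e = ∑ e ∈ E, φ e := fun φ =>
    Finset.sum_fiberwise_of_maps_to (fun e _ => Finset.mem_image_of_mem co (mem_univ e)) φ
  -- the gauged game on a component
  have hcomp : ∀ v : P ⊕ Q, ∃ (p : U → Ω) (q : W → Ω),
      (1 - a) * ((Ec v).card : ℝ) - B * (∑ e ∈ Ec v, (1 - contrib I x y e)) ≤
        (((Ec v).filter (fun e => I.perm e (g (Sum.inl (ta (I.src e))) (p (I.src e))) =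
          g (Sum.inr (tb (I.dst e))) (q (I.dst e)))).card : ℝ) := by
    intro v
    rcases (Ec v).eq_empty_or_nonempty with he | hne
    · refine ⟨fun _ => Classical.arbitrary Ω, fun _ => Classical.arbitrary Ω, ?_⟩
      rw [he]
      simp
    have hneE : Nonempty (Ec v) := by
      obtain ⟨e, he⟩ := hne
      exact ⟨⟨e, he⟩⟩
    have hcE : (0 : ℝ) < (Ec v).card := by exact_mod_cast hne.card_pos
    set J : Game U W Ω (Ec v) :=
      { src := fun e => I.src e.1
        dst := fun e => I.dst e.1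
        perm := fun e => (g (Sum.inr (tb (I.dst e.1))))⁻¹ * I.perm e.1 *
          g (Sum.inl (ta (I.src e.1))) } with hJ
    have hJperm : ∀ e, J.perm e = 1 ∨ J.perm e = τ v := by
      intro e
      have heE : e.1 ∈ E := (Finset.mem_filter.1 e.2).1
      have hev : co e.1 = v := (Finset.mem_filter.1 e.2).2
      have h1 := (hg (tc e.1) (Finset.mem_filter.1 heE).2).2
      have h2 : J.perm e = (g (Sum.inr (T.dst (tc e.1))))⁻¹ * σ (tc e.1) *
          g (Sum.inl (T.src (tc e.1))) := by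
        show (g (Sum.inr (tb (I.dst e.1))))⁻¹ * I.perm e.1 * g (Sum.inl (ta (I.src e.1))) = _
        rw [(hty e.1).1, (hty e.1).2.1, (hty e.1).2.2]
      rw [h2]
      rcases h1 with h1 | h1
      · exact Or.inl h1
      · right
        rw [h1]
        exact congrArg τ hev
    have hobj : (𝔼 e : Ec v, ∑ ω, ∑ i, x (J.src e) (g (Sum.inl (ta (J.src e))) ω) i *
        y (J.dst e) (g (Sum.inr (tb (J.dst e))) (J.perm e ω)) i) =
        (∑ e ∈ Ec v, contrib I x y e) / (Ec v).card := by
      have h1 : ∀ e : Ec v, (∑ ω, ∑ i, x (J.src e) (g (Sum.inl (ta (J.src e))) ω) i *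
          y (J.dst e) (g (Sum.inr (tb (J.dst e))) (J.perm e ω)) i) = contrib I x y e.1 := by
        intro e
        rw [contrib, ← Equiv.sum_comp (g (Sum.inl (ta (I.src e.1))))
          (fun ω => ∑ i, x (I.src e.1) ω i * y (I.dst e.1) (I.perm e.1 ω) i)]
        refine Finset.sum_congr rfl (fun ω _ => Finset.sum_congr rfl (fun i _ => ?_))
        show x (I.src e.1) (g (Sum.inl (ta (I.src e.1))) ω) i *
          y (I.dst e.1) (g (Sum.inr (tb (I.dst e.1)))
            (((g (Sum.inr (tb (I.dst e.1))))⁻¹ * I.perm e.1 *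
        g (Sum.inl (ta (I.src e.1)))) ω)) i = _
        simp [Equiv.Perm.mul_apply]
      rw [Finset.expect_congr rfl (fun e _ => h1 e), Fintype.expect_eq_sum_div_card,
        Fintype.card_coe, Finset.sum_coe_sort (Ec v) (contrib I x y)]
    have hval := hlin (Ec v) J (τ v) hJperm
      (fun u ω => x u (g (Sum.inl (ta u)) ω)) (fun w ω => y w (g (Sum.inr (tb w)) ω))
      (fun u => isSys_comp (hx u) _) (fun w => isSys_comp (hy w) _)
    rw [hobj] at hval
    obtain ⟨p, q, hpq⟩ := exists_value J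
    refine ⟨p, q, ?_⟩
    rw [← hpq, Game.satFrac, Fintype.card_coe, le_div_iff₀ hcE] at hval
    have h2 : ((univ.filter (fun e : Ec v => J.perm e (p (J.src e)) = q (J.dst e))).card : ℝ) =
        (((Ec v).filter (fun e => I.perm e (g (Sum.inl (ta (I.src e))) (p (I.src e))) =
        g (Sum.inr (tb (I.dst e))) (q (I.dst e)))).card : ℝ) := by
      congr 1
      refine Finset.card_bij (fun e _ => e.1) ?_ ?_ ?_
      · intro e he
        rw [Finset.mem_filter]
        refine ⟨e.2, ?_⟩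
        have h3 := (Finset.mem_filter.1 he).2
        rw [← h3]
        show _ = g (Sum.inr (tb (I.dst e.1))) (((g (Sum.inr (tb (I.dst e.1))))⁻¹ *
          I.perm e.1 * g (Sum.inl (ta (I.src e.1)))) (p (I.src e.1)))
        simp [Equiv.Perm.mul_apply]
      · intro e _ e' _ h
        exact Subtype.ext h
      · intro e he
        rw [Finset.mem_filter] at he
        refine ⟨⟨e, he.1⟩, ?_, rfl⟩
        rw [Finset.mem_filter]
        refine ⟨mem_univ _, ?_⟩
        show ((g (Sum.inr (tb (I.dst e))))⁻¹ * I.perm e * g (Sum.inl (ta (I.src e))))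
          (p (I.src e)) = q (I.dst e)
        rw [Equiv.Perm.mul_apply, Equiv.Perm.mul_apply, he.2]
        simp
    rw [← h2]
    have h3 : (1 - a - B * (1 - (∑ e ∈ Ec v, contrib I x y e) / (Ec v).card)) *
        ((Ec v).card : ℝ) = (1 - a) * ((Ec v).card : ℝ) -
          B * (∑ e ∈ Ec v, (1 - contrib I x y e)) := by
      rw [Finset.sum_sub_distrib, Finset.sum_const, nsmul_eq_mul, mul_one]
      field_simp
    rw [h3] at hval
    refine hval.trans (le_of_eq ?_)
    congr!
  choose p q hpq using hcomp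
  -- the labeling
  set X : U → Ω := fun u => g (Sum.inl (ta u)) (p (comp (Sum.inl (ta u))) u) with hX
  set Y : W → Ω := fun w => g (Sum.inr (tb w)) (q (comp (Sum.inr (tb w))) w) with hY
  refine le_trans ?_ (le_value I X Y)
  rw [Game.satFrac, le_div_iff₀ hι]
  have hcount : ∑ v ∈ C, (((Ec v).filter (fun e => I.perm e (g (Sum.inl (ta (I.src e)))
      (p v (I.src e))) = g (Sum.inr (tb (I.dst e))) (q v (I.dst e)))).card : ℝ) ≤
      ((univ.filter (fun e => I.perm e (X (I.src e)) = Y (I.dst e))).card : ℝ) := by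
    rw [← Nat.cast_sum]
    have h1 : ∑ v ∈ C, ((Ec v).filter (fun e => I.perm e (g (Sum.inl (ta (I.src e)))
      (p v (I.src e))) = g (Sum.inr (tb (I.dst e))) (q v (I.dst e)))).card =
      (C.biUnion (fun v => (Ec v).filter (fun e => I.perm e (g (Sum.inl (ta (I.src e)))
      (p v (I.src e))) = g (Sum.inr (tb (I.dst e))) (q v (I.dst e))))).card := by
      rw [Finset.card_biUnion]
      intro v _ v' _ hvv'
      refine Finset.disjoint_left.2 ?_
      intro e he he'
      have h2 := (Finset.mem_filter.1 (Finset.mem_filter.1 he).1).2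
      have h3 := (Finset.mem_filter.1 (Finset.mem_filter.1 he').1).2
      exact hvv' (h2.symm.trans h3)
    rw [h1]
    refine Nat.cast_le.2 (Finset.card_le_card ?_)
    intro e he
    rw [Finset.mem_biUnion] at he
    obtain ⟨v, _, he⟩ := he
    rw [Finset.mem_filter] at he
    obtain ⟨he1, he2⟩ := he
    rw [hEc] at he1
    have he3 := Finset.mem_filter.1 he1
    rw [Finset.mem_filter]
    refine ⟨mem_univ _, ?_⟩
    show I.perm e (g (Sum.inl (ta (I.src e))) (p (comp (Sum.inl (ta (I.src e)))) (I.src e))) =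
      g (Sum.inr (tb (I.dst e))) (q (comp (Sum.inr (tb (I.dst e)))) (I.dst e))
    rw [hcoU e, hcoW e he3.1, he3.2]
    exact he2
  have hmain := Finset.sum_le_sum (fun v (_ : v ∈ C) => hpq v)
  have hsum1 : ∑ v ∈ C, ((1 - a) * ((Ec v).card : ℝ) -
      B * (∑ e ∈ Ec v, (1 - contrib I x y e))) =
      (1 - a) * E.card - B * (∑ e ∈ E, (1 - contrib I x y e)) := by
    rw [Finset.sum_sub_distrib, ← Finset.mul_sum, ← Finset.mul_sum, hsumE]
    have h1 := hsumE (fun _ => 1)
    simp only [Finset.sum_const, nsmul_eq_mul, mul_one] at h1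
    rw [h1]
  rw [hsum1] at hmain
  have hdefE : ∑ e ∈ E, (1 - contrib I x y e) ≤
      (1 - (𝔼 e, ∑ ω, ∑ i, x (I.src e) ω i * y (I.dst e) (I.perm e ω) i)) *
        Fintype.card ι := by
    have h1 : ∑ e ∈ E, (1 - contrib I x y e) ≤ ∑ e, (1 - contrib I x y e) :=
      Finset.sum_le_sum_of_subset_of_nonneg (Finset.subset_univ _)
        (fun e _ _ => by linarith [contrib_le I x y hx hy e])
    have h2 : (𝔼 e, ∑ ω, ∑ i, x (I.src e) ω i * y (I.dst e) (I.perm e ω) i) =
        (∑ e, contrib I x y e) / Fintype.card ι := by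
      rw [Fintype.expect_eq_sum_div_card]
      rfl
    have h3 : ∑ e, (1 - contrib I x y e) = Fintype.card ι - ∑ e, contrib I x y e := by
      rw [Finset.sum_sub_distrib, Finset.sum_const, Finset.card_univ, nsmul_eq_mul, mul_one]
    rw [h3] at h1
    rw [h2, sub_mul, div_mul_cancel₀ _ hι.ne']
    linarith
  have h5 := mul_le_mul_of_nonneg_left hdefE hB
  have h6 : (E.card : ℝ) ≤ Fintype.card ι := by exact_mod_cast Finset.card_le_univ E
  have h7 : (E.card : ℝ) = (T.maxWeight w : ℝ) / n * Fintype.card ι := by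
    rw [div_mul_eq_mul_div, eq_div_iff hn.ne']
    exact hEcard
  have h8 : a * (E.card : ℝ) ≤ a * Fintype.card ι := mul_le_mul_of_nonneg_left h6 ha
  have h9 := hmain.trans (hcount.trans (le_of_eq (by congr! :
    ((univ.filter (fun e => I.perm e (X (I.src e)) = Y (I.dst e))).card : ℝ) = _)))
  refine le_trans ?_ h9
  rw [sub_mul, sub_mul, ← h7]
  linarith

/-- The easy side for weighted type graphs, with an explicit rate. -/
theorem easyW (ε : ℝ) (hε : 0 < ε) (hε1 : ε ≤ 1) {P Q κ : Type} [Fintype κ]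
    (T : TypeGraph P Q κ) (w : κ → ℕ) (hw : 0 < ∑ k, w k) {U W Ω ι : Type} [Fintype Ω]
    [Nonempty Ω] [Fintype ι] [Nonempty ι] (I : Game U W Ω ι) (hI : TypedWith T w I) (D : ℕ)
    (x : U → Ω → Fin D → ℝ) (y : W → Ω → Fin D → ℝ) (hx : ∀ u, IsSys (x u))
    (hy : ∀ w, IsSys (y w))
    (hobj : 1 - ε ≤ (𝔼 e, ∑ ω, ∑ i, x (I.src e) ω i * y (I.dst e) (I.perm e ω) i)) :
    (T.maxWeight w : ℝ) / ((∑ k, w k : ℕ) : ℝ) - 2000 * (√ε * (1 + Real.log (1 / ε))) ≤
      I.value := by
  have hlog : 0 ≤ Real.log (1 / ε) := Real.log_nonneg (by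
    rw [le_div_iff₀ hε]
    linarith)
  set L : ℝ := 1 + Real.log (1 / ε) with hL
  have hL1 : 1 ≤ L := by linarith
  have hs0 : 0 < √ε := Real.sqrt_pos.2 hε
  have hn : (0 : ℝ) < ((∑ k, w k : ℕ) : ℝ) := by exact_mod_cast hw
  have hM1 : (T.maxWeight w : ℝ) / ((∑ k, w k : ℕ) : ℝ) ≤ 1 := by
    rw [div_le_one hn]
    obtain ⟨F, _, hF⟩ := exists_sparse T w
    rw [← hF]
    exact_mod_cast Finset.sum_le_sum_of_subset (Finset.subset_univ F)
  by_cases hk : 1000 * (√ε * L) ≤ 1
  · set k0 : ℝ := 1000 * (√ε * L) with hk0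
    have hk00 : 0 < k0 := by positivity
    have hlog2 : Real.log (1 / k0) ≤ Real.log (1 / ε) := by
      refine Real.log_le_log (by positivity) ?_
      refine one_div_le_one_div_of_le hε ?_
      have h1 : √ε ≤ 1 := by
        exact Real.sqrt_le_one.2 hε1
      have h2 : ε = √ε * √ε := (Real.mul_self_sqrt hε.le).symm
      rw [hk0]
      nlinarith
    have hlog3 : 0 ≤ Real.log (1 / k0) := Real.log_nonneg (by
      rw [le_div_iff₀ hk00]
      linarith)
    set B : ℝ := 10 ^ 6 * (1 + Real.log (1 / k0)) ^ 2 / k0 with hB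
    have hB0 : 0 ≤ B := by positivity
    have h1 := easyW_aux T w hw I hI D x y hx hy k0 B hk00.le hB0
      (fun ι' _ _ J τ hJ x' y' hx' hy' => by
        have h := lin_Z k0 hk00 hk J τ hJ D x' y' hx' hy'
        have e1 : (10 : ℝ) ^ 6 = 1000000 := by norm_num
        rw [hB, e1]
        exact h)
    have h2 : B * ε ≤ k0 := by
      have h3 : (1 + Real.log (1 / k0)) ^ 2 ≤ L ^ 2 := by
        refine pow_le_pow_left₀ (by linarith) (by linarith) 2
      rw [hB, div_mul_eq_mul_div, div_le_iff₀ hk00]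
      have h4 : k0 * k0 = 10 ^ 6 * L ^ 2 * ε := by
        rw [hk0]
        have h2 : √ε * √ε = ε := Real.mul_self_sqrt hε.le
        calc 1000 * (√ε * L) * (1000 * (√ε * L)) = 10 ^ 6 * L ^ 2 * (√ε * √ε) := by ring
          _ = _ := by rw [h2]
      rw [h4]
      nlinarith
    have h5 : B * (1 - (𝔼 e, ∑ ω, ∑ i, x (I.src e) ω i * y (I.dst e) (I.perm e ω) i)) ≤
        B * ε := mul_le_mul_of_nonneg_left (by linarith) hB0
    rw [hk0] at h1 h2
    linarith
  · push Not at hk
    have := value_nonneg I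
    linarith

end Pool.Agent.P325t
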