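import Pool.Agent.Lib.P325t.Long

/-!
# The hard side, including the boundary
-/

open Finset
open scoped BigOperators

namespace Pool.Agent.P325t

open Pool.Agent.P325f1f.Dich

/-- Involutions without short relations, indexed by any finite type. -/
theorem exists_girth' (κ : Type) [Fintype κ] (N : ℕ) : ∃ (Ω : Type) (_ : Fintype Ω)
    (_ : Nonempty Ω) (σ : κ → Equiv.Perm Ω), (∀ k ω, σ k (σ k ω) = ω) ∧
      ∀ l : List κ, l ≠ [] → l.length ≤ N → Red l →
        ∀ ω, wact (fun k ω => σ k ω) l ω ≠ ω := by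
  classical
  obtain ⟨Ω, h1, h2, σ, hinv, hred⟩ := exists_girth (Fintype.card κ) N
  set e : κ ≃ Fin (Fintype.card κ) := Fintype.equivFin κ
  have hmap : ∀ l : List κ, Red l → Red (l.map e) := by
    intro l
    induction l with
    | nil => exact fun h => h
    | cons a l ih =>
      intro h
      cases l with
      | nil => trivial
      | cons b l => exact ⟨fun h' => h.1 (e.injective h'), ih h.2⟩
  have hact : ∀ (l : List κ) (ω : Ω), wact (fun k ω => σ (e k) ω) l ω =
      wact (fun k ω => σ k ω) (l.map e) ω := by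
    intro l ω
    induction l with
    | nil => rfl
    | cons a l ih =>
      show σ (e a) (wact (fun k ω => σ (e k) ω) l ω) = _
      rw [ih]
      rfl
  refine ⟨Ω, h1, h2, fun k => σ (e k), fun k ω => hinv _ _, ?_⟩
  intro l hl hlN hr ω
  rw [hact]
  exact hred (l.map e) (by simpa using hl) (by simpa using hlN) (hmap l hr) ω

theorem verts_sub {P Q κ : Type} (T : TypeGraph P Q κ) (F : Finset κ) :
    (T.sub F).verts univ = T.verts F := by
  classical
  have h1 : ∀ {R : Type} (s : κ → R) [DecidableEq R],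
      ((univ : Finset F).image (fun k => s k.1)) = F.image s := by
    intro R s _
    ext r
    simp
  unfold TypeGraph.verts
  exact congrArg₂ (· + ·) (congrArg Finset.card (h1 T.src)) (congrArg Finset.card (h1 T.dst))

theorem exists_min {P Q κ : Type} [Fintype κ] [Nonempty κ] (T : TypeGraph P Q κ) :
    ∃ F : Finset κ, F.Nonempty ∧ T.threshold = (T.verts F : ℝ) / (F.card : ℝ) := by
  classical
  obtain ⟨k0⟩ := ‹Nonempty κ›
  have hne : Nonempty {F : Finset κ // F.Nonempty} := ⟨⟨{k0}, Finset.singleton_nonempty k0⟩⟩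
  obtain ⟨F, hF⟩ := exists_eq_ciInf_of_finite
    (f := fun F : {F : Finset κ // F.Nonempty} => (T.verts F.1 : ℝ) / (F.1.card : ℝ))
  exact ⟨F.1, F.2, hF.symm⟩

theorem verts_pos {P Q κ : Type} (T : TypeGraph P Q κ) {F : Finset κ} (hF : F.Nonempty) :
    0 < T.verts F := by
  classical
  unfold TypeGraph.verts
  have := (hF.image T.src).card_pos
  omega

/-- The hard side: soundness strictly below the threshold. -/
theorem hard {P Q κ : Type} [Fintype κ] [Nonempty κ] (T : TypeGraph P Q κ) (t : ℕ)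
    (ht : 1 ≤ t) :
    ∃ (F : Finset κ) (Ω : Type) (_ : Fintype Ω) (_ : Nonempty Ω) (σ : κ → Equiv.Perm Ω)
      (c M : ℝ), 0 < c ∧
      ∀ (U W Λ ι : Type) [Fintype Λ] [DecidableEq Λ] [Nonempty Λ] [Fintype ι] [Nonempty ι]
        (I : Game U W Λ ι),
        Typed T (typedGame t (T.sub F) (fun k => σ k.1) I) ∧
        (1 - 1 / (t : ℝ)) * I.value ≤ (typedGame t (T.sub F) (fun k => σ k.1) I).value ∧
        (typedGame t (T.sub F) (fun k => σ k.1) I).value ≤ T.threshold - c + M * I.value := by
  classical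
  obtain ⟨F, hF, hθ⟩ := exists_min T
  have hn : (0 : ℝ) < F.card := by exact_mod_cast hF.card_pos
  have hV : (0 : ℝ) < T.verts F := by exact_mod_cast verts_pos T hF
  set θ : ℝ := T.threshold with hθdef
  have hθ0 : 0 < θ := by rw [hθ]; positivity
  -- the two scales
  set θ2 : ℝ := min (θ / 10) 1 with hθ2
  have h20 : 0 < θ2 := lt_min (by positivity) one_pos
  have h21 : θ2 ≤ 1 := min_le_right _ _
  have h2θ : 5 * θ2 ≤ θ / 2 := by
    have := min_le_left (θ / 10) 1
    linarith
  set η2 : ℝ := (θ2 ^ 2) ^ (4 * t) with hη2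
  have hη20 : 0 < η2 := by positivity
  set θ1 : ℝ := min (min (η2 / (6 * F.card)) (θ / 2)) 1 with hθ1
  have h10 : 0 < θ1 := lt_min (lt_min (by positivity) (by positivity)) one_pos
  have h11 : θ1 ≤ 1 := min_le_right _ _
  have h1θ : θ1 ≤ θ / 2 := (min_le_left _ _).trans (min_le_right _ _)
  have h1η : 6 * F.card * θ1 ≤ η2 := by
    have : θ1 ≤ η2 / (6 * F.card) := (min_le_left _ _).trans (min_le_left _ _)
    rw [le_div_iff₀ (by positivity)] at this
    linarith
  have hη10 : 0 < (θ1 ^ 2) ^ (4 * t) := by positivity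
  obtain ⟨Ω, fΩ, nΩ, σ', hinv, hred⟩ := exists_girth' F
    ⌈((T.sub F).verts univ : ℝ) / (θ1 ^ 2) ^ (4 * t)⌉₊
  have hneF : Nonempty F := by
    obtain ⟨k, hk⟩ := hF
    exact ⟨⟨k, hk⟩⟩
  have hcard : (Fintype.card F : ℝ) = F.card := by rw [Fintype.card_coe]
  have hverts : ((T.sub F).verts univ : ℝ) = θ * F.card := by
    rw [verts_sub, hθ, div_mul_cancel₀ _ hn.ne']
  obtain ⟨M, hM⟩ := sound_scales (J := Bool) (T.sub F) σ' t ht
    (fun b => if b then θ1 else θ2) (by rintro (_ | _) <;> simp [h10, h20])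
    (by rintro (_ | _) <;> simp [h11, h21]) (θ - θ1) (by linarith) (by
      intro μ ν hμ hν hμ1 hν1
      by_cases hm : ∃ k ω, 6 * F.card * θ1 ≤ μ ((T.sub F).src k) ω ∨
          6 * F.card * θ1 ≤ ν ((T.sub F).dst k) ω
      · refine ⟨true, ?_⟩
        obtain ⟨k, ω, hk⟩ := hm
        have hg := forest_gain (T.sub F) σ' hinv _ hη10 _ (Nat.le_ceil _) hred μ ν hμ hν hμ1 hν1
        have hbd : heavySum (T.sub F) σ' ((θ1 ^ 2) ^ (4 * t)) μ ν + 6 * F.card * θ1 ≤
            (T.sub F).verts univ := by
          rcases hk with hk | hk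
          · have := hg.1 k ω
            linarith
          · have := hg.2 k ω
            linarith
        have h3 : heavySum (T.sub F) σ' ((θ1 ^ 2) ^ (4 * t)) μ ν / (Fintype.card F : ℝ) ≤
            θ - 6 * θ1 := by
          rw [hcard, div_le_iff₀ hn]
          rw [hverts] at hbd
          linarith
        simp only [if_true]
        linarith
      · refine ⟨false, ?_⟩
        push Not at hm
        have h3 : heavySum (T.sub F) σ' η2 μ ν = 0 := by
          unfold heavySum
          refine Finset.sum_eq_zero (fun k _ => Finset.sum_eq_zero (fun ω _ => ?_))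
          rw [if_neg]
          rintro ⟨h4, -⟩
          have := (hm k ω).1
          linarith
        simp only [Bool.false_eq_true, if_false]
        rw [← hη2, h3, zero_div]
        linarith)
  set σ : κ → Equiv.Perm Ω := fun k => if h : k ∈ F then σ' ⟨k, h⟩ else 1 with hσdef
  have hσ : (fun k : F => σ k.1) = σ' := by
    funext k
    exact dif_pos k.2
  refine ⟨F, Ω, fΩ, nΩ, σ, θ1, M, h10, ?_⟩
  intro U W Λ ι _ _ _ _ _ I
  refine ⟨typed_sub t T F σ I, ?_, ?_⟩
  · rw [hσ]
    exact typed_complete t ht (T.sub F) σ' I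
  · rw [hσ]
    exact hM U W Λ ι I

end Pool.Agent.P325t
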