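import Pool.Agent.Lib.P325t.SdpLift
import Pool.Agent.Lib.P325t.Hard
import Pool.Agent.Lib.P325x.Main

/-!
# Typed games with a large gap between the semidefinite relaxation and the value

For every type graph `T` there are games typed over `T` whose value is less than the threshold of `T` and
which have vector solutions of objective close to one. The vector solutions of the typed long code games of
the noise games of `Pool/Agent/Lib/P325x`.
-/

open Finset
open scoped BigOperators

namespace Pool.Agent.P325t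

open Pool.Agent.P325f1f.Dich Pool.Agent.P325f1f.Amen

/-- The game as a game in the sense of `Dich`. -/
def ofX {U W Ω ι : Type} (G : Pool.Agent.Lib.P325x.Game U W Ω ι) : Game U W Ω ι where
  src := G.src
  dst := G.dst
  perm := G.perm

theorem ofX_value {U W Ω ι : Type} [Fintype ι] (G : Pool.Agent.Lib.P325x.Game U W Ω ι) :
    (ofX G).value = G.value := rfl

section

variable {V Ω K : Type} [Fintype Ω] [Fintype K]

/-- The coordinates of the vectors. -/
noncomputable def ofE (X : V → Ω → EuclideanSpace ℝ K) : V → Ω → Fin (Fintype.card K) → ℝ :=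
  fun v ω i => X v ω ((Fintype.equivFin K).symm i)

omit [Fintype Ω] in
theorem ofE_inner (X : V → Ω → EuclideanSpace ℝ K) (v v' : V) (ω ω' : Ω) :
    ∑ i, ofE X v ω i * ofE X v' ω' i = inner ℝ (X v ω) (X v' ω') := by
  unfold ofE
  rw [PiLp.inner_apply, Equiv.sum_comp (Fintype.equivFin K).symm
    (fun k => X v ω k * X v' ω' k)]
  refine Finset.sum_congr rfl fun k _ => ?_
  simp only [RCLike.inner_apply, conj_trivial]
  ring

theorem ofE_isSol {X : V → Ω → EuclideanSpace ℝ K}
    (hX : Pool.Agent.Lib.P325x.IsSDPSolution X) : IsSol (ofE X) := by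
  obtain ⟨h1, h2, z, hz, h3⟩ := hX
  refine ⟨fun v => ⟨fun ω ω' hne => ?_, ?_⟩, fun v v' ω ω' => ?_, ⟨fun i =>
    z ((Fintype.equivFin K).symm i), fun v i => ?_⟩⟩
  · rw [ofE_inner]
    exact h1 v ω ω' hne
  · have h4 : ∀ ω, nsq (ofE X v ω) = inner ℝ (X v ω) (X v ω) := by
      intro ω
      rw [← ofE_inner]
      unfold nsq
      exact Finset.sum_congr rfl fun i _ => sq _
    rw [Finset.sum_congr rfl fun ω _ => h4 ω]
    have h5 : inner ℝ z z = (1 : ℝ) := by
      rw [real_inner_self_eq_norm_sq, hz, one_pow]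
    rw [← h5, ← h3 v, sum_inner]
    refine Finset.sum_congr rfl fun ω _ => ?_
    rw [inner_sum, Finset.sum_eq_single ω]
    · intro ω' _ hne
      exact h1 v ω ω' hne.symm
    · intro h
      exact absurd (Finset.mem_univ _) h
  · rw [ofE_inner]
    exact h2 v v' ω ω'
  · unfold ofE
    rw [← h3 v]
    simp

end

/-- Games of small value with vector solutions of objective close to one. -/
theorem gap_games (s δ : ℝ) (hs : s < 1) (hδ : 0 < δ) :
    ∃ (U W Λ ι : Type) (_ : Fintype Λ) (_ : DecidableEq Λ) (_ : Nonempty Λ) (_ : Fintype ι)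
      (_ : Nonempty ι) (I : Game U W Λ ι) (D : ℕ) (X : U ⊕ W → Λ → Fin D → ℝ),
      IsSol X ∧ s ≤ sdpObj I X ∧ I.value ≤ δ := by
  classical
  set s' : ℝ := max s (1 / 2) with hs'
  have h0 : 0 < s' := lt_of_lt_of_le (by norm_num) (le_max_right _ _)
  have h1 : s' < 1 := max_lt hs (by norm_num)
  have h2 : s' ^ 2 < 1 := by nlinarith
  obtain ⟨n, q, m, -, hobj, hval⟩ :=
    Pool.Agent.Lib.P325x.gap_instances (μ := s' ^ 2) h2 h0 le_rfl hδ
  set G := Pool.Agent.Lib.P325x.noiseGame n q m with hG
  have hne : Nonempty (Pool.Agent.Lib.P325x.Cu n ×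
      (Pool.Agent.Lib.P325x.Pt n → Fin q)) := by
    by_contra hcon
    rw [not_nonempty_iff] at hcon
    rw [Pool.Agent.Lib.P325x.Game.sdpObjective, Fintype.card_eq_zero, Nat.cast_zero, div_zero]
      at hobj
    linarith
  refine ⟨_, _, _, _, inferInstance, inferInstance, ⟨0⟩, inferInstance, hne, ofX G, _,
    ofE (Pool.Agent.Lib.P325x.sol (n := n)), ofE_isSol (Pool.Agent.Lib.P325x.sol_isSDP n), ?_, ?_⟩
  · refine (le_max_left _ _).trans (hobj.trans (le_of_eq ?_))
    unfold sdpObj Pool.Agent.Lib.P325x.Game.sdpObjective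
    rw [Fintype.expect_eq_sum_div_card]
    congr 1
    refine Finset.sum_congr rfl fun e _ => Finset.sum_congr rfl fun ω _ => ?_
    rw [ofE_inner]
    rfl
  · rw [ofX_value]
    exact hval

/-- The semidefinite relaxation does not certify the threshold of a type graph. -/
theorem sdp_gap {P Q κ : Type} [Fintype κ] [Nonempty κ] (T : TypeGraph P Q κ) (ε : ℝ)
    (hε : 0 < ε) :
    ∃ (U W Ω ι : Type) (_ : Fintype Ω) (_ : Nonempty Ω) (_ : Fintype ι) (_ : Nonempty ι)
      (J : Game U W Ω ι) (D : ℕ) (X : U ⊕ W → Ω → Fin D → ℝ),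
      Typed T J ∧ IsSol X ∧ 1 - ε ≤ sdpObj J X ∧ J.value < T.threshold := by
  classical
  set ε' : ℝ := min ε 1 with hε'
  have h0 : 0 < ε' := lt_min hε one_pos
  have h1 : ε' ≤ 1 := min_le_right _ _
  obtain ⟨t, ht⟩ := exists_nat_gt (2 / ε')
  have ht2 : (2 : ℝ) < t := by
    refine lt_of_le_of_lt ?_ ht
    rw [le_div_iff₀ h0]
    linarith
  have ht1 : 1 ≤ t := by
    have : (1 : ℝ) ≤ t := by linarith
    exact_mod_cast this
  obtain ⟨F, Ω, _, _, σ, c, M, hc, hgame⟩ := hard T t ht1
  obtain ⟨U, W, Λ, ι, _, _, _, _, _, I, D, X, hX, hobj, hval⟩ :=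
    gap_games (1 - ε' / 2) (c / (2 * (|M| + 1))) (by linarith) (by positivity)
  obtain ⟨hT, hcomp, hsound⟩ := hgame U W Λ ι I
  have hpos : 0 < I.value := value_pos I
  have htr : 1 / (t : ℝ) < ε' / 2 := by
    rw [div_lt_iff₀ (by linarith)]
    rw [div_lt_iff₀ h0] at ht
    linarith
  have hFne : Nonempty F := by
    by_contra hcon
    rw [not_nonempty_iff] at hcon
    have h2 : (typedGame t (T.sub F) (fun k => σ k.1) I).value ≤ 0 := by
      refine Real.iSup_le (fun p => ?_) le_rfl
      rw [Game.satFrac]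
      have h3 : Fintype.card (ι × F × (Λ → Ω) × (Λ → Fin t × Ω)) = 0 := by
        rw [Fintype.card_eq_zero_iff]
        infer_instance
      rw [h3, Nat.cast_zero, div_zero]
    have h3 : 0 < (1 - 1 / (t : ℝ)) * I.value := mul_pos (by linarith) hpos
    linarith
  have hne : Nonempty (Fin t × Ω) := ⟨(⟨0, ht1⟩, Classical.arbitrary Ω)⟩
  refine ⟨_, _, Ω, _, inferInstance, inferInstance, inferInstance, inferInstance,
    typedGame t (T.sub F) (fun k => σ k.1) I, D, typedSol P Q Ω X, hT, typedSol_isSol hX, ?_, ?_⟩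
  · have h2 := typedSol_obj t ht1 (T.sub F) (fun k => σ k.1) I hX
    refine le_trans ?_ h2
    have h3 : (1 - ε' / 2) * (1 - ε' / 2) ≤ (1 - 1 / (t : ℝ)) * sdpObj I X := by
      refine mul_le_mul (by linarith) hobj (by linarith) (by linarith)
    have h4 : ε' ≤ ε := min_le_left _ _
    nlinarith
  · have h2 : M * I.value ≤ c / 2 := by
      have h3 : M * I.value ≤ |M| * (c / (2 * (|M| + 1))) := by
        refine (mul_le_mul_of_nonneg_right (le_abs_self M) hpos.le).trans ?_
        exact mul_le_mul_of_nonneg_left hval (abs_nonneg M)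
      refine h3.trans ?_
      rw [mul_div_assoc', div_le_div_iff₀ (by positivity) two_pos]
      have := abs_nonneg M
      nlinarith
    linarith

end Pool.Agent.P325t
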