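import Pool.Agent.Lib.P325t.WLong
import Pool.Agent.Lib.P325t.Hard
import Pool.Agent.Lib.P325t.Rank

/-!
# The hard side for weighted type graphs, including the boundary
-/

open Finset
open scoped BigOperators

namespace Pool.Agent.P325t

open Pool.Agent.P325f1f.Dich

theorem hsum_nonneg {P Q κ Ω : Type} [Fintype Ω] (T : TypeGraph P Q κ)
    (σ : κ → Equiv.Perm Ω) (η : ℝ) {μ : P → Ω → ℝ} {ν : Q → Ω → ℝ} (hμ : ∀ p ω, 0 ≤ μ p ω)
    (hν : ∀ q ω, 0 ≤ ν q ω) (k : κ) : 0 ≤ hsum T σ η μ ν k := by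
  refine Finset.sum_nonneg (fun ω _ => ?_)
  split_ifs
  · exact le_min (hμ _ _) (hν _ _)
  · exact le_rfl

theorem hsum_le_one {P Q κ Ω : Type} [Fintype Ω] (T : TypeGraph P Q κ)
    (σ : κ → Equiv.Perm Ω) (η : ℝ) {μ : P → Ω → ℝ} {ν : Q → Ω → ℝ} (hμ : ∀ p ω, 0 ≤ μ p ω)
    (hμ1 : ∀ p, ∑ ω, μ p ω = 1) (k : κ) : hsum T σ η μ ν k ≤ 1 := by
  rw [← hμ1 (T.src k)]
  refine Finset.sum_le_sum (fun ω _ => ?_)
  split_ifs
  · exact min_le_left _ _
  · exact hμ _ _

theorem verts_le {P Q κ : Type} [Fintype κ] (T : TypeGraph P Q κ) (F : Finset κ) :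
    T.verts F ≤ 2 * Fintype.card κ := by
  classical
  unfold TypeGraph.verts
  have h1 := (Finset.card_image_le (s := F) (f := T.src)).trans (Finset.card_le_univ F)
  have h2 := (Finset.card_image_le (s := F) (f := T.dst)).trans (Finset.card_le_univ F)
  omega

/-- The forest bound for every set of edge types, with the gain of one label. -/
theorem hsum_forest {P Q κ Ω : Type} [Fintype κ] [Fintype Ω] (T : TypeGraph P Q κ)
    (σ : κ → Equiv.Perm Ω) (hinv : ∀ k ω, σ k (σ k ω) = ω) (η : ℝ) (hη : 0 < η) (N : ℕ)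
    (hN : 2 * (Fintype.card κ : ℝ) / η ≤ N)
    (hred : ∀ l : List κ, l ≠ [] → l.length ≤ N → Red l →
        ∀ ω, wact (fun k ω => σ k ω) l ω ≠ ω)
    (μ : P → Ω → ℝ) (ν : Q → Ω → ℝ) (hμ : ∀ p ω, 0 ≤ μ p ω) (hν : ∀ q ω, 0 ≤ ν q ω)
    (hμ1 : ∀ p, ∑ ω, μ p ω = 1) (hν1 : ∀ q, ∑ ω, ν q ω = 1) (F : Finset κ) (k : κ)
    (hk : k ∈ F) (ω : Ω) :
    ∑ l ∈ F, hsum T σ η μ ν l + μ (T.src k) ω ≤ T.verts F ∧
    ∑ l ∈ F, hsum T σ η μ ν l + ν (T.dst k) ω ≤ T.verts F := by
  classical
  have hv : (((F.image T.src).card + (F.image T.dst).card : ℕ) : ℝ) / η ≤ N := by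
    refine le_trans ?_ hN
    rw [div_le_div_iff_of_pos_right hη]
    have := verts_le T F
    unfold TypeGraph.verts at this
    have h2 : (((F.image T.src).card + (F.image T.dst).card : ℕ) : ℝ) ≤
        ((2 * Fintype.card κ : ℕ) : ℝ) := by
      refine Nat.cast_le.2 (le_trans (le_of_eq ?_) this)
      congr!
    refine h2.trans (le_of_eq ?_)
    push_cast
    ring
  have hverts : (((F.image T.src).card + (F.image T.dst).card : ℕ) : ℝ) = T.verts F := by
    unfold TypeGraph.verts
    congr!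
  have h1 := typed_forest T.src T.dst σ hinv F η hη N hv hred μ ν hμ hν
    (fun p => (hμ1 p).le) (fun q => (hν1 q).le)
  constructor
  · have h2 := h1 (Sum.inl (T.src k)) (by
      rw [Finset.inl_mem_disjSum]
      exact Finset.mem_image_of_mem _ hk) ω
    rw [hverts] at h2
    simp only [Sum.elim_inl] at h2
    have h3 : ∑ l ∈ F, hsum T σ η μ ν l = ∑ k ∈ F, ∑ ω,
      (if η < μ (T.src k) ω ∧ η < ν (T.dst k) (σ k ω) then
        min (μ (T.src k) ω) (ν (T.dst k) (σ k ω)) else 0) := rfl
    rw [h3]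
    linarith
  · have h2 := h1 (Sum.inr (T.dst k)) (by
      rw [Finset.inr_mem_disjSum]
      exact Finset.mem_image_of_mem _ hk) ω
    rw [hverts] at h2
    simp only [Sum.elim_inr] at h2
    have h3 : ∑ l ∈ F, hsum T σ η μ ν l = ∑ k ∈ F, ∑ ω,
      (if η < μ (T.src k) ω ∧ η < ν (T.dst k) (σ k ω) then
        min (μ (T.src k) ω) (ν (T.dst k) (σ k ω)) else 0) := rfl
    rw [h3]
    linarith

theorem card_copies {κ : Type} [Fintype κ] (w : κ → ℕ) :
    Fintype.card ((k : κ) × Fin (w k)) = ∑ k, w k := by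
  rw [Fintype.card_sigma]
  simp

theorem typedWith_copies {P Q U W Λ ι Ω κ : Type} [Fintype Λ] [DecidableEq Λ] [Fintype ι]
    [Fintype κ] [Fintype Ω] (t : ℕ) (T : TypeGraph P Q κ) (w : κ → ℕ) (σ : κ → Equiv.Perm Ω)
    (I : Game U W Λ ι) : TypedWith T w (typedGame t (T.copies w) (fun p => σ p.1) I) := by
  classical
  refine ⟨fun p => p.1, fun p => p.1, fun e => e.2.1.1, σ, fun _ => ⟨rfl, rfl, rfl⟩, ?_⟩
  intro k
  have h1 : (univ.filter (fun e : ι × ((k : κ) × Fin (w k)) × (Λ → Ω) × (Λ → Fin t × Ω) =>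
      e.2.1.1 = k)) = (univ : Finset ι) ×ˢ ((univ.filter
        (fun p : (k : κ) × Fin (w k) => p.1 = k)) ×ˢ
          (univ : Finset ((Λ → Ω) × (Λ → Fin t × Ω)))) := by
    ext e
    simp
  have h2 : (univ.filter (fun p : (k : κ) × Fin (w k) => p.1 = k)).card = w k := by
    have h3 : (univ.filter (fun p : (k : κ) × Fin (w k) => p.1 = k)) =
        (univ : Finset (Fin (w k))).map ⟨Sigma.mk k, sigma_mk_injective⟩ := by
      ext ⟨l, i⟩
      simp only [Finset.mem_filter, mem_univ, true_and, Finset.mem_map,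
        Function.Embedding.coeFn_mk]
      constructor
      · rintro rfl
        exact ⟨i, rfl⟩
      · rintro ⟨j, hj⟩
        exact (congrArg Sigma.fst hj).symm
    rw [h3, Finset.card_map, Finset.card_univ, Fintype.card_fin]
  have h4 : (univ.filter (fun e : ι × ((k : κ) × Fin (w k)) × (Λ → Ω) × (Λ → Fin t × Ω) =>
      e.2.1.1 = k)).card * ∑ l, w l =
      w k * Fintype.card (ι × ((k : κ) × Fin (w k)) × (Λ → Ω) × (Λ → Fin t × Ω)) := by
    rw [h1, Finset.card_product, Finset.card_product, h2, Fintype.card_prod, Fintype.card_prod,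
      card_copies, Finset.card_univ, Finset.card_univ]
    ring
  convert h4

/-- The hard side for weighted type graphs: soundness strictly below the threshold. -/
theorem hardW {P Q κ : Type} [Fintype κ] (T : TypeGraph P Q κ) (w : κ → ℕ)
    (hw : T.maxWeight w < ∑ k, w k) (t : ℕ) (ht : 1 ≤ t) :
    ∃ (Ω : Type) (_ : Fintype Ω) (_ : Nonempty Ω) (σ : κ → Equiv.Perm Ω)
      (c M : ℝ), 0 < c ∧
      ∀ (U W Λ ι : Type) [Fintype Λ] [DecidableEq Λ] [Nonempty Λ] [Fintype ι] [Nonempty ι]
        (I : Game U W Λ ι),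
        TypedWith T w (typedGame t (T.copies w) (fun p => σ p.1) I) ∧
        (1 - 1 / (t : ℝ)) * I.value ≤ (typedGame t (T.copies w) (fun p => σ p.1) I).value ∧
        (typedGame t (T.copies w) (fun p => σ p.1) I).value ≤
          (T.maxWeight w : ℝ) / ((∑ k, w k : ℕ) : ℝ) - c + M * I.value := by
  classical
  obtain ⟨C, l, hC, hl, hcert⟩ := dual_certificate T w hw
  have hn0 : 0 < ∑ k, w k := by omega
  have hn : (0 : ℝ) < ((∑ k, w k : ℕ) : ℝ) := by exact_mod_cast hn0
  set n : ℝ := ((∑ k, w k : ℕ) : ℝ) with hndef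
  have hnw : ∑ k, (w k : ℝ) = n := by rw [hndef, Nat.cast_sum]
  have hVC : (1 : ℝ) ≤ T.verts C := by exact_mod_cast verts_pos T hC
  -- the scales
  set θ2 : ℝ := min (l / (20 * n)) 1 with hθ2
  have h20 : 0 < θ2 := lt_min (by positivity) one_pos
  have h21 : θ2 ≤ 1 := min_le_right _ _
  have h2l : 5 * θ2 * n ≤ l / 4 := by
    have := min_le_left (l / (20 * n)) 1
    rw [← hθ2, le_div_iff₀ (by positivity)] at this
    linarith
  set η2 : ℝ := (θ2 ^ 2) ^ (4 * t) with hη2
  have hη20 : 0 < η2 := by positivity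
  have hη21 : η2 ≤ 1 := pow_le_one₀ (by positivity) (pow_le_one₀ h20.le h21)
  set θ1 : ℝ := min θ2 (l * η2 / (10 * n)) with hθ1
  have h10 : 0 < θ1 := lt_min h20 (by positivity)
  have h12 : θ1 ≤ θ2 := min_le_left _ _
  have h1l : 5 * θ1 * n ≤ l * η2 / 2 := by
    have := min_le_right θ2 (l * η2 / (10 * n))
    rw [← hθ1, le_div_iff₀ (by positivity)] at this
    linarith
  have hη10 : 0 < (θ1 ^ 2) ^ (4 * t) := by positivity
  obtain ⟨Ω, fΩ, nΩ, σ, hinv, hred⟩ := exists_girth' κ
    ⌈2 * (Fintype.card κ : ℝ) / (θ1 ^ 2) ^ (4 * t)⌉₊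
  have hneκ : Nonempty ((k : κ) × Fin (w k)) := by
    rw [← Fintype.card_pos_iff, card_copies]
    exact hn0
  -- the certificate at zero
  have hM0 : l ≤ T.maxWeight w := by
    have h1 := hcert (fun _ => 0) (fun _ => le_rfl) (fun _ => zero_le_one) (fun F => by simp)
    simp only [mul_zero, Finset.sum_const_zero, zero_add, sub_zero] at h1
    nlinarith
  set c : ℝ := l * η2 / (2 * n) with hc
  have hc0 : 0 < c := by positivity
  have hcn : c * n = l * η2 / 2 := by
    rw [hc]
    field_simp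
  obtain ⟨M, hM⟩ := sound_types (J := Bool) (T.copies w) (fun p => σ p.1) t ht
    (fun b => if b then θ1 else θ2) (by rintro (_ | _) <;> simp [h10, h20])
    (by
      rintro (_ | _)
      · simpa using h21
      · simpa using h12.trans h21) ((T.maxWeight w : ℝ) / n - c) (by
      rw [sub_nonneg, le_div_iff₀ hn, hcn]
      nlinarith) (by
      intro μ ν hμ hν hμ1 hν1
      -- the sum over the copies
      have hcop : ∀ (j : κ → Bool), (∑ p : (k : κ) × Fin (w k),
          (hsum (T.copies w) (fun p => σ p.1) (((if j p.1 then θ1 else θ2) ^ 2) ^ (4 * t)) μ ν p +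
            5 * (if j p.1 then θ1 else θ2))) =
          ∑ k, (w k : ℝ) * (hsum T σ (((if j k then θ1 else θ2) ^ 2) ^ (4 * t)) μ ν k +
            5 * (if j k then θ1 else θ2)) := by
        intro j
        rw [Fintype.sum_sigma]
        refine Finset.sum_congr rfl (fun k _ => ?_)
        have h1 : ∀ i : Fin (w k), (hsum (T.copies w) (fun p => σ p.1)
            (((if j k then θ1 else θ2) ^ 2) ^ (4 * t)) μ ν ⟨k, i⟩ +
            5 * (if j k then θ1 else θ2)) =
            hsum T σ (((if j k then θ1 else θ2) ^ 2) ^ (4 * t)) μ ν k +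
            5 * (if j k then θ1 else θ2) := fun i => rfl
        rw [Finset.sum_congr rfl (fun i _ => h1 i), Finset.sum_const, Finset.card_univ,
          Fintype.card_fin, nsmul_eq_mul]
      have hfor := hsum_forest T σ hinv _ hη10 _ (Nat.le_ceil _) hred μ ν hμ hν hμ1 hν1
      obtain ⟨ω0⟩ := nΩ
      have hfeas : ∀ F : Finset κ, ∑ k ∈ F, hsum T σ ((θ1 ^ 2) ^ (4 * t)) μ ν k ≤
          (T.verts F : ℝ) := by
        intro F
        rcases F.eq_empty_or_nonempty with rfl | ⟨k, hk⟩
        · simp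
        · have h1 := (hfor F k hk ω0).1
          have h2 := hμ (T.src k) ω0
          linarith
      have hcard : (Fintype.card ((k : κ) × Fin (w k)) : ℝ) = n := by rw [card_copies]
      by_cases hm : ∃ k ∈ C, ∃ ω, η2 ≤ μ (T.src k) ω ∨ η2 ≤ ν (T.dst k) ω
      · refine ⟨fun _ => true, ?_⟩
        obtain ⟨k, hkC, ω, hk⟩ := hm
        have h1 := hcop (fun _ => true)
        simp only [if_true] at h1 ⊢
        rw [h1, hcard, div_le_iff₀ hn, sub_mul, div_mul_cancel₀ _ hn.ne', hcn]
        have h2 := hcert (fun k => hsum T σ ((θ1 ^ 2) ^ (4 * t)) μ ν k)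
          (fun k => hsum_nonneg T σ _ hμ hν k) (fun k => hsum_le_one T σ _ hμ hμ1 k) hfeas
        have h3 : η2 ≤ (T.verts C : ℝ) - ∑ k ∈ C, hsum T σ ((θ1 ^ 2) ^ (4 * t)) μ ν k := by
          rcases hk with hk | hk
          · have := (hfor C k hkC ω).1
            linarith
          · have := (hfor C k hkC ω).2
            linarith
        have h4 := mul_le_mul_of_nonneg_left h3 hl.le
        have h5 : ∑ k, (w k : ℝ) * (hsum T σ ((θ1 ^ 2) ^ (4 * t)) μ ν k + 5 * θ1) =
            ∑ k, (w k : ℝ) * hsum T σ ((θ1 ^ 2) ^ (4 * t)) μ ν k + 5 * θ1 * n := by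
          rw [← hnw, Finset.mul_sum, ← Finset.sum_add_distrib]
          exact Finset.sum_congr rfl (fun k _ => by ring)
        rw [h5]
        linarith
      · push Not at hm
        refine ⟨fun p => decide (p.1 ∉ C), ?_⟩
        have h1 := hcop (fun k => decide (k ∉ C))
        simp only [decide_eq_true_eq] at h1 ⊢
        rw [h1, hcard, div_le_iff₀ hn, sub_mul, div_mul_cancel₀ _ hn.ne', hcn]
        set m : κ → ℝ := fun k => if k ∉ C then hsum T σ ((θ1 ^ 2) ^ (4 * t)) μ ν k else 0
          with hmdef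
        have hm0 : ∀ k, 0 ≤ m k := by
          intro k
          rw [hmdef]
          beta_reduce
          by_cases hk : k ∈ C
          · rw [if_neg (fun h => h hk)]
          · rw [if_pos hk]
            exact hsum_nonneg T σ _ hμ hν k
        have hmle : ∀ k, m k ≤ hsum T σ ((θ1 ^ 2) ^ (4 * t)) μ ν k := by
          intro k
          rw [hmdef]
          beta_reduce
          by_cases hk : k ∈ C
          · rw [if_neg (fun h => h hk)]
            exact hsum_nonneg T σ _ hμ hν k
          · rw [if_pos hk]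
        have h2 := hcert m hm0 (fun k => (hmle k).trans (hsum_le_one T σ _ hμ hμ1 k))
          (fun F => (Finset.sum_le_sum (fun k _ => hmle k)).trans (hfeas F))
        have h3 : ∑ k ∈ C, m k = 0 := by
          refine Finset.sum_eq_zero (fun k hk => ?_)
          rw [hmdef]
          beta_reduce
          rw [if_neg (fun h => h hk)]
        rw [h3, sub_zero] at h2
        have h4 : ∀ k, (w k : ℝ) * (hsum T σ (((if k ∉ C then θ1 else θ2) ^ 2) ^ (4 * t)) μ ν k +
            5 * (if k ∉ C then θ1 else θ2)) ≤ (w k : ℝ) * m k + (w k : ℝ) * (5 * θ2) := by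
          intro k
          rw [← mul_add]
          refine mul_le_mul_of_nonneg_left ?_ (Nat.cast_nonneg _)
          by_cases hk : k ∈ C
          · rw [if_neg (fun h => h hk)]
            have h5 : hsum T σ ((θ2 ^ 2) ^ (4 * t)) μ ν k = 0 := by
              refine Finset.sum_eq_zero (fun ω _ => ?_)
              rw [if_neg]
              rintro ⟨h6, -⟩
              have := (hm k hk ω).1
              linarith
            rw [h5]
            have := hm0 k
            linarith
          · rw [if_pos hk, hmdef]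
            beta_reduce
            rw [if_pos hk]
            linarith
        refine (Finset.sum_le_sum (fun k _ => h4 k)).trans ?_
        rw [Finset.sum_add_distrib, ← Finset.sum_mul, hnw]
        have h6 : l ≤ l * (T.verts C : ℝ) := by nlinarith
        have h7 : l * η2 ≤ l := by nlinarith
        linarith)
  refine ⟨Ω, fΩ, nΩ, σ, c, M, hc0, ?_⟩
  intro U W Λ ι _ _ _ _ _ I
  exact ⟨typedWith_copies t T w σ I, typed_complete t ht (T.copies w) (fun p => σ p.1) I,
    hM U W Λ ι I⟩

end Pool.Agent.P325t
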