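import Pool.Agent.Lib.P325f1f.Amen.Defs
import Pool.Agent.Lib.P325f1f.Dich.GameDefs

/-!
# Vector solutions of the standard semidefinite relaxation of unique games

Definitions only.
-/

open Finset
open scoped BigOperators

namespace Pool.Agent.P325t

open Pool.Agent.P325f1f.Dich Pool.Agent.P325f1f.Amen

/-- A solution of the standard semidefinite relaxation: a vector for every vertex and label; the
vectors of one vertex are orthogonal and the squares of their lengths sum to one, all inner products
are nonnegative and the sum of the vectors of a vertex does not depend on the vertex. -/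
structure IsSol {V Ω : Type} [Fintype Ω] {D : ℕ} (X : V → Ω → Fin D → ℝ) : Prop where
  sys : ∀ v, IsSys (X v)
  nonneg : ∀ v v' ω ω', 0 ≤ ∑ i, X v ω i * X v' ω' i
  sum : ∃ z : Fin D → ℝ, ∀ v i, ∑ ω, X v ω i = z i

/-- The objective of the relaxation. -/
noncomputable def sdpObj {U W Ω ι : Type} [Fintype Ω] [Fintype ι] {D : ℕ} (I : Game U W Ω ι)
    (X : U ⊕ W → Ω → Fin D → ℝ) : ℝ :=
  𝔼 e, ∑ ω, ∑ i, X (Sum.inl (I.src e)) ω i * X (Sum.inr (I.dst e)) (I.perm e ω) i

end Pool.Agent.P325t
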