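import Mathlib
import Pool.Agent.Lib.P325f1f.Dich.GameDefs

/-!
# Type graphs, typed unique games, the typed long code game

Definitions only.
-/

open Finset

namespace Pool.Agent.P325t

open Pool.Agent.P325f1f.Dich

/-- A type graph: a bipartite multigraph with sides `P`, `Q` and edges indexed by `κ`; the edge `k`
joins `src k` to `dst k`. -/
structure TypeGraph (P Q κ : Type) where
  /-- the left end of an edge type -/
  src : κ → P
  /-- the right end of an edge type -/
  dst : κ → Q

/-- The number of vertices of the type graph that are ends of edges in `F`. -/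
noncomputable def TypeGraph.verts {P Q κ : Type} (T : TypeGraph P Q κ) (F : Finset κ) : ℕ := by
  classical
  exact (F.image T.src).card + (F.image T.dst).card

/-- The threshold of a type graph: the minimum over the nonempty sets `F` of edges of the number of
ends of edges in `F` divided by the number of edges in `F`. -/
noncomputable def TypeGraph.threshold {P Q κ : Type} (T : TypeGraph P Q κ) : ℝ :=
  ⨅ F : {F : Finset κ // F.Nonempty}, (T.verts F.1 : ℝ) / (F.1.card : ℝ)

/-- The type graph with the edges in `F` only. -/
def TypeGraph.sub {P Q κ : Type} (T : TypeGraph P Q κ) (F : Finset κ) : TypeGraph P Q F where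
  src k := T.src k.1
  dst k := T.dst k.1

/-- The game `I` is typed over `T`: its left vertices, right vertices and edges have types in `P`,
`Q` and `κ`, the ends of an edge of type `k` have the types `src k` and `dst k`, and edges of the same
type carry the same permutation. -/
def Typed {P Q κ U W Ω ι : Type} (T : TypeGraph P Q κ) (I : Game U W Ω ι) : Prop :=
  ∃ (a : U → P) (b : W → Q) (c : ι → κ) (σ : κ → Equiv.Perm Ω),
    ∀ e, a (I.src e) = T.src (c e) ∧ b (I.dst e) = T.dst (c e) ∧ I.perm e = σ (c e)

/-- The typed long code game of `I` played with the permutations `σ` over the type graph `T`: for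
every edge `e` of `I`, every edge type `k`, every `x : Λ → Ω` and every `s : Λ → Fin t × Ω` it has an
edge from `(T.src k, src e, x)` to `(T.dst k, dst e, z)` with constraint `σ k`, where `z` is `mix x s`
carried over by the constraint of `e`, with `σ k` applied to every coordinate. -/
def typedGame {P Q U W Λ ι Ω κ : Type} (t : ℕ) (T : TypeGraph P Q κ) (σ : κ → Equiv.Perm Ω)
    (I : Game U W Λ ι) :
    Game (P × U × (Λ → Ω)) (Q × W × (Λ → Ω)) Ω (ι × κ × (Λ → Ω) × (Λ → Fin t × Ω)) where
  src p := (T.src p.2.1, I.src p.1, p.2.2.1)
  dst p := (T.dst p.2.1, I.dst p.1,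
    fun i => σ p.2.1 (mix p.2.2.1 p.2.2.2 ((I.perm p.1).symm i)))
  perm p := σ p.2.1

end Pool.Agent.P325t
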