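import Pool.Agent.Lib.P325t.Defs
import Pool.Agent.Lib.P325f1f.Dich.Tree

/-!
# The typed forest bound with a gain (helper54)

Involutions `σ k` of `Ω` without short relations, a type graph `T`, distributions `μ p`, `ν q` on
`Ω` for all vertices of `T`.  Consider the graph with vertices `(p, ω)`, `(q, ω)` (`p`, `q` ends of edge
types) and edges `(T.src k, ω) - (T.dst k, σ k ω)`.  The vertices of weight `> η` number at most
`verts / η ≤ N`, a non-backtracking closed walk would give a reduced word of length `≤ N` with a fixed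
point (the colours `k` of consecutive edges of a non-backtracking walk are distinct), so they span a
forest, and the sum over the edges of a forest of the minimum of the two weights is at most the sum of
the weights of the vertices minus the largest weight (induction: remove a leaf).
Compare `Dich/Forest.lean` (`exists_leaf`, `forest`) and `Dich/Tree.lean` (`min_sum_le`).
-/

open Finset

namespace Pool.Agent.P325t

open Pool.Agent.P325f1f.Dich

/-- The sum over the edges with two heavy ends of the minimum of the weights. -/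
noncomputable def heavySum {P Q κ Ω : Type} [Fintype κ] [Fintype Ω] (T : TypeGraph P Q κ)
    (σ : κ → Equiv.Perm Ω) (η : ℝ) (μ : P → Ω → ℝ) (ν : Q → Ω → ℝ) : ℝ :=
  ∑ k, ∑ ω, if η < μ (T.src k) ω ∧ η < ν (T.dst k) (σ k ω)
    then min (μ (T.src k) ω) (ν (T.dst k) (σ k ω)) else 0

section forest

variable {V κ : Type} (τ : κ → V → V) (E : κ → V → Prop)

/-- A vertex with at most one allowed neighbour inside `H`. -/
theorem exists_leaf2 [Nonempty κ] (H : Finset V) (hH : H.Nonempty) (N : ℕ) (hN : H.card ≤ N)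
    (hred : ∀ l : List κ, l ≠ [] → l.length ≤ N → Red l → ∀ v, wact τ l v ≠ v) :
    ∃ v ∈ H, ∀ k k', E k v → τ k v ∈ H → E k' v → τ k' v ∈ H → k = k' := by
  classical
  by_contra hcon
  push Not at hcon
  have hstep : ∀ (v : V) (k : κ), ∃ k', v ∈ H → (k' ≠ k ∧ τ k' v ∈ H) := by
    intro v k
    by_cases hv : v ∈ H
    · obtain ⟨k1, k2, _, h1, _, h2, h3⟩ := hcon v hv
      by_cases h : k1 = k
      · exact ⟨k2, fun _ => ⟨fun h' => h3 (h.trans h'.symm), h2⟩⟩
      · exact ⟨k1, fun _ => ⟨h, h1⟩⟩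
    · exact ⟨k, fun h => absurd h hv⟩
  choose f hf using hstep
  obtain ⟨v0, hv0⟩ := hH
  set s : ℕ → V × κ := fun n => Nat.rec (v0, Classical.arbitrary κ)
    (fun _ p => (τ (f p.1 p.2) p.1, f p.1 p.2)) n with hs
  have hs1 : ∀ n, s (n + 1) = (τ (f (s n).1 (s n).2) (s n).1, f (s n).1 (s n).2) := fun n => rfl
  have hmem : ∀ n, (s n).1 ∈ H := by
    intro n
    induction n with
    | zero => exact hv0
    | succ n ih =>
      rw [hs1]
      exact (hf _ _ ih).2
  set c : ℕ → κ := fun n => (s (n + 1)).2 with hc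
  have hcne : ∀ n, c (n + 1) ≠ c n := by
    intro n
    show f (s (n + 1)).1 (s (n + 1)).2 ≠ (s (n + 1)).2
    exact (hf _ _ (hmem (n + 1))).1
  have hv : ∀ n, (s (n + 1)).1 = τ (c n) (s n).1 := fun n => rfl
  obtain ⟨i, hi, j, hj, hij, heq⟩ := Finset.exists_ne_map_eq_of_card_lt_of_maps_to
    (s := Finset.range (H.card + 1)) (t := H) (by simp) (f := fun n => (s n).1)
    (fun n _ => hmem n)
  have key : ∀ i j, i < j → j < H.card + 1 → (s i).1 = (s j).1 → False := by
    intro i j hij hj heq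
    obtain ⟨n, rfl⟩ := Nat.exists_eq_add_of_lt hij
    have h1 := wordOf_act τ c (fun n => (s n).1) hv i (n + 1)
    refine hred (wordOf c i (n + 1)) (by simp [wordOf]) ?_ (wordOf_red c hcne i (n + 1)) (s i).1 ?_
    · rw [wordOf_length]
      omega
    · rw [h1]
      exact heq.symm
  rcases lt_or_gt_of_ne hij with h | h
  · exact key i j h (Finset.mem_range.1 hj) heq
  · exact key j i h (Finset.mem_range.1 hi) heq.symm

open Classical in
/-- Weighted forests: every edge is charged to one of its ends, and the heaviest vertex is not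
charged. -/
theorem forest2 [Fintype κ] [Nonempty κ] (hE : ∀ k v, E k v → E k (τ k v))
    (hinv : ∀ k v, E k v → τ k (τ k v) = v)
    (w : V → ℝ) (hw : ∀ v, 0 ≤ w v) (N : ℕ) (hN0 : 1 ≤ N)
    (hred : ∀ l : List κ, l ≠ [] → l.length ≤ N → Red l → ∀ v, wact τ l v ≠ v)
    (H : Finset V) (hne : H.Nonempty) (hN : H.card ≤ N) :
    ∑ v ∈ H, ∑ k, (if E k v ∧ τ k v ∈ H then min (w v) (w (τ k v)) else 0) +
      2 * H.sup' hne w ≤ 2 * ∑ v ∈ H, w v := by
  have hloop : ∀ k v, τ k v ≠ v := fun k v h =>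
    hred [k] (by simp) (by simpa using hN0) trivial v h
  induction H using Finset.strongInduction with
  | H H ih =>
    obtain ⟨v, hv, huniq⟩ := exists_leaf2 τ E H hne N hN hred
    rcases (H.erase v).eq_empty_or_nonempty with hemp | hne'
    · have hH : H = {v} := by
        rw [Finset.erase_eq_empty_iff] at hemp
        rcases hemp with h | h
        · exact absurd h hne.ne_empty
        · exact h
      subst hH
      rw [Finset.sum_singleton, Finset.sum_singleton, Finset.sup'_singleton,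
        Finset.sum_eq_zero (fun k _ => if_neg (fun h => hloop k v (Finset.mem_singleton.1 h.2))),
        zero_add]
    have hH' := ih (H.erase v) (Finset.erase_ssubset hv) hne'
      ((Finset.card_le_card (Finset.erase_subset v H)).trans hN)
    set M' := (H.erase v).sup' hne' w with hM'
    have hM'0 : 0 ≤ M' := by
      obtain ⟨u, hu⟩ := hne'
      exact (hw u).trans (Finset.le_sup' w hu)
    -- the edges at `v`
    have hv1 : ∑ k, (if E k v ∧ τ k v ∈ H then min (w v) (w (τ k v)) else 0) ≤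
        min (w v) M' := by
      by_cases hex : ∃ k, E k v ∧ τ k v ∈ H
      · obtain ⟨k0, hk0, hk1⟩ := hex
        rw [Finset.sum_eq_single k0]
        · rw [if_pos ⟨hk0, hk1⟩]
          exact min_le_min le_rfl
            (Finset.le_sup' w (Finset.mem_erase.2 ⟨hloop k0 v, hk1⟩))
        · intro k _ hk
          rw [if_neg]
          intro h
          exact hk (huniq k k0 h.1 h.2 hk0 hk1)
        · intro h
          exact absurd (mem_univ _) h
      · push Not at hex
        rw [Finset.sum_eq_zero (fun k _ => if_neg (fun h => hex k h.1 h.2))]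
        exact le_min (hw v) hM'0
    have hpt : ∀ u ∈ H.erase v,
        ∑ k, (if E k u ∧ τ k u ∈ H then min (w u) (w (τ k u)) else 0) ≤
        (∑ k, (if E k u ∧ τ k u ∈ H.erase v then min (w u) (w (τ k u)) else 0)) +
        ∑ k, (if τ k v = u then (if E k v then min (w v) (w (τ k v)) else 0) else 0) := by
      intro u hu
      rw [← Finset.sum_add_distrib]
      refine Finset.sum_le_sum (fun k _ => ?_)
      have hnn : 0 ≤ (if τ k v = u then (if E k v then min (w v) (w (τ k v)) else 0) else 0) := by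
        split_ifs
        · exact le_min (hw _) (hw _)
        · exact le_rfl
        · exact le_rfl
      by_cases h1 : E k u ∧ τ k u ∈ H
      · rw [if_pos h1]
        by_cases h2 : τ k u = v
        · have h3 : τ k v = u := by rw [← h2, hinv k u h1.1]
          have h4 : E k v := by rw [← h2]; exact hE k u h1.1
          rw [if_neg (fun h => by rw [h2] at h; exact Finset.notMem_erase v H h.2), if_pos h3,
            if_pos h4, zero_add, h2, h3, min_comm]
        · rw [if_pos ⟨h1.1, Finset.mem_erase.2 ⟨h2, h1.2⟩⟩]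
          linarith
      · rw [if_neg h1, if_neg (fun h => h1 ⟨h.1, Finset.mem_of_mem_erase h.2⟩), zero_add]
        exact hnn
    have hsum : ∑ u ∈ H.erase v, ∑ k,
        (if τ k v = u then (if E k v then min (w v) (w (τ k v)) else 0) else 0) ≤
        ∑ k, (if E k v ∧ τ k v ∈ H then min (w v) (w (τ k v)) else 0) := by
      rw [Finset.sum_comm]
      refine Finset.sum_le_sum (fun k _ => ?_)
      rw [Finset.sum_ite_eq]
      by_cases h : τ k v ∈ H.erase v
      · rw [if_pos h]
        by_cases h' : E k v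
        · rw [if_pos h', if_pos ⟨h', Finset.mem_of_mem_erase h⟩]
        · rw [if_neg h', if_neg (fun h'' => h' h''.1)]
      · rw [if_neg h]
        split_ifs
        · exact le_min (hw _) (hw _)
        · exact le_rfl
    have hsup : H.sup' hne w ≤ max (w v) M' := by
      refine Finset.sup'_le hne w (fun u hu => ?_)
      by_cases h : u = v
      · rw [h]
        exact le_max_left _ _
      · exact (Finset.le_sup' w (Finset.mem_erase.2 ⟨h, hu⟩)).trans (le_max_right _ _)
    have hmm : min (w v) M' + max (w v) M' = w v + M' := min_add_max _ _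
    rw [← Finset.add_sum_erase H _ hv, ← Finset.add_sum_erase H w hv]
    have h1 := Finset.sum_le_sum hpt
    rw [Finset.sum_add_distrib] at h1
    linarith

end forest

section typed

variable {P Q K Ω : Type}

/-- The edge `k` of the label-extended graph. -/
def tau (s : K → P) (d : K → Q) (σ : K → Equiv.Perm Ω) (k : K) :
    (P ⊕ Q) × Ω → (P ⊕ Q) × Ω
  | (Sum.inl _, ω) => (Sum.inr (d k), σ k ω)
  | (Sum.inr _, ω) => (Sum.inl (s k), σ k ω)

/-- The edge `k` is in `F` and starts at this vertex. -/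
def Al (s : K → P) (d : K → Q) (F : Finset K) (k : K) : (P ⊕ Q) × Ω → Prop
  | (Sum.inl p, _) => k ∈ F ∧ s k = p
  | (Sum.inr q, _) => k ∈ F ∧ d k = q

theorem tau_snd (s : K → P) (d : K → Q) (σ : K → Equiv.Perm Ω) (k : K) (v : (P ⊕ Q) × Ω) :
    (tau s d σ k v).2 = σ k v.2 := by
  obtain ⟨a | a, ω⟩ := v <;> rfl

theorem wact_tau_snd (s : K → P) (d : K → Q) (σ : K → Equiv.Perm Ω) (l : List K)
    (v : (P ⊕ Q) × Ω) : (wact (tau s d σ) l v).2 = wact (fun k ω => σ k ω) l v.2 := by
  induction l with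
  | nil => rfl
  | cons k l ih =>
    show (tau s d σ k (wact (tau s d σ) l v)).2 = σ k (wact (fun k ω => σ k ω) l v.2)
    rw [tau_snd, ih]

open Classical in
/-- The acceptance of distributions on their heavy labels, summed over a set `F` of edge types: at
most the number of the vertices of `F`, minus the mass of any label of any of these vertices. -/
theorem typed_forest [Fintype K] [Fintype Ω] (s : K → P) (d : K → Q)
    (σ : K → Equiv.Perm Ω) (hinv : ∀ k ω, σ k (σ k ω) = ω) (F : Finset K) (η : ℝ) (hη : 0 < η)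
    (N : ℕ) (hN : (((F.image s).card + (F.image d).card : ℕ) : ℝ) / η ≤ N)
    (hred : ∀ l : List K, l ≠ [] → l.length ≤ N → Red l →
        ∀ ω, wact (fun k ω => σ k ω) l ω ≠ ω)
    (μ : P → Ω → ℝ) (ν : Q → Ω → ℝ) (hμ : ∀ p ω, 0 ≤ μ p ω) (hν : ∀ q ω, 0 ≤ ν q ω)
    (hμ1 : ∀ p, ∑ ω, μ p ω ≤ 1) (hν1 : ∀ q, ∑ ω, ν q ω ≤ 1)
    (a : P ⊕ Q) (ha : a ∈ (F.image s).disjSum (F.image d)) (ω₀ : Ω) :
    ∑ k ∈ F, ∑ ω, (if η < μ (s k) ω ∧ η < ν (d k) (σ k ω) then
        min (μ (s k) ω) (ν (d k) (σ k ω)) else 0) ≤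
      ((F.image s).card + (F.image d).card : ℕ) - Sum.elim μ ν a ω₀ := by
  set τ := tau s d σ with hτ
  set w : (P ⊕ Q) × Ω → ℝ := fun v => Sum.elim μ ν v.1 v.2 with hw
  have hw0 : ∀ v, 0 ≤ w v := by
    rintro ⟨b | b, ω⟩
    · exact hμ b ω
    · exact hν b ω
  set U : Finset (P ⊕ Q) := (F.image s).disjSum (F.image d) with hU
  set H : Finset ((P ⊕ Q) × Ω) := (U ×ˢ (univ : Finset Ω)).filter (fun v => η < w v) with hH
  have hsum1 : ∀ b : P ⊕ Q, ∑ ω, w (b, ω) ≤ 1 := by
    rintro (b | b)
    · exact hμ1 b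
    · exact hν1 b
  have hUc : U.card = (F.image s).card + (F.image d).card := by
    rw [hU, Finset.card_disjSum]
  rw [← hUc] at hN
  have hUsum : ∑ v ∈ U ×ˢ (univ : Finset Ω), w v ≤ U.card := by
    rw [Finset.sum_product]
    calc ∑ b ∈ U, ∑ ω, w (b, ω) ≤ ∑ b ∈ U, (1 : ℝ) := Finset.sum_le_sum (fun b _ => hsum1 b)
      _ = U.card := by simp
  have hHsum : ∑ v ∈ H, w v ≤ U.card := (Finset.sum_le_sum_of_subset_of_nonneg
    (Finset.filter_subset _ _) (fun v _ _ => hw0 v)).trans hUsum
  have hUpos : 0 < U.card := Finset.card_pos.2 ⟨a, ha⟩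
  have hN0 : 1 ≤ N := by
    have h1 : (0 : ℝ) < U.card := by exact_mod_cast hUpos
    have h2 : (0 : ℝ) < N := (div_pos h1 hη).trans_le hN
    have h3 : 0 < N := by exact_mod_cast h2
    exact h3
  have hHc : H.card ≤ N := by
    have h1 : (H.card : ℝ) * η ≤ ∑ v ∈ H, w v := by
      rw [← nsmul_eq_mul]
      exact Finset.card_nsmul_le_sum H w η (fun v hv => (Finset.mem_filter.1 hv).2.le)
    have h3 : (H.card : ℝ) ≤ N := by
      refine le_trans ?_ hN
      rw [le_div_iff₀ hη]
      linarith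
    exact_mod_cast h3
  obtain ⟨k₀, hk₀⟩ : ∃ k, k ∈ F := by
    rcases F.eq_empty_or_nonempty with h | h
    · exfalso
      rw [hU, h] at ha
      simp at ha
    · exact h
  have hKne : Nonempty K := ⟨k₀⟩
  have hmemH : ∀ v, v ∈ H ↔ v.1 ∈ U ∧ η < w v := fun v => by
    rw [hH, Finset.mem_filter, Finset.mem_product]
    exact ⟨fun h => ⟨h.1.1, h.2⟩, fun h => ⟨⟨h.1, mem_univ _⟩, h.2⟩⟩
  have hinlU : ∀ k ∈ F, (Sum.inl (s k) : P ⊕ Q) ∈ U := fun k hk => by
    rw [hU, Finset.inl_mem_disjSum]
    exact Finset.mem_image_of_mem s hk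
  have hinrU : ∀ k ∈ F, (Sum.inr (d k) : P ⊕ Q) ∈ U := fun k hk => by
    rw [hU, Finset.inr_mem_disjSum]
    exact Finset.mem_image_of_mem d hk
  have hmemL : ∀ k ∈ F, ∀ ω, ((Sum.inl (s k), ω) : (P ⊕ Q) × Ω) ∈ H ↔ η < μ (s k) ω :=
    fun k hk ω => (hmemH _).trans ⟨fun h => h.2, fun h => ⟨hinlU k hk, h⟩⟩
  have hmemR : ∀ k ∈ F, ∀ ω, ((Sum.inr (d k), ω) : (P ⊕ Q) × Ω) ∈ H ↔ η < ν (d k) ω :=
    fun k hk ω => (hmemH _).trans ⟨fun h => h.2, fun h => ⟨hinrU k hk, h⟩⟩
  -- the left side
  set S : ℝ := ∑ k ∈ F, ∑ ω, (if η < μ (s k) ω ∧ η < ν (d k) (σ k ω) then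
        min (μ (s k) ω) (ν (d k) (σ k ω)) else 0) with hS
  -- the mass
  set x : ℝ := Sum.elim μ ν a ω₀ with hx
  have hx0 : 0 ≤ x := hw0 (a, ω₀)
  have hSn : S = 0 ∨ H.Nonempty := by
    rcases H.eq_empty_or_nonempty with h | h
    · left
      rw [hS]
      refine Finset.sum_eq_zero (fun k hk => Finset.sum_eq_zero (fun ω _ => if_neg ?_))
      intro h1
      have : ((Sum.inl (s k), ω) : (P ⊕ Q) × Ω) ∈ H := (hmemL k hk ω).2 h1.1
      rw [h] at this
      simp at this
    · exact Or.inr h
  have hxU : x ≤ U.card := by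
    have h1 : w (a, ω₀) ≤ ∑ v ∈ U ×ˢ (univ : Finset Ω), w v :=
      Finset.single_le_sum (fun v _ => hw0 v)
        (Finset.mem_product.2 ⟨ha, mem_univ _⟩)
    exact h1.trans hUsum
  rw [← hUc]
  rcases hSn with h | hne
  · rw [h]
    linarith
  have hf := forest2 τ (Al s d F) (by
      rintro k ⟨b | b, ω⟩ h
      · exact ⟨h.1, rfl⟩
      · exact ⟨h.1, rfl⟩) (by
      rintro k ⟨b | b, ω⟩ h
      · show ((Sum.inl (s k), σ k (σ k ω)) : (P ⊕ Q) × Ω) = (Sum.inl b, ω)
        rw [hinv, h.2]
      · show ((Sum.inr (d k), σ k (σ k ω)) : (P ⊕ Q) × Ω) = (Sum.inr b, ω)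
        rw [hinv, h.2]) w hw0 N hN0 (fun l hl hlN hr v hv => hred l hl hlN hr v.2 (by
    rw [← wact_tau_snd s d σ l v, hv])) H hne hHc
  -- the mass of `(a, ω₀)`
  have hgain : ∑ v ∈ H, w v - H.sup' hne w ≤ U.card - x := by
    by_cases h : (a, ω₀) ∈ H
    · have h1 : x ≤ H.sup' hne w := Finset.le_sup' w h
      linarith
    · have h1 : ∑ v ∈ H, w v + w (a, ω₀) ≤ ∑ v ∈ U ×ˢ (univ : Finset Ω), w v := by
        rw [add_comm, ← Finset.sum_insert h]
        refine Finset.sum_le_sum_of_subset_of_nonneg ?_ (fun v _ _ => hw0 v)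
        intro v hv
        rcases Finset.mem_insert.1 hv with rfl | hv
        · exact Finset.mem_product.2 ⟨ha, mem_univ _⟩
        · exact Finset.filter_subset _ _ hv
      have h2 : 0 ≤ H.sup' hne w := by
        obtain ⟨u, hu⟩ := hne
        exact (hw0 u).trans (Finset.le_sup' w hu)
      have h3 : w (a, ω₀) = x := rfl
      linarith
  -- rewrite the left side of the forest lemma
  have hleft : ∑ v ∈ H, ∑ k, (if Al s d F k v ∧ τ k v ∈ H then min (w v) (w (τ k v)) else 0) =
      2 * S := by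
    rw [Finset.sum_comm]
    have h1 : ∀ k, ∑ v ∈ H, (if Al s d F k v ∧ τ k v ∈ H then min (w v) (w (τ k v)) else 0) =
        if k ∈ F then 2 * ∑ ω, (if η < μ (s k) ω ∧ η < ν (d k) (σ k ω) then
          min (μ (s k) ω) (ν (d k) (σ k ω)) else 0) else 0 := by
      intro k
      by_cases hk : k ∈ F
      · rw [if_pos hk]
        have e0 : ∑ v ∈ H, (if Al s d F k v ∧ τ k v ∈ H then min (w v) (w (τ k v)) else 0) =
            ∑ v ∈ U ×ˢ (univ : Finset Ω), (if v ∈ H ∧ Al s d F k v ∧ τ k v ∈ H then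
              min (w v) (w (τ k v)) else 0) := by
          have hsub : H ⊆ U ×ˢ (univ : Finset Ω) := Finset.filter_subset _ _
          rw [← Finset.sum_subset hsub]
          · refine Finset.sum_congr rfl (fun v hv => ?_)
            by_cases h : Al s d F k v ∧ τ k v ∈ H
            · rw [if_pos h, if_pos ⟨hv, h⟩]
            · rw [if_neg h, if_neg (fun h' => h h'.2)]
          · intro v _ hv
            exact if_neg (fun h => hv h.1)
        rw [e0, Finset.sum_product, hU, Finset.sum_disjSum]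
        have e1 : ∑ p ∈ F.image s, ∑ ω : Ω, (if ((Sum.inl p, ω) : (P ⊕ Q) × Ω) ∈ H ∧
            Al s d F k (Sum.inl p, ω) ∧ τ k (Sum.inl p, ω) ∈ H then
            min (w (Sum.inl p, ω)) (w (τ k (Sum.inl p, ω))) else 0) =
            ∑ ω, (if η < μ (s k) ω ∧ η < ν (d k) (σ k ω) then
              min (μ (s k) ω) (ν (d k) (σ k ω)) else 0) := by
          rw [Finset.sum_eq_single (s k)]
          · refine Finset.sum_congr rfl (fun ω _ => ?_)
            by_cases b1 : η < μ (s k) ω ∧ η < ν (d k) (σ k ω)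
            · rw [if_pos b1, if_pos ⟨(hmemL k hk ω).2 b1.1, ⟨hk, rfl⟩,
                (hmemR k hk (σ k ω)).2 b1.2⟩]
              rfl
            · rw [if_neg b1, if_neg]
              rintro ⟨h1, -, h2⟩
              exact b1 ⟨(hmemL k hk ω).1 h1, (hmemR k hk (σ k ω)).1 h2⟩
          · intro p _ hp
            exact Finset.sum_eq_zero (fun ω _ => if_neg (fun h => hp h.2.1.2.symm))
          · intro h
            exact absurd (Finset.mem_image_of_mem s hk) h
        have e2 : ∑ q ∈ F.image d, ∑ ω : Ω, (if ((Sum.inr q, ω) : (P ⊕ Q) × Ω) ∈ H ∧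
            Al s d F k (Sum.inr q, ω) ∧ τ k (Sum.inr q, ω) ∈ H then
            min (w (Sum.inr q, ω)) (w (τ k (Sum.inr q, ω))) else 0) =
            ∑ ω, (if η < μ (s k) ω ∧ η < ν (d k) (σ k ω) then
              min (μ (s k) ω) (ν (d k) (σ k ω)) else 0) := by
          rw [Finset.sum_eq_single (d k)]
          · rw [← Equiv.sum_comp (σ k)]
            refine Finset.sum_congr rfl (fun ω _ => ?_)
            have a1 : τ k (Sum.inr (d k), σ k ω) = (Sum.inl (s k), ω) := by
              show ((Sum.inl (s k), σ k (σ k ω)) : (P ⊕ Q) × Ω) = _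
              rw [hinv]
            rw [a1]
            by_cases b1 : η < μ (s k) ω ∧ η < ν (d k) (σ k ω)
            · rw [if_pos b1, if_pos ⟨(hmemR k hk (σ k ω)).2 b1.2, ⟨hk, rfl⟩,
                (hmemL k hk ω).2 b1.1⟩, min_comm]
              rfl
            · rw [if_neg b1, if_neg]
              rintro ⟨h1, -, h2⟩
              exact b1 ⟨(hmemL k hk ω).1 h2, (hmemR k hk (σ k ω)).1 h1⟩
          · intro q _ hq
            exact Finset.sum_eq_zero (fun ω _ => if_neg (fun h => hq h.2.1.2.symm))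
          · intro h
            exact absurd (Finset.mem_image_of_mem d hk) h
        rw [e1, e2]
        ring
      · rw [if_neg hk]
        refine Finset.sum_eq_zero (fun v _ => if_neg ?_)
        obtain ⟨b | b, ω⟩ := v
        · exact fun h => hk h.1.1
        · exact fun h => hk h.1.1
    rw [Finset.sum_congr rfl (fun k _ => h1 k), hS, Finset.mul_sum, ← Finset.sum_filter]
    refine Finset.sum_congr ?_ (fun _ _ => rfl)
    ext k
    simp
  have hf2 : 2 * S + 2 * H.sup' hne w ≤ 2 * ∑ v ∈ H, w v := by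
    refine le_trans (le_of_eq ?_) hf
    rw [← hleft]
    congr 1
    refine Finset.sum_congr rfl (fun v _ => Finset.sum_congr rfl (fun k _ => ?_))
    congr
  linarith

end typed

theorem forest_gain {P Q κ Ω : Type} [Fintype κ] [Nonempty κ] [Fintype Ω]
    (T : TypeGraph P Q κ) (σ : κ → Equiv.Perm Ω) (hinv : ∀ k ω, σ k (σ k ω) = ω) (η : ℝ)
    (hη : 0 < η) (N : ℕ) (hN : (T.verts univ : ℝ) / η ≤ N)
    (hred : ∀ l : List κ, l ≠ [] → l.length ≤ N → Red l →
        ∀ ω, wact (fun k ω => σ k ω) l ω ≠ ω)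
    (μ : P → Ω → ℝ) (ν : Q → Ω → ℝ) (hμ : ∀ p ω, 0 ≤ μ p ω) (hν : ∀ q ω, 0 ≤ ν q ω)
    (hμ1 : ∀ p, ∑ ω, μ p ω = 1) (hν1 : ∀ q, ∑ ω, ν q ω = 1) :
    (∀ k ω, heavySum T σ η μ ν + μ (T.src k) ω ≤ T.verts univ) ∧
    (∀ k ω, heavySum T σ η μ ν + ν (T.dst k) ω ≤ T.verts univ) := by
  classical
  have hverts : T.verts univ = ((univ : Finset κ).image T.src).card +
      ((univ : Finset κ).image T.dst).card := by
    unfold TypeGraph.verts
    congr!
  rw [hverts] at hN
  have key := fun a ha ω₀ => typed_forest T.src T.dst σ hinv univ η hη N (by convert hN) hred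
    μ ν hμ hν (fun p => (hμ1 p).le) (fun q => (hν1 q).le) a ha ω₀
  rw [hverts]
  constructor
  · intro k ω
    have h := key (Sum.inl (T.src k)) (by
      rw [Finset.inl_mem_disjSum]
      exact Finset.mem_image_of_mem _ (mem_univ k)) ω
    have h2 : heavySum T σ η μ ν ≤ ((((univ : Finset κ).image T.src).card +
      ((univ : Finset κ).image T.dst).card : ℕ) : ℝ) - μ (T.src k) ω := by
      unfold heavySum
      convert h using 1
      congr!
    linarith
  · intro k ω
    have h := key (Sum.inr (T.dst k)) (by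
      rw [Finset.inr_mem_disjSum]
      exact Finset.mem_image_of_mem _ (mem_univ k)) ω
    have h2 : heavySum T σ η μ ν ≤ ((((univ : Finset κ).image T.src).card +
      ((univ : Finset κ).image T.dst).card : ℕ) : ℝ) - ν (T.dst k) ω := by
      unfold heavySum
      convert h using 1
      congr!
    linarith

end Pool.Agent.P325t
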