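import Pool.Agent.Lib.P325t.Forest2
import Pool.Agent.Lib.P325f1f.Dich.Games

/-!
# The typed long code game: completeness and soundness with several scales
-/

open Finset
open scoped BigOperators

namespace Pool.Agent.P325t

open Pool.Agent.P325f1f.Dich

theorem typed_typed {P Q U W Λ ι Ω κ : Type} (t : ℕ) (T : TypeGraph P Q κ)
    (σ : κ → Equiv.Perm Ω) (I : Game U W Λ ι) : Typed T (typedGame t T σ I) :=
  ⟨fun p => p.1, fun p => p.1, fun e => e.2.1, σ, fun _ => ⟨rfl, rfl, rfl⟩⟩

theorem typed_sub {P Q U W Λ ι Ω κ : Type} (t : ℕ) (T : TypeGraph P Q κ) (F : Finset κ)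
    (σ : κ → Equiv.Perm Ω) (I : Game U W Λ ι) :
    Typed T (typedGame t (T.sub F) (fun k => σ k.1) I) :=
  ⟨fun p => p.1, fun p => p.1, fun e => e.2.1.1, σ, fun _ => ⟨rfl, rfl, rfl⟩⟩

section complete

variable {P Q U W Λ ι Ω κ : Type} [Fintype Λ] [DecidableEq Λ] [Fintype ι] [Fintype κ] [Fintype Ω]

theorem typed_satFrac (t : ℕ) (T : TypeGraph P Q κ) (σ : κ → Equiv.Perm Ω) (I : Game U W Λ ι)
    (A : U × (Λ → Ω) → Ω) (B : W × (Λ → Ω) → Ω) :
    (typedGame t T σ I).satFrac (fun p => A p.2) (fun p => B p.2) =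
      (longGame t σ I).satFrac A B := rfl

theorem typed_complete [Nonempty Ω] [Nonempty κ] [Nonempty Λ] (t : ℕ) (ht : 1 ≤ t)
    (T : TypeGraph P Q κ) (σ : κ → Equiv.Perm Ω) (I : Game U W Λ ι) :
    (1 - 1 / (t : ℝ)) * I.value ≤ (typedGame t T σ I).value := by
  refine (complete t ht σ I).trans ?_
  refine Real.iSup_le (fun p => ?_) (value_nonneg _)
  rw [← typed_satFrac t T σ I p.1 p.2]
  exact le_value _ _ _

end complete

section sound

variable {P Q U W Λ ι Ω κ : Type} [Fintype Λ] [DecidableEq Λ] [Fintype ι] [Fintype κ]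
  [Fintype Ω] [DecidableEq Ω]

theorem satFrac_typed {o : Ω} (Φ : Sys Ω o) (t : ℕ) (ht : 1 ≤ t) (T : TypeGraph P Q κ)
    (σ : κ → Equiv.Perm Ω) (I : Game U W Λ ι) (A : P × U × (Λ → Ω) → Ω)
    (B : Q × W × (Λ → Ω) → Ω) :
    (typedGame t T σ I).satFrac A B = 𝔼 e, 𝔼 k, ∑ ω, ∑ α,
      (1 - 1 / (t : ℝ)) ^ (supp o α).card *
        ((Φ.pi Λ).coef (ind (fun x => A (T.src k, I.src e, x)) ω) α *
         (Φ.pi Λ).coef (trans (σ k) (I.perm e) (fun x => B (T.dst k, I.dst e, x)) ω) α) := by
  rw [satFrac_eq, expect_pair]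
  refine Finset.expect_congr rfl (fun e _ => ?_)
  rw [expect_pair]
  refine Finset.expect_congr rfl (fun k _ => ?_)
  have h1 : ∀ ω, (∑ α, (1 - 1 / (t : ℝ)) ^ (supp o α).card *
        ((Φ.pi Λ).coef (ind (fun x => A (T.src k, I.src e, x)) ω) α *
         (Φ.pi Λ).coef (trans (σ k) (I.perm e) (fun x => B (T.dst k, I.dst e, x)) ω) α)) =
      𝔼 x, 𝔼 s : Λ → Fin t × Ω, ind (fun x => A (T.src k, I.src e, x)) ω x *
        ind (fun x => B (T.dst k, I.dst e, x)) (σ k ω)
          (fun i => σ k (mix x s ((I.perm e).symm i))) := by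
    intro ω
    rw [← noise Φ t ht]
    rfl
  simp_rw [h1]
  rw [← Finset.expect_sum_comm, expect_pair]
  refine Finset.expect_congr rfl (fun x _ => ?_)
  rw [← Finset.expect_sum_comm]
  refine Finset.expect_congr rfl (fun s _ => ?_)
  have h2 : ∀ a b : Ω, ∑ ω, (if a = ω then (1 : ℝ) else 0) *
      (if b = σ k ω then (1 : ℝ) else 0) = if σ k a = b then 1 else 0 := by
    intro a b
    rw [Finset.sum_eq_single a]
    · rw [if_pos rfl, one_mul]
      by_cases h : σ k a = b
      · rw [if_pos h, if_pos h.symm]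
      · rw [if_neg h, if_neg (fun h' => h h'.symm)]
    · intro c _ hc
      rw [if_neg (fun h => hc h.symm), zero_mul]
    · intro h
      exact absurd (mem_univ a) h
  simp only [ind]
  rw [h2]
  rfl

/-- Soundness: for every pair of systems of distributions one of the scales `θ j` has a small
acceptance on the heavy labels. -/
theorem sound_scales {J : Type} [Fintype J] [Nonempty Ω] [Nonempty κ] (T : TypeGraph P Q κ)
    (σ : κ → Equiv.Perm Ω) (t : ℕ) (ht : 1 ≤ t)
    (θ : J → ℝ) (hθ0 : ∀ j, 0 < θ j) (hθ1 : ∀ j, θ j ≤ 1) (c : ℝ) (hc0 : 0 ≤ c)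
    (hc : ∀ (μ : P → Ω → ℝ) (ν : Q → Ω → ℝ), (∀ p ω, 0 ≤ μ p ω) → (∀ q ω, 0 ≤ ν q ω) →
      (∀ p, ∑ ω, μ p ω = 1) → (∀ q, ∑ ω, ν q ω = 1) →
      ∃ j, heavySum T σ ((θ j ^ 2) ^ (4 * t)) μ ν / (Fintype.card κ : ℝ) + 5 * θ j ≤ c) :
    ∃ M : ℝ, ∀ (U W Λ ι : Type) [Fintype Λ] [DecidableEq Λ] [Nonempty Λ] [Fintype ι]
      [Nonempty ι] (I : Game U W Λ ι), (typedGame t T σ I).value ≤ c + M * I.value := by
  classical
  obtain ⟨o⟩ := ‹Nonempty Ω›
  have hneO : Nonempty Ω := ⟨o⟩
  obtain ⟨Φ⟩ := exists_sys o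
  choose D τ τ' hτ'0 hττ' p1 p2 p3 using
    fun j => params t (Fintype.card Ω) ht (θ j ^ 2) (by have := hθ0 j; positivity)
  set k : J → ℕ := fun j => ⌈(D j : ℝ) / τ' j⌉₊ with hk
  refine ⟨∑ j, (Fintype.card κ : ℝ) * ((k j : ℝ) * k j), ?_⟩
  intro U W Λ ι _ _ _ _ _ I
  have hι : (0 : ℝ) < Fintype.card ι := by exact_mod_cast Fintype.card_pos
  have hv := value_nonneg I
  have hsupr : ∀ p : (P × U × (Λ → Ω) → Ω) × (Q × W × (Λ → Ω) → Ω),
      (typedGame t T σ I).satFrac p.1 p.2 ≤
        c + (∑ j, (Fintype.card κ : ℝ) * ((k j : ℝ) * k j)) * I.value := by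
    rintro ⟨A, B⟩
    rw [satFrac_typed Φ t ht]
    -- the lists
    set LU : J → P → U → Finset Λ := fun j p u =>
      univ.filter (fun i => τ' j ≤ JJ Φ (D j) (ind (fun x => A (p, u, x))) i) with hLU
    set LW : J → Q → W → Finset Λ := fun j q w =>
      univ.filter (fun i => τ' j ≤ JJ Φ (D j) (ind (fun x => B (q, w, x))) i) with hLW
    have hLUc : ∀ j p u, (LU j p u).card ≤ k j := by
      intro j p u
      have h1 := card_big Φ (D j) (h := ind (fun x => A (p, u, x))) (ind_nonneg _) (ind_sum _)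
        (hτ'0 j)
      have h2 : ((LU j p u).card : ℝ) ≤ (k j : ℝ) := h1.trans (Nat.le_ceil _)
      exact_mod_cast h2
    have hLWc : ∀ j q w, (LW j q w).card ≤ k j := by
      intro j q w
      have h1 := card_big Φ (D j) (h := ind (fun x => B (q, w, x))) (ind_nonneg _) (ind_sum _)
        (hτ'0 j)
      have h2 : ((LW j q w).card : ℝ) ≤ (k j : ℝ) := h1.trans (Nat.le_ceil _)
      exact_mod_cast h2
    choose fU hfU using fun j p u =>
      exists_enum (Classical.arbitrary Λ) (k j) (LU j p u) (hLUc j p u)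
    choose fW hfW using fun j q w =>
      exists_enum (Classical.arbitrary Λ) (k j) (LW j q w) (hLWc j q w)
    -- decodable edges
    set Dec : ι → Prop := fun e => ∃ j l, ∃ i ∈ LU j (T.src l) (I.src e),
      I.perm e i ∈ LW j (T.dst l) (I.dst e) with hDec
    have hedge : ∀ e, (𝔼 k, ∑ ω, ∑ α, (1 - 1 / (t : ℝ)) ^ (supp o α).card *
        ((Φ.pi Λ).coef (ind (fun x => A (T.src k, I.src e, x)) ω) α *
         (Φ.pi Λ).coef (trans (σ k) (I.perm e) (fun x => B (T.dst k, I.dst e, x)) ω) α)) ≤
        c + if Dec e then 1 else 0 := by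
      intro e
      by_cases hd : Dec e
      · rw [if_pos hd]
        have h1 : (𝔼 k, ∑ ω, ∑ α, (1 - 1 / (t : ℝ)) ^ (supp o α).card *
          ((Φ.pi Λ).coef (ind (fun x => A (T.src k, I.src e, x)) ω) α *
          (Φ.pi Λ).coef (trans (σ k) (I.perm e) (fun x => B (T.dst k, I.dst e, x)) ω) α)) ≤ 1 :=
          Finset.expect_le Finset.univ_nonempty (fun k _ => acc_le_one Φ t ht _ _ _ _)
        linarith
      · rw [if_neg hd, add_zero]
        obtain ⟨j, hj⟩ := hc (fun p ω => 𝔼 x, ind (fun x => A (p, I.src e, x)) ω x)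
          (fun q ω => 𝔼 x, ind (fun x => B (q, I.dst e, x)) ω x)
          (fun p ω => Finset.expect_nonneg (fun x _ => ind_nonneg _ _ _))
          (fun q ω => Finset.expect_nonneg (fun x _ => ind_nonneg _ _ _))
          (fun p => sum_expect Φ (ind_sum _)) (fun q => sum_expect Φ (ind_sum _))
        have hacc : ∀ k, (∑ ω, ∑ α, (1 - 1 / (t : ℝ)) ^ (supp o α).card *
          ((Φ.pi Λ).coef (ind (fun x => A (T.src k, I.src e, x)) ω) α *
          (Φ.pi Λ).coef (trans (σ k) (I.perm e) (fun x => B (T.dst k, I.dst e, x)) ω) α)) ≤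
            4 * θ j + θ j ^ 2 + ∑ ω, if (θ j ^ 2) ^ (4 * t) <
                (𝔼 x, ind (fun x => A (T.src k, I.src e, x)) ω x) ∧
              (θ j ^ 2) ^ (4 * t) < (𝔼 x, ind (fun x => B (T.dst k, I.dst e, x)) (σ k ω) x)
                then min (𝔼 x, ind (fun x => A (T.src k, I.src e, x)) ω x)
                  (𝔼 x, ind (fun x => B (T.dst k, I.dst e, x)) (σ k ω) x) else 0 := by
          intro k
          have h1 := accept_min Φ (D j) (h := ind (fun x => A (T.src k, I.src e, x)))
            (g := trans (σ k) (I.perm e) (fun x => B (T.dst k, I.dst e, x))) (ind_nonneg _)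
            (ind_sum _) (fun ω x => ind_nonneg _ _ _) (trans_sum _ _ _) t ht (θ j) (hθ0 j)
            (τ j) (τ' j)
            ((hτ'0 j).trans_le (hττ' j)) (hττ' j) (hτ'0 j).le (p1 j) (p2 j) (p3 j) (by
              intro i
              by_contra hcon
              push Not at hcon
              apply hd
              refine ⟨j, k, i, ?_, ?_⟩
              · rw [hLU, Finset.mem_filter]
                exact ⟨mem_univ _, hcon.1⟩
              · rw [hLW, Finset.mem_filter]
                refine ⟨mem_univ _, ?_⟩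
                rw [← JJ_move Φ (D j) (σ k) (σ k) (I.perm e)
                  (ind (fun x => B (T.dst k, I.dst e, x))) i]
                exact hcon.2)
          refine h1.trans (le_of_eq ?_)
          congr 1
          refine Finset.sum_congr rfl (fun ω _ => ?_)
          have h2 : (𝔼 x, trans (σ k) (I.perm e) (fun x => B (T.dst k, I.dst e, x)) ω x) =
              𝔼 x, ind (fun x => B (T.dst k, I.dst e, x)) (σ k ω) x :=
            mean_move (σ k) (I.perm e) (ind (fun x => B (T.dst k, I.dst e, x)) (σ k ω))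
          rw [h2]
        refine (Finset.expect_le_expect (fun k _ => hacc k)).trans ?_
        rw [Finset.expect_add_distrib, Fintype.expect_const]
        have h4 : θ j ^ 2 ≤ θ j := by nlinarith [hθ0 j, hθ1 j]
        have h5 : (𝔼 k, ∑ ω, if (θ j ^ 2) ^ (4 * t) <
                (𝔼 x, ind (fun x => A (T.src k, I.src e, x)) ω x) ∧
              (θ j ^ 2) ^ (4 * t) < (𝔼 x, ind (fun x => B (T.dst k, I.dst e, x)) (σ k ω) x)
                then min (𝔼 x, ind (fun x => A (T.src k, I.src e, x)) ω x)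
                  (𝔼 x, ind (fun x => B (T.dst k, I.dst e, x)) (σ k ω) x) else 0) =
            heavySum T σ ((θ j ^ 2) ^ (4 * t))
              (fun p ω => 𝔼 x, ind (fun x => A (p, I.src e, x)) ω x)
              (fun q ω => 𝔼 x, ind (fun x => B (q, I.dst e, x)) ω x) /
              (Fintype.card κ : ℝ) := by
          rw [Fintype.expect_eq_sum_div_card, heavySum]
        rw [h5]
        linarith
    refine (Finset.expect_le_expect (fun e _ => hedge e)).trans ?_
    rw [Finset.expect_add_distrib, Fintype.expect_const]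
    refine add_le_add le_rfl ?_
    -- decoding
    have hpt : ∀ e, (if Dec e then (1 : ℝ) else 0) ≤ ∑ j : J, ∑ l : κ, ∑ a : Fin (k j),
        ∑ b : Fin (k j), if I.perm e (fU j (T.src l) (I.src e) a) = fW j (T.dst l) (I.dst e) b
          then (1 : ℝ) else 0 := by
      intro e
      have hnn : ∀ (j : J) (l : κ) (a b : Fin (k j)), (0 : ℝ) ≤
          if I.perm e (fU j (T.src l) (I.src e) a) = fW j (T.dst l) (I.dst e) b
            then (1 : ℝ) else 0 := by
        intro j l a b
        split_ifs <;> norm_num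
      by_cases hd : Dec e
      · rw [if_pos hd]
        obtain ⟨j, l, i, hi, hi'⟩ := hd
        obtain ⟨a, ha⟩ := hfU _ _ _ i hi
        obtain ⟨b, hb⟩ := hfW _ _ _ _ hi'
        have h1 : (1 : ℝ) ≤ ∑ b : Fin (k j),
            if I.perm e (fU j (T.src l) (I.src e) a) = fW j (T.dst l) (I.dst e) b
              then (1 : ℝ) else 0 := by
          refine le_trans (le_of_eq ?_) (Finset.single_le_sum (f := fun b : Fin (k j) =>
            if I.perm e (fU j (T.src l) (I.src e) a) = fW j (T.dst l) (I.dst e) b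
              then (1 : ℝ) else 0) (fun b _ => hnn j l a b) (mem_univ b))
          rw [if_pos (by rw [ha, hb])]
        have h2 : (1 : ℝ) ≤ ∑ a : Fin (k j), ∑ b : Fin (k j),
            if I.perm e (fU j (T.src l) (I.src e) a) = fW j (T.dst l) (I.dst e) b
              then (1 : ℝ) else 0 :=
          h1.trans (Finset.single_le_sum (f := fun a : Fin (k j) => ∑ b : Fin (k j),
            if I.perm e (fU j (T.src l) (I.src e) a) = fW j (T.dst l) (I.dst e) b
              then (1 : ℝ) else 0)
            (fun a _ => Finset.sum_nonneg (fun b _ => hnn j l a b)) (mem_univ a))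
        have h3 : (1 : ℝ) ≤ ∑ l : κ, ∑ a : Fin (k j), ∑ b : Fin (k j),
            if I.perm e (fU j (T.src l) (I.src e) a) = fW j (T.dst l) (I.dst e) b
              then (1 : ℝ) else 0 :=
          h2.trans (Finset.single_le_sum (f := fun l : κ => ∑ a : Fin (k j), ∑ b : Fin (k j),
            if I.perm e (fU j (T.src l) (I.src e) a) = fW j (T.dst l) (I.dst e) b
              then (1 : ℝ) else 0)
            (fun l _ => Finset.sum_nonneg (fun a _ => Finset.sum_nonneg
              (fun b _ => hnn j l a b))) (mem_univ l))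
        exact h3.trans (Finset.single_le_sum (f := fun j : J => ∑ l : κ, ∑ a : Fin (k j),
            ∑ b : Fin (k j),
            if I.perm e (fU j (T.src l) (I.src e) a) = fW j (T.dst l) (I.dst e) b
              then (1 : ℝ) else 0)
            (fun j _ => Finset.sum_nonneg (fun l _ => Finset.sum_nonneg
              (fun a _ => Finset.sum_nonneg (fun b _ => hnn j l a b)))) (mem_univ j))
      · rw [if_neg hd]
        exact Finset.sum_nonneg (fun j _ => Finset.sum_nonneg (fun l _ => Finset.sum_nonneg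
          (fun a _ => Finset.sum_nonneg (fun b _ => hnn j l a b))))
    refine (Finset.expect_le_expect (fun e _ => hpt e)).trans ?_
    rw [Finset.expect_sum_comm, Finset.sum_mul]
    refine Finset.sum_le_sum (fun j _ => ?_)
    rw [Finset.expect_sum_comm]
    have hjj : ∀ (l : κ) (a b : Fin (k j)),
        (𝔼 e, if I.perm e (fU j (T.src l) (I.src e) a) = fW j (T.dst l) (I.dst e) b then
        (1 : ℝ) else 0) ≤ I.value := by
      intro l a b
      rw [← satFrac_eq I (fun u => fU j (T.src l) u a) (fun w => fW j (T.dst l) w b)]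
      exact le_value I _ _
    have hl : ∀ l : κ, (𝔼 e, ∑ a : Fin (k j), ∑ b : Fin (k j),
        if I.perm e (fU j (T.src l) (I.src e) a) = fW j (T.dst l) (I.dst e) b then
        (1 : ℝ) else 0) ≤ (k j : ℝ) * k j * I.value := by
      intro l
      rw [Finset.expect_sum_comm]
      simp_rw [Finset.expect_sum_comm]
      refine (Finset.sum_le_sum (fun a _ => Finset.sum_le_sum (fun b _ => hjj l a b))).trans ?_
      rw [Finset.sum_const, Finset.sum_const, Finset.card_univ, Fintype.card_fin, nsmul_eq_mul,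
        nsmul_eq_mul, mul_assoc]
    refine (Finset.sum_le_sum (fun l _ => hl l)).trans (le_of_eq ?_)
    rw [Finset.sum_const, Finset.card_univ, nsmul_eq_mul]
    ring
  refine Real.iSup_le hsupr ?_
  have : 0 ≤ ∑ j, (Fintype.card κ : ℝ) * ((k j : ℝ) * k j) :=
    Finset.sum_nonneg (fun j _ => by positivity)
  positivity

end sound

end Pool.Agent.P325t
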