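import Pool.Agent.Lib.P325t.Defs
import Pool.Agent.Lib.P325f1f.Amen.Defs
import Pool.Agent.Lib.P325t.SdpDefs
import Pool.Agent.Lib.P325f1f.Dich.Games

/-!
# Vector solutions of the typed long code game
-/

open Finset
open scoped BigOperators

namespace Pool.Agent.P325t

open Pool.Agent.P325f1f.Dich Pool.Agent.P325f1f.Amen

open scoped Classical in
/-- The vectors of the colour classes. -/
noncomputable def liftSol {V V' Λ Ω : Type} [Fintype Λ] {D : ℕ} (X : V → Λ → Fin D → ℝ)
    (base : V' → V) (col : V' → Λ → Ω) : V' → Ω → Fin D → ℝ :=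
  fun v ω i => ∑ l, if col v l = ω then X (base v) l i else 0

section

variable {V V' Λ Ω : Type} [Fintype Λ] {D : ℕ}

open scoped Classical in
theorem lift_inner (X : V → Λ → Fin D → ℝ) (base : V' → V) (col : V' → Λ → Ω) (v v' : V')
    (ω ω' : Ω) : ∑ i, liftSol X base col v ω i * liftSol X base col v' ω' i =
      ∑ l, ∑ l', if col v l = ω ∧ col v' l' = ω' then ∑ i, X (base v) l i * X (base v') l' i
        else 0 := by
  unfold liftSol
  simp_rw [Finset.sum_mul_sum]
  rw [Finset.sum_comm]
  refine Finset.sum_congr rfl fun l _ => ?_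
  rw [Finset.sum_comm]
  refine Finset.sum_congr rfl fun l' _ => ?_
  by_cases h : col v l = ω
  · by_cases h' : col v' l' = ω'
    · simp [h, h']
    · simp [h']
  · simp [h]

theorem lift_isSol [Fintype Ω] {X : V → Λ → Fin D → ℝ} (hX : IsSol X) (base : V' → V)
    (col : V' → Λ → Ω) : IsSol (liftSol X base col) := by
  classical
  refine ⟨fun v => ⟨?_, ?_⟩, ?_, ?_⟩
  · intro ω ω' hne
    rw [lift_inner]
    refine Finset.sum_eq_zero fun l _ => Finset.sum_eq_zero fun l' _ => ?_
    split_ifs with h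
    · refine (hX.sys (base v)).1 l l' ?_
      rintro rfl
      exact hne (h.1.symm.trans h.2)
    · rfl
  · have h1 : ∀ ω, nsq (liftSol X base col v ω) =
        ∑ l, if col v l = ω then nsq (X (base v) l) else 0 := by
      intro ω
      have h2 : nsq (liftSol X base col v ω) =
          ∑ i, liftSol X base col v ω i * liftSol X base col v ω i := by
        unfold nsq
        exact Finset.sum_congr rfl fun i _ => sq _
      rw [h2, lift_inner]
      refine Finset.sum_congr rfl fun l _ => ?_
      rw [Finset.sum_eq_single l]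
      · unfold nsq
        simp only [and_self, sq]
      · intro l' _ hne
        split_ifs with h
        · exact (hX.sys (base v)).1 l l' hne.symm
        · rfl
      · intro h
        exact absurd (Finset.mem_univ _) h
    rw [Finset.sum_congr rfl fun ω _ => h1 ω, Finset.sum_comm, ← (hX.sys (base v)).2]
    refine Finset.sum_congr rfl fun l _ => ?_
    rw [Finset.sum_ite_eq, if_pos (Finset.mem_univ _)]
  · intro v v' ω ω'
    rw [lift_inner]
    refine Finset.sum_nonneg fun l _ => Finset.sum_nonneg fun l' _ => ?_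
    split_ifs
    · exact hX.nonneg _ _ _ _
    · exact le_rfl
  · obtain ⟨z, hz⟩ := hX.sum
    refine ⟨z, fun v i => ?_⟩
    rw [← hz (base v) i]
    unfold liftSol
    rw [Finset.sum_comm]
    refine Finset.sum_congr rfl fun l _ => ?_
    rw [Finset.sum_ite_eq, if_pos (Finset.mem_univ _)]

end

section typed

variable {P Q U W Λ ι Ω κ : Type} [Fintype Λ] [DecidableEq Λ] [Fintype ι] [Fintype κ]
  [Fintype Ω] {D : ℕ}

/-- The solution of the typed long code game. -/
noncomputable def typedSol (P Q Ω : Type) (X : U ⊕ W → Λ → Fin D → ℝ) :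
    (P × U × (Λ → Ω)) ⊕ (Q × W × (Λ → Ω)) → Ω → Fin D → ℝ :=
  liftSol X (Sum.map (fun p => p.2.1) (fun q => q.2.1)) (Sum.elim (fun p => p.2.2) (fun q => q.2.2))

theorem typedSol_isSol {X : U ⊕ W → Λ → Fin D → ℝ} (hX : IsSol X) :
    IsSol (typedSol P Q Ω X) := lift_isSol hX _ _

/-- The objective of the solution of the typed long code game. -/
theorem typedSol_obj [Nonempty κ] [Nonempty Ω] (t : ℕ) (ht : 1 ≤ t) (T : TypeGraph P Q κ)
    (σ : κ → Equiv.Perm Ω) (I : Game U W Λ ι) {X : U ⊕ W → Λ → Fin D → ℝ} (hX : IsSol X) :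
    (1 - 1 / (t : ℝ)) * sdpObj I X ≤ sdpObj (typedGame t T σ I) (typedSol P Q Ω X) := by
  classical
  have hne : Nonempty (Fin t × Ω) := ⟨(⟨0, ht⟩, Classical.arbitrary Ω)⟩
  set A : ι → Λ → ℝ := fun e l =>
    ∑ i, X (Sum.inl (I.src e)) l i * X (Sum.inr (I.dst e)) (I.perm e l) i with hA
  have hA0 : ∀ e l, 0 ≤ A e l := fun e l => hX.nonneg _ _ _ _
  have h1 : (𝔼 p : ι × κ × (Λ → Ω) × (Λ → Fin t × Ω), ∑ l, A p.1 l *
      (if (p.2.2.2 l).1.val = 0 then (0 : ℝ) else 1)) = (1 - 1 / (t : ℝ)) * sdpObj I X := by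
    rw [expect_pair, sdpObj, Finset.mul_expect]
    refine Finset.expect_congr rfl (fun e _ => ?_)
    have h2 : ∀ l, (𝔼 s : Λ → Fin t × Ω,
        (if (s l).1.val = 0 then (0 : ℝ) else 1)) = 1 - 1 / (t : ℝ) := by
      intro l
      rw [expect_coord l
        (fun p : Fin t × Ω => if p.1.val = 0 then (0 : ℝ) else 1),
        expect_pair]
      have h3 : ∀ k : Fin t, (𝔼 _z : Ω, (if k.val = 0 then (0 : ℝ) else 1)) =
          if k.val = 0 then (0 : ℝ) else 1 := fun k => Fintype.expect_const _
      simp only [h3]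
      rw [expect_fin t ht]
      ring
    have h4 : ∀ l, (𝔼 r : κ × (Λ → Ω) × (Λ → Fin t × Ω), A e l *
        (if (r.2.2 l).1.val = 0 then (0 : ℝ) else 1)) = (1 - 1 / (t : ℝ)) * A e l := by
      intro l
      rw [← Finset.mul_expect, expect_pair, mul_comm]
      congr 1
      refine (Finset.expect_congr rfl (fun k _ => ?_)).trans (Fintype.expect_const _)
      rw [expect_pair]
      exact (Finset.expect_congr rfl (fun x _ => h2 l)).trans (Fintype.expect_const _)
    show (𝔼 r : κ × (Λ → Ω) × (Λ → Fin t × Ω), ∑ l, A e l *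
        (if (r.2.2 l).1.val = 0 then (0 : ℝ) else 1)) = (1 - 1 / (t : ℝ)) * ∑ l, A e l
    rw [Finset.expect_sum_comm, Finset.sum_congr rfl fun l _ => h4 l, ← Finset.mul_sum]
  rw [← h1]
  refine Finset.expect_le_expect (fun p _ => ?_)
  obtain ⟨e, k, x, s⟩ := p
  show ∑ l, A e l * (if (s l).1.val = 0 then (0 : ℝ) else 1) ≤
    ∑ ω, ∑ i, typedSol P Q Ω X (Sum.inl (T.src k, I.src e, x)) ω i *
      typedSol P Q Ω X (Sum.inr (T.dst k, I.dst e,
        fun i => σ k (mix x s ((I.perm e).symm i)))) (σ k ω) i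
  have h5 : ∀ ω, ∑ l, (if x l = ω ∧ mix x s l = ω then A e l else 0) ≤
      ∑ i, typedSol P Q Ω X (Sum.inl (T.src k, I.src e, x)) ω i *
      typedSol P Q Ω X (Sum.inr (T.dst k, I.dst e,
        fun i => σ k (mix x s ((I.perm e).symm i)))) (σ k ω) i := by
    intro ω
    unfold typedSol
    rw [lift_inner]
    refine Finset.sum_le_sum fun l _ => ?_
    refine le_trans (le_of_eq ?_) (Finset.single_le_sum (f := fun l' =>
      if Sum.elim (fun p : P × U × (Λ → Ω) => p.2.2) (fun q : Q × W × (Λ → Ω) => q.2.2)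
          (Sum.inl (T.src k, I.src e, x)) l = ω ∧
        Sum.elim (fun p : P × U × (Λ → Ω) => p.2.2) (fun q : Q × W × (Λ → Ω) => q.2.2)
          (Sum.inr (T.dst k, I.dst e, fun i => σ k (mix x s ((I.perm e).symm i)))) l' = σ k ω
      then ∑ i, X (Sum.map (fun p : P × U × (Λ → Ω) => p.2.1) (fun q : Q × W × (Λ → Ω) => q.2.1)
          (Sum.inl (T.src k, I.src e, x))) l i *
        X (Sum.map (fun p : P × U × (Λ → Ω) => p.2.1) (fun q : Q × W × (Λ → Ω) => q.2.1)
          (Sum.inr (T.dst k, I.dst e, fun i => σ k (mix x s ((I.perm e).symm i))))) l' i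
      else 0) ?_ (Finset.mem_univ (I.perm e l)))
    · show (if x l = ω ∧ mix x s l = ω then A e l else 0) =
        if x l = ω ∧ σ k (mix x s ((I.perm e).symm (I.perm e l))) = σ k ω then
          ∑ i, X (Sum.inl (I.src e)) l i * X (Sum.inr (I.dst e)) (I.perm e l) i else 0
      rw [Equiv.symm_apply_apply]
      simp only [EmbeddingLike.apply_eq_iff_eq]
      rfl
    · intro l' _
      split_ifs
      · exact hX.nonneg _ _ _ _
      · exact le_rfl
  refine le_trans ?_ (Finset.sum_le_sum fun ω _ => h5 ω)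
  rw [Finset.sum_comm]
  refine Finset.sum_le_sum fun l _ => ?_
  have h6 : ∑ ω, (if x l = ω ∧ mix x s l = ω then A e l else 0) =
      if mix x s l = x l then A e l else 0 := by
    rw [Finset.sum_eq_single (x l)]
    · simp
    · intro ω _ hne
      rw [if_neg fun h => hne h.1.symm]
    · intro h
      exact absurd (Finset.mem_univ _) h
  rw [h6]
  by_cases hk : (s l).1.val = 0
  · rw [if_pos hk, mul_zero]
    split_ifs
    · exact hA0 e l
    · exact le_rfl
  · rw [if_neg hk, mul_one, if_pos]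
    rw [mix, if_neg hk]

end typed

end Pool.Agent.P325t
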