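import Pool.Agent.Lib.P325t.SdpGap
import Pool.Agent.Lib.P325t.WHard

/-!
# Semidefinite gaps for games with a type graph and frequencies
-/

open Finset
open scoped BigOperators

namespace Pool.Agent.P325t

open Pool.Agent.P325f1f.Dich Pool.Agent.P325f1f.Amen

/-- If the largest weight of a sparse set of edge types is less than the total weight then there are
games of this type whose value is less than the quotient, with vector solutions of objective close
to one. -/
theorem sdp_gapW {P Q κ : Type} [Fintype κ] (T : TypeGraph P Q κ) (w : κ → ℕ)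
    (hw : T.maxWeight w < ∑ k, w k) (ε : ℝ) (hε : 0 < ε) :
    ∃ (U W Ω ι : Type) (_ : Fintype Ω) (_ : Nonempty Ω) (_ : Fintype ι) (_ : Nonempty ι)
      (J : Game U W Ω ι) (D : ℕ) (X : U ⊕ W → Ω → Fin D → ℝ),
      TypedWith T w J ∧ IsSol X ∧ 1 - ε ≤ sdpObj J X ∧
        J.value < (T.maxWeight w : ℝ) / ((∑ k, w k : ℕ) : ℝ) := by
  classical
  set ε' : ℝ := min ε 1 with hε'
  have h0 : 0 < ε' := lt_min hε one_pos
  have h1 : ε' ≤ 1 := min_le_right _ _
  obtain ⟨t, ht⟩ := exists_nat_gt (2 / ε')
  have ht2 : (2 : ℝ) < t := by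
    refine lt_of_le_of_lt ?_ ht
    rw [le_div_iff₀ h0]
    linarith
  have ht1 : 1 ≤ t := by
    have : (1 : ℝ) ≤ t := by linarith
    exact_mod_cast this
  obtain ⟨Ω, _, _, σ, c, M, hc, hgame⟩ := hardW T w hw t ht1
  obtain ⟨U, W, Λ, ι, _, _, _, _, _, I, D, X, hX, hobj, hval⟩ :=
    gap_games (1 - ε' / 2) (c / (2 * (|M| + 1))) (by linarith) (by positivity)
  obtain ⟨hT, hcomp, hsound⟩ := hgame U W Λ ι I
  have hpos : 0 < I.value := value_pos I
  have htr : 1 / (t : ℝ) < ε' / 2 := by
    rw [div_lt_iff₀ (by linarith)]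
    rw [div_lt_iff₀ h0] at ht
    linarith
  have hκ : Nonempty ((k : κ) × Fin (w k)) := by
    by_contra hcon
    have h2 : ∑ k, w k = 0 := by
      refine Finset.sum_eq_zero fun k _ => ?_
      by_contra h3
      exact hcon ⟨⟨k, ⟨0, Nat.pos_of_ne_zero h3⟩⟩⟩
    omega
  have hne : Nonempty (Fin t × Ω) := ⟨(⟨0, ht1⟩, Classical.arbitrary Ω)⟩
  refine ⟨_, _, Ω, _, inferInstance, inferInstance, inferInstance, inferInstance,
    typedGame t (T.copies w) (fun p => σ p.1) I, D, typedSol P Q Ω X, hT, typedSol_isSol hX,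
    ?_, ?_⟩
  · have h2 := typedSol_obj t ht1 (T.copies w) (fun p => σ p.1) I hX
    refine le_trans ?_ h2
    have h3 : (1 - ε' / 2) * (1 - ε' / 2) ≤ (1 - 1 / (t : ℝ)) * sdpObj I X := by
      refine mul_le_mul (by linarith) hobj (by linarith) (by linarith)
    have h4 : ε' ≤ ε := min_le_left _ _
    nlinarith
  · have h2 : M * I.value ≤ c / 2 := by
      have h3 : M * I.value ≤ |M| * (c / (2 * (|M| + 1))) := by
        refine (mul_le_mul_of_nonneg_right (le_abs_self M) hpos.le).trans ?_
        exact mul_le_mul_of_nonneg_left hval (abs_nonneg M)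
      refine h3.trans ?_
      rw [mul_div_assoc', div_le_div_iff₀ (by positivity) two_pos]
      have := abs_nonneg M
      nlinarith
    linarith

end Pool.Agent.P325t
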