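import Pool.Agent.Lib.P325t.Long
import Pool.Agent.Lib.P325t.WDefs

/-!
# Soundness of the typed long code game with a scale for every edge type
-/

open Finset
open scoped BigOperators

namespace Pool.Agent.P325t

open Pool.Agent.P325f1f.Dich

/-- The sum over the edges of type `k` with two heavy ends of the minimum of the weights. -/
noncomputable def hsum {P Q κ Ω : Type} [Fintype Ω] (T : TypeGraph P Q κ)
    (σ : κ → Equiv.Perm Ω) (η : ℝ) (μ : P → Ω → ℝ) (ν : Q → Ω → ℝ) (k : κ) : ℝ :=
  ∑ ω, if η < μ (T.src k) ω ∧ η < ν (T.dst k) (σ k ω)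
    then min (μ (T.src k) ω) (ν (T.dst k) (σ k ω)) else 0

section sound

variable {P Q U W Λ ι Ω κ : Type} [Fintype Λ] [DecidableEq Λ] [Fintype ι] [Fintype κ]
  [Fintype Ω] [DecidableEq Ω]

/-- Soundness: for every pair of systems of distributions there is a choice of a scale for every edge
type with a small acceptance on the heavy labels. -/
theorem sound_types {J : Type} [Fintype J] [Nonempty Ω] [Nonempty κ] (T : TypeGraph P Q κ)
    (σ : κ → Equiv.Perm Ω) (t : ℕ) (ht : 1 ≤ t)
    (θ : J → ℝ) (hθ0 : ∀ j, 0 < θ j) (hθ1 : ∀ j, θ j ≤ 1) (c : ℝ) (hc0 : 0 ≤ c)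
    (hc : ∀ (μ : P → Ω → ℝ) (ν : Q → Ω → ℝ), (∀ p ω, 0 ≤ μ p ω) → (∀ q ω, 0 ≤ ν q ω) →
      (∀ p, ∑ ω, μ p ω = 1) → (∀ q, ∑ ω, ν q ω = 1) →
      ∃ j : κ → J, (∑ k, (hsum T σ ((θ (j k) ^ 2) ^ (4 * t)) μ ν k + 5 * θ (j k))) /
        (Fintype.card κ : ℝ) ≤ c) :
    ∃ M : ℝ, ∀ (U W Λ ι : Type) [Fintype Λ] [DecidableEq Λ] [Nonempty Λ] [Fintype ι]
      [Nonempty ι] (I : Game U W Λ ι), (typedGame t T σ I).value ≤ c + M * I.value := by
  classical
  obtain ⟨o⟩ := ‹Nonempty Ω›
  have hneO : Nonempty Ω := ⟨o⟩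
  obtain ⟨Φ⟩ := exists_sys o
  choose D τ τ' hτ'0 hττ' p1 p2 p3 using
    fun j => params t (Fintype.card Ω) ht (θ j ^ 2) (by have := hθ0 j; positivity)
  set k : J → ℕ := fun j => ⌈(D j : ℝ) / τ' j⌉₊ with hk
  refine ⟨∑ j, (Fintype.card κ : ℝ) * ((k j : ℝ) * k j), ?_⟩
  intro U W Λ ι _ _ _ _ _ I
  have hι : (0 : ℝ) < Fintype.card ι := by exact_mod_cast Fintype.card_pos
  have hv := value_nonneg I
  have hsupr : ∀ p : (P × U × (Λ → Ω) → Ω) × (Q × W × (Λ → Ω) → Ω),
      (typedGame t T σ I).satFrac p.1 p.2 ≤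
        c + (∑ j, (Fintype.card κ : ℝ) * ((k j : ℝ) * k j)) * I.value := by
    rintro ⟨A, B⟩
    rw [satFrac_typed Φ t ht]
    -- the lists
    set LU : J → P → U → Finset Λ := fun j p u =>
      univ.filter (fun i => τ' j ≤ JJ Φ (D j) (ind (fun x => A (p, u, x))) i) with hLU
    set LW : J → Q → W → Finset Λ := fun j q w =>
      univ.filter (fun i => τ' j ≤ JJ Φ (D j) (ind (fun x => B (q, w, x))) i) with hLW
    have hLUc : ∀ j p u, (LU j p u).card ≤ k j := by
      intro j p u
      have h1 := card_big Φ (D j) (h := ind (fun x => A (p, u, x))) (ind_nonneg _) (ind_sum _)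
        (hτ'0 j)
      have h2 : ((LU j p u).card : ℝ) ≤ (k j : ℝ) := h1.trans (Nat.le_ceil _)
      exact_mod_cast h2
    have hLWc : ∀ j q w, (LW j q w).card ≤ k j := by
      intro j q w
      have h1 := card_big Φ (D j) (h := ind (fun x => B (q, w, x))) (ind_nonneg _) (ind_sum _)
        (hτ'0 j)
      have h2 : ((LW j q w).card : ℝ) ≤ (k j : ℝ) := h1.trans (Nat.le_ceil _)
      exact_mod_cast h2
    choose fU hfU using fun j p u =>
      exists_enum (Classical.arbitrary Λ) (k j) (LU j p u) (hLUc j p u)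
    choose fW hfW using fun j q w =>
      exists_enum (Classical.arbitrary Λ) (k j) (LW j q w) (hLWc j q w)
    -- decodable edges
    set Dec : ι → Prop := fun e => ∃ j l, ∃ i ∈ LU j (T.src l) (I.src e),
      I.perm e i ∈ LW j (T.dst l) (I.dst e) with hDec
    have hedge : ∀ e, (𝔼 k, ∑ ω, ∑ α, (1 - 1 / (t : ℝ)) ^ (supp o α).card *
        ((Φ.pi Λ).coef (ind (fun x => A (T.src k, I.src e, x)) ω) α *
         (Φ.pi Λ).coef (trans (σ k) (I.perm e) (fun x => B (T.dst k, I.dst e, x)) ω) α)) ≤
        c + if Dec e then 1 else 0 := by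
      intro e
      by_cases hd : Dec e
      · rw [if_pos hd]
        have h1 : (𝔼 k, ∑ ω, ∑ α, (1 - 1 / (t : ℝ)) ^ (supp o α).card *
          ((Φ.pi Λ).coef (ind (fun x => A (T.src k, I.src e, x)) ω) α *
          (Φ.pi Λ).coef (trans (σ k) (I.perm e) (fun x => B (T.dst k, I.dst e, x)) ω) α)) ≤ 1 :=
          Finset.expect_le Finset.univ_nonempty (fun k _ => acc_le_one Φ t ht _ _ _ _)
        linarith
      · rw [if_neg hd, add_zero]
        obtain ⟨j, hj⟩ := hc (fun p ω => 𝔼 x, ind (fun x => A (p, I.src e, x)) ω x)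
          (fun q ω => 𝔼 x, ind (fun x => B (q, I.dst e, x)) ω x)
          (fun p ω => Finset.expect_nonneg (fun x _ => ind_nonneg _ _ _))
          (fun q ω => Finset.expect_nonneg (fun x _ => ind_nonneg _ _ _))
          (fun p => sum_expect Φ (ind_sum _)) (fun q => sum_expect Φ (ind_sum _))
        have hacc : ∀ k, (∑ ω, ∑ α, (1 - 1 / (t : ℝ)) ^ (supp o α).card *
          ((Φ.pi Λ).coef (ind (fun x => A (T.src k, I.src e, x)) ω) α *
          (Φ.pi Λ).coef (trans (σ k) (I.perm e) (fun x => B (T.dst k, I.dst e, x)) ω) α)) ≤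
            hsum T σ ((θ (j k) ^ 2) ^ (4 * t))
              (fun p ω => 𝔼 x, ind (fun x => A (p, I.src e, x)) ω x)
              (fun q ω => 𝔼 x, ind (fun x => B (q, I.dst e, x)) ω x) k + 5 * θ (j k) := by
          intro k
          have h1 := accept_min Φ (D (j k)) (h := ind (fun x => A (T.src k, I.src e, x)))
            (g := trans (σ k) (I.perm e) (fun x => B (T.dst k, I.dst e, x))) (ind_nonneg _)
            (ind_sum _) (fun ω x => ind_nonneg _ _ _) (trans_sum _ _ _) t ht (θ (j k))
            (hθ0 (j k)) (τ (j k)) (τ' (j k))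
            ((hτ'0 (j k)).trans_le (hττ' (j k))) (hττ' (j k)) (hτ'0 (j k)).le (p1 (j k))
            (p2 (j k)) (p3 (j k)) (by
              intro i
              by_contra hcon
              push Not at hcon
              apply hd
              refine ⟨j k, k, i, ?_, ?_⟩
              · rw [hLU, Finset.mem_filter]
                exact ⟨mem_univ _, hcon.1⟩
              · rw [hLW, Finset.mem_filter]
                refine ⟨mem_univ _, ?_⟩
                rw [← JJ_move Φ (D (j k)) (σ k) (σ k) (I.perm e)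
                  (ind (fun x => B (T.dst k, I.dst e, x))) i]
                exact hcon.2)
          have h4 : θ (j k) ^ 2 ≤ θ (j k) := by nlinarith [hθ0 (j k), hθ1 (j k)]
          have h5 : (∑ ω, if (θ (j k) ^ 2) ^ (4 * t) <
                (𝔼 x, ind (fun x => A (T.src k, I.src e, x)) ω x) ∧
              (θ (j k) ^ 2) ^ (4 * t) <
                (𝔼 x, trans (σ k) (I.perm e) (fun x => B (T.dst k, I.dst e, x)) ω x)
                then min (𝔼 x, ind (fun x => A (T.src k, I.src e, x)) ω x)
                  (𝔼 x, trans (σ k) (I.perm e) (fun x => B (T.dst k, I.dst e, x)) ω x)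
                else 0) =
              hsum T σ ((θ (j k) ^ 2) ^ (4 * t))
              (fun p ω => 𝔼 x, ind (fun x => A (p, I.src e, x)) ω x)
              (fun q ω => 𝔼 x, ind (fun x => B (q, I.dst e, x)) ω x) k := by
            refine Finset.sum_congr rfl (fun ω _ => ?_)
            have h2 : (𝔼 x, trans (σ k) (I.perm e) (fun x => B (T.dst k, I.dst e, x)) ω x) =
                𝔼 x, ind (fun x => B (T.dst k, I.dst e, x)) (σ k ω) x :=
              mean_move (σ k) (I.perm e) (ind (fun x => B (T.dst k, I.dst e, x)) (σ k ω))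
            rw [h2]
          rw [h5] at h1
          linarith
        refine (Finset.expect_le_expect (fun k _ => hacc k)).trans ?_
        rw [Fintype.expect_eq_sum_div_card]
        exact hj
    refine (Finset.expect_le_expect (fun e _ => hedge e)).trans ?_
    rw [Finset.expect_add_distrib, Fintype.expect_const]
    refine add_le_add le_rfl ?_
    -- decoding
    have hpt : ∀ e, (if Dec e then (1 : ℝ) else 0) ≤ ∑ j : J, ∑ l : κ, ∑ a : Fin (k j),
        ∑ b : Fin (k j), if I.perm e (fU j (T.src l) (I.src e) a) = fW j (T.dst l) (I.dst e) b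
          then (1 : ℝ) else 0 := by
      intro e
      have hnn : ∀ (j : J) (l : κ) (a b : Fin (k j)), (0 : ℝ) ≤
          if I.perm e (fU j (T.src l) (I.src e) a) = fW j (T.dst l) (I.dst e) b
            then (1 : ℝ) else 0 := by
        intro j l a b
        split_ifs <;> norm_num
      by_cases hd : Dec e
      · rw [if_pos hd]
        obtain ⟨j, l, i, hi, hi'⟩ := hd
        obtain ⟨a, ha⟩ := hfU _ _ _ i hi
        obtain ⟨b, hb⟩ := hfW _ _ _ _ hi'
        have h1 : (1 : ℝ) ≤ ∑ b : Fin (k j),
            if I.perm e (fU j (T.src l) (I.src e) a) = fW j (T.dst l) (I.dst e) b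
              then (1 : ℝ) else 0 := by
          refine le_trans (le_of_eq ?_) (Finset.single_le_sum (f := fun b : Fin (k j) =>
            if I.perm e (fU j (T.src l) (I.src e) a) = fW j (T.dst l) (I.dst e) b
              then (1 : ℝ) else 0) (fun b _ => hnn j l a b) (mem_univ b))
          rw [if_pos (by rw [ha, hb])]
        have h2 : (1 : ℝ) ≤ ∑ a : Fin (k j), ∑ b : Fin (k j),
            if I.perm e (fU j (T.src l) (I.src e) a) = fW j (T.dst l) (I.dst e) b
              then (1 : ℝ) else 0 :=
          h1.trans (Finset.single_le_sum (f := fun a : Fin (k j) => ∑ b : Fin (k j),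
            if I.perm e (fU j (T.src l) (I.src e) a) = fW j (T.dst l) (I.dst e) b
              then (1 : ℝ) else 0)
            (fun a _ => Finset.sum_nonneg (fun b _ => hnn j l a b)) (mem_univ a))
        have h3 : (1 : ℝ) ≤ ∑ l : κ, ∑ a : Fin (k j), ∑ b : Fin (k j),
            if I.perm e (fU j (T.src l) (I.src e) a) = fW j (T.dst l) (I.dst e) b
              then (1 : ℝ) else 0 :=
          h2.trans (Finset.single_le_sum (f := fun l : κ => ∑ a : Fin (k j), ∑ b : Fin (k j),
            if I.perm e (fU j (T.src l) (I.src e) a) = fW j (T.dst l) (I.dst e) b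
              then (1 : ℝ) else 0)
            (fun l _ => Finset.sum_nonneg (fun a _ => Finset.sum_nonneg
              (fun b _ => hnn j l a b))) (mem_univ l))
        exact h3.trans (Finset.single_le_sum (f := fun j : J => ∑ l : κ, ∑ a : Fin (k j),
            ∑ b : Fin (k j),
            if I.perm e (fU j (T.src l) (I.src e) a) = fW j (T.dst l) (I.dst e) b
              then (1 : ℝ) else 0)
            (fun j _ => Finset.sum_nonneg (fun l _ => Finset.sum_nonneg
              (fun a _ => Finset.sum_nonneg (fun b _ => hnn j l a b)))) (mem_univ j))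
      · rw [if_neg hd]
        exact Finset.sum_nonneg (fun j _ => Finset.sum_nonneg (fun l _ => Finset.sum_nonneg
          (fun a _ => Finset.sum_nonneg (fun b _ => hnn j l a b))))
    refine (Finset.expect_le_expect (fun e _ => hpt e)).trans ?_
    rw [Finset.expect_sum_comm, Finset.sum_mul]
    refine Finset.sum_le_sum (fun j _ => ?_)
    rw [Finset.expect_sum_comm]
    have hjj : ∀ (l : κ) (a b : Fin (k j)),
        (𝔼 e, if I.perm e (fU j (T.src l) (I.src e) a) = fW j (T.dst l) (I.dst e) b then
        (1 : ℝ) else 0) ≤ I.value := by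
      intro l a b
      rw [← satFrac_eq I (fun u => fU j (T.src l) u a) (fun w => fW j (T.dst l) w b)]
      exact le_value I _ _
    have hl : ∀ l : κ, (𝔼 e, ∑ a : Fin (k j), ∑ b : Fin (k j),
        if I.perm e (fU j (T.src l) (I.src e) a) = fW j (T.dst l) (I.dst e) b then
        (1 : ℝ) else 0) ≤ (k j : ℝ) * k j * I.value := by
      intro l
      rw [Finset.expect_sum_comm]
      simp_rw [Finset.expect_sum_comm]
      refine (Finset.sum_le_sum (fun a _ => Finset.sum_le_sum (fun b _ => hjj l a b))).trans ?_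
      rw [Finset.sum_const, Finset.sum_const, Finset.card_univ, Fintype.card_fin, nsmul_eq_mul,
        nsmul_eq_mul, mul_assoc]
    refine (Finset.sum_le_sum (fun l _ => hl l)).trans (le_of_eq ?_)
    rw [Finset.sum_const, Finset.card_univ, nsmul_eq_mul]
    ring
  refine Real.iSup_le hsupr ?_
  have : 0 ≤ ∑ j, (Fintype.card κ : ℝ) * ((k j : ℝ) * k j) :=
    Finset.sum_nonneg (fun j _ => by positivity)
  positivity

end sound

end Pool.Agent.P325t
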